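import Pool.Agent.U162.MU.Eff3

/-!
The cost in the norm of `FB^{-1}_{1,2}`
-/

open MeasureTheory Set Filter Topology
open scoped ENNReal NNReal ContDiff

namespace Pool.Agent.U162.MU

open Pool.Agent.H356R3.NS Pool.Agent.U162.TS Pool.Agent.U162.GE Pool.Agent.U162.TS.EL Pool.Agent.U162.TS.VF Pool.Agent.U162.PL

lemma key_ineq {N : ℕ} (hN : 0 < N) {κ k : K} (hκ : κ ≠ 0) (hk : k ≠ 0) :
    (N : ℝ) / nk κ ≤ 1 / nk k + 2 * (1 + nk (κ - (N : ℤ) • k)) ^ 2 / N := by
  have hNp : (0 : ℝ) < N := by exact_mod_cast hN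
  have h1 : (N : ℝ) * nk k ≤ nk κ + nk (κ - (N : ℤ) • k) := by
    have := TS.nk_add κ (-(κ - (N : ℤ) • k))
    rw [nk_neg] at this
    have e : κ + -(κ - (N : ℤ) • k) = (N : ℤ) • k := by abel
    rw [e, nk_nsmul] at this
    exact this
  have hkp := nk_pos hk
  have hk1 := one_le_nk hk
  have hκp := nk_pos hκ
  set n1 := nk (κ - (N : ℤ) • k) with hn1
  have hn0 : 0 ≤ n1 := nk_nonneg _
  by_cases hc : 2 * n1 ≤ N * nk k
  · have h2 : N * nk k / 2 ≤ nk κ := by linarith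
    have h3 : (N : ℝ) / nk κ ≤ 1 / nk k + 2 * n1 / N := by
      rw [div_le_iff₀ hκp]
      have e1 : (N : ℝ) = (1 / nk k) * (N * nk k) := by field_simp
      have e2 : (1 / nk k) * (N * nk k) ≤ (1 / nk k) * (nk κ + n1) := by gcongr
      have e3 : (1 / nk k) * n1 ≤ 2 * n1 / N * nk κ := by
        have e4 : (1 / nk k) * n1 ≤ n1 := by
          have : 1 / nk k ≤ 1 := by rw [div_le_one hkp]; exact hk1
          nlinarith
        have e5 : n1 ≤ 2 * n1 / N * (N * nk k / 2) := by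
          have : 2 * n1 / N * (N * nk k / 2) = n1 * nk k := by field_simp
          rw [this]; nlinarith
        exact e4.trans (e5.trans (by gcongr))
      calc (N : ℝ) = (1 / nk k) * (N * nk k) := e1
        _ ≤ (1 / nk k) * (nk κ + n1) := e2
        _ = 1 / nk k * nk κ + (1 / nk k) * n1 := by ring
        _ ≤ 1 / nk k * nk κ + 2 * n1 / N * nk κ := by linarith
        _ = _ := by ring
    refine h3.trans ?_
    have : 2 * n1 ≤ 2 * (1 + n1) ^ 2 := by nlinarith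
    have h4 : 2 * n1 / N ≤ 2 * (1 + n1) ^ 2 / N := div_le_div_of_nonneg_right this hNp.le
    linarith
  · push Not at hc
    have h2 := N_div_le (N := N) hκ hk
    have h3 : (N : ℝ) < 2 * n1 := by nlinarith
    have h4 : 1 + n1 ≤ 2 * (1 + n1) ^ 2 / N := by
      rw [le_div_iff₀ hNp]; nlinarith
    have h5 : 0 ≤ 1 / nk k := by positivity
    linarith

/-- the Lei-Lin norm of an oscillating field -/
lemma eN_dosc {V : R3 → R3 → R3} (hV : Profile V) {N : ℕ} (hN : 0 < N) :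
    eN (dosc V N) ≤ 4 * (∑' P : K × K, ENNReal.ofReal (1 / nk P.2) * ‖bV V P‖ₑ) + ENNReal.ofReal (1 / N) * CV V := by
  have hNp : (0 : ℝ) < N := by exact_mod_cast hN
  have hterm : ∀ κ : K, ‖dosc V N κ‖ₑ * ENNReal.ofReal (1 / nk κ)
      ≤ ∑' k : K, (4 * (ENNReal.ofReal (1 / nk (ph2 N κ k).2) * ‖bV V (ph2 N κ k)‖ₑ)
        + ENNReal.ofReal (1 / N) * (ENNReal.ofReal (16 * (1 + nk (ph2 N κ k).1) ^ 2) * ‖bV V (ph2 N κ k)‖ₑ)) := by
    intro κ
    by_cases hκ0 : κ = 0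
    · subst hκ0
      rw [nk_zero]; simp
    refine (mul_le_mul' (dosc_le hV _ κ) le_rfl).trans ?_
    rw [← ENNReal.tsum_mul_right]
    refine ENNReal.tsum_le_tsum fun k => ?_
    rw [if_neg hκ0]
    by_cases hk : k = 0
    · rw [bV_k0 hV (P := ph2 N κ k) hk]; simp
    have hb := norm_nonneg (bV V (ph2 N κ k))
    have hn := nk_nonneg (ph2 N κ k).1
    have hn2 := nk_nonneg (ph2 N κ k).2
    rw [← ofReal_norm, ← ENNReal.ofReal_mul (by positivity), ← ENNReal.ofReal_mul (by positivity),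
      ← ENNReal.ofReal_mul (by positivity), ← ENNReal.ofReal_mul (by positivity), ← ENNReal.ofReal_mul (by positivity),
      show (4 : ℝ≥0∞) = ENNReal.ofReal 4 by norm_num, ← ENNReal.ofReal_mul (by positivity),
      ← ENNReal.ofReal_add (by positivity) (by positivity)]
    apply ENNReal.ofReal_le_ofReal
    have h1 : (N : ℝ) / nk κ ≤ 1 / nk (ph2 N κ k).2 + 2 * (1 + nk (ph2 N κ k).1) ^ 2 / N := key_ineq hN hκ0 hk
    have h2 : 4 * (N : ℝ) * (1 / nk κ) ≤ 4 * (1 / nk (ph2 N κ k).2) + 1 / N * (16 * (1 + nk (ph2 N κ k).1) ^ 2) := by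
      calc 4 * (N : ℝ) * (1 / nk κ) = 4 * (N / nk κ) := by ring
        _ ≤ 4 * (1 / nk (ph2 N κ k).2 + 2 * (1 + nk (ph2 N κ k).1) ^ 2 / N) := by linarith
        _ = 4 * (1 / nk (ph2 N κ k).2) + 1 / N * (8 * (1 + nk (ph2 N κ k).1) ^ 2) := by ring
        _ ≤ _ := by
            have : 1 / (N : ℝ) * (8 * (1 + nk (ph2 N κ k).1) ^ 2) ≤ 1 / N * (16 * (1 + nk (ph2 N κ k).1) ^ 2) := by
              refine mul_le_mul_of_nonneg_left ?_ (by positivity)
              nlinarith [sq_nonneg (1 + nk (ph2 N κ k).1)]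
            linarith
    calc 4 * (N : ℝ) * ‖bV V (ph2 N κ k)‖ * (1 / nk κ) = (4 * (N : ℝ) * (1 / nk κ)) * ‖bV V (ph2 N κ k)‖ := by ring
      _ ≤ (4 * (1 / nk (ph2 N κ k).2) + 1 / N * (16 * (1 + nk (ph2 N κ k).1) ^ 2)) * ‖bV V (ph2 N κ k)‖ :=
          mul_le_mul_of_nonneg_right h2 hb
      _ = _ := by ring
  unfold eN
  refine (ENNReal.tsum_le_tsum hterm).trans (le_of_eq ?_)
  have h3 := dsum N fun P => (4 * (ENNReal.ofReal (1 / nk P.2) * ‖bV V P‖ₑ)
        + ENNReal.ofReal (1 / N) * (ENNReal.ofReal (16 * (1 + nk P.1) ^ 2) * ‖bV V P‖ₑ))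
  rw [h3, ENNReal.tsum_add, ENNReal.tsum_mul_left, ENNReal.tsum_mul_left]
  rfl

/-- the coefficients of a shear profile -/
lemma bV_sh (ν : ℝ) (γ : R3 → ℝ) (m : K) (ξ : R3) (P : K × K) (i : Fin 3) :
    bV (fun x => sh ν (γ x) m ξ 0) P i
      = (((if m - P.2 = 0 then 1 else 0) + (if -m - P.2 = 0 then 1 else 0) : ℝ) / 2 * ξ i : ℝ) * H459R3.NS.fr γ P.1 := by
  have h1 : ∀ x, H459R3.NS.fr (fun y => sh ν (γ x) m ξ 0 y i) P.2
      = ((((if m - P.2 = 0 then 1 else 0) + (if -m - P.2 = 0 then 1 else 0) : ℝ) / 2 * ξ i : ℝ) : ℂ) * (γ x : ℂ) := by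
    intro x
    unfold H459R3.NS.fr H459R3.NS.fc
    have e : ∀ y, H459R3.NS.ee (-P.2) y * ((sh ν (γ x) m ξ 0 y i : ℝ) : ℂ)
        = ((γ x : ℂ) * (ξ i : ℂ) / 2) * (H459R3.NS.ee (m - P.2) y + H459R3.NS.ee (-m - P.2) y) := by
      intro y
      rw [sh_zero_eq]
      have e1 : ((Real.cos (Al m y) : ℝ) : ℂ) = (H459R3.NS.ee m y + H459R3.NS.ee (-m) y) / 2 := by
        rw [ee_Al, H459R3.NS.ee_neg, ee_Al, Complex.ofReal_cos, Complex.cos, ← Complex.exp_conj]
        congr 2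
        rw [map_mul, Complex.conj_ofReal, Complex.conj_I]
        ring_nf
      have e2 : (((γ x * ξ i * Real.cos (Al m y) : ℝ)) : ℂ) = (γ x : ℂ) * (ξ i : ℂ) * ((Real.cos (Al m y) : ℝ) : ℂ) := by
        push_cast; ring
      rw [e2, e1, sub_eq_add_neg, sub_eq_add_neg, H459R3.NS.ee_add_left, H459R3.NS.ee_add_left]
      ring
    simp only [e]
    rw [integral_const_mul, integral_add (H459R3.NS.integrableOn_cube (H459R3.NS.ee_continuous _))
      (H459R3.NS.integrableOn_cube (H459R3.NS.ee_continuous _)), H459R3.NS.integral_ee, H459R3.NS.integral_ee]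
    split_ifs <;> push_cast <;> ring
  unfold bV bb
  simp only [h1]
  unfold H459R3.NS.fr H459R3.NS.fc
  rw [← integral_const_mul]
  refine integral_congr_ae (Filter.Eventually.of_forall fun x => ?_)
  simp only
  ring

/-- the main part of the cost of a shear profile -/
lemma main_sh (ν : ℝ) (γ : R3 → ℝ) {m : K} (hm : m ≠ 0) {ξ : R3} {X : ℝ} (hX : 0 ≤ X) (hξ : ∀ i, |ξ i| ≤ X) :
    ∑' P : K × K, ENNReal.ofReal (1 / nk P.2) * ‖bV (fun x => sh ν (γ x) m ξ 0) P‖ₑ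
      ≤ ENNReal.ofReal (X / nk m) * An1 γ := by
  have hn := nk_pos hm
  set c : K → ℝ := fun k => ((if m - k = 0 then 1 else 0) + (if -m - k = 0 then 1 else 0) : ℝ) / 2 with hc
  have hc0 : ∀ k, 0 ≤ c k := by
    intro k; simp only [hc]; split_ifs <;> norm_num
  have h1 : ∀ P : K × K, ENNReal.ofReal (1 / nk P.2) * ‖bV (fun x => sh ν (γ x) m ξ 0) P‖ₑ
      ≤ ‖H459R3.NS.fr γ P.1‖ₑ * (ENNReal.ofReal (X / nk m) * ENNReal.ofReal (c P.2)) := by
    intro P
    have h2 : ‖bV (fun x => sh ν (γ x) m ξ 0) P‖ ≤ c P.2 * X * ‖H459R3.NS.fr γ P.1‖ := by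
      rw [pi_norm_le_iff_of_nonneg (by have := hc0 P.2; positivity)]
      intro i
      rw [bV_sh, norm_mul, Complex.norm_real, Real.norm_eq_abs, abs_mul]
      refine mul_le_mul_of_nonneg_right ?_ (norm_nonneg _)
      have : |((if m - P.2 = 0 then 1 else 0) + (if -m - P.2 = 0 then 1 else 0) : ℝ) / 2| = c P.2 := abs_of_nonneg (hc0 P.2)
      rw [this]
      exact mul_le_mul_of_nonneg_left (hξ i) (hc0 _)
    have h3 : 1 / nk P.2 * c P.2 ≤ 1 / nk m * c P.2 := by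
      by_cases ha : m - P.2 = 0
      · have : P.2 = m := (sub_eq_zero.1 ha).symm
        rw [this]
      · by_cases hb : -m - P.2 = 0
        · have : P.2 = -m := (sub_eq_zero.1 hb).symm
          rw [this, nk_neg]
        · simp only [hc, if_neg ha, if_neg hb]; simp
    rw [← ofReal_norm, ← ofReal_norm, ← ENNReal.ofReal_mul (by have := nk_nonneg P.2; positivity),
      ← ENNReal.ofReal_mul (by positivity), ← ENNReal.ofReal_mul (norm_nonneg _)]
    apply ENNReal.ofReal_le_ofReal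
    have h4 : 0 ≤ 1 / nk P.2 := by have := nk_nonneg P.2; positivity
    calc 1 / nk P.2 * ‖bV (fun x => sh ν (γ x) m ξ 0) P‖ ≤ 1 / nk P.2 * (c P.2 * X * ‖H459R3.NS.fr γ P.1‖) :=
          mul_le_mul_of_nonneg_left h2 h4
      _ = (1 / nk P.2 * c P.2) * (X * ‖H459R3.NS.fr γ P.1‖) := by ring
      _ ≤ (1 / nk m * c P.2) * (X * ‖H459R3.NS.fr γ P.1‖) := mul_le_mul_of_nonneg_right h3 (by positivity)
      _ = _ := by ring
  refine (ENNReal.tsum_le_tsum h1).trans ?_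
  rw [ENNReal.tsum_prod (f := fun a b => ‖H459R3.NS.fr γ a‖ₑ * (ENNReal.ofReal (X / nk m) * ENNReal.ofReal (c b)))]
  simp only [ENNReal.tsum_mul_left, ENNReal.tsum_mul_right]
  have h5 : ∑' b, ENNReal.ofReal (c b) ≤ 1 := by
    have h6 : ∀ b, ENNReal.ofReal (c b) = (if b = m then ENNReal.ofReal (1 / 2) else 0) + (if b = -m then ENNReal.ofReal (1 / 2) else 0) := by
      intro b
      simp only [hc]
      by_cases ha : b = m
      · by_cases hb : b = -m
        · rw [if_pos ha, if_pos hb, if_pos (by rw [ha]; abel), if_pos (by rw [hb]; abel),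
            ← ENNReal.ofReal_add (by norm_num) (by norm_num)]
          norm_num
        · rw [if_pos ha, if_neg hb, if_pos (by rw [ha]; abel), if_neg (fun h => hb (sub_eq_zero.1 h).symm), add_zero, add_zero]
      · by_cases hb : b = -m
        · rw [if_neg ha, if_pos hb, if_neg (fun h => ha (sub_eq_zero.1 h).symm), if_pos (by rw [hb]; abel), zero_add, zero_add]
        · rw [if_neg ha, if_neg hb, if_neg (fun h => ha (sub_eq_zero.1 h).symm), if_neg (fun h => hb (sub_eq_zero.1 h).symm)]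
          simp
    simp only [h6]
    rw [ENNReal.tsum_add, tsum_ite_eq, tsum_ite_eq, ← ENNReal.ofReal_add (by norm_num) (by norm_num)]
    norm_num
  unfold An1
  calc (∑' a, ‖H459R3.NS.fr γ a‖ₑ) * (ENNReal.ofReal (X / nk m) * ∑' b, ENNReal.ofReal (c b))
      ≤ (∑' a, ‖H459R3.NS.fr γ a‖ₑ) * (ENNReal.ofReal (X / nk m) * 1) := by gcongr
    _ = _ := by ring

end Pool.Agent.U162.MU
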