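import Pool.Agent.U162.MU.Cost

/-!
The norm of `FB^{-1}_{1,2}` of superpositions of oscillating fields at separated scales
-/

open MeasureTheory Set Filter Topology
open scoped ENNReal NNReal ContDiff

namespace Pool.Agent.U162.MU

open Pool.Agent.H356R3.NS Pool.Agent.U162.TS Pool.Agent.U162.GE Pool.Agent.U162.TS.EL Pool.Agent.U162.TS.VF Pool.Agent.U162.PL

lemma shell_uniq {κ : K} {J J' : ℕ} (h : (4 : ℤ) ^ J ≤ ∑ i, κ i ^ 2 ∧ ∑ i, κ i ^ 2 < (4 : ℤ) ^ (J + 1))
    (h' : (4 : ℤ) ^ J' ≤ ∑ i, κ i ^ 2 ∧ ∑ i, κ i ^ 2 < (4 : ℤ) ^ (J' + 1)) : J = J' := by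
  by_contra hne
  rcases lt_or_gt_of_ne hne with hlt | hlt
  · have : (4 : ℤ) ^ (J + 1) ≤ 4 ^ J' := pow_le_pow_right₀ (by norm_num) hlt
    linarith [h.2, h'.1]
  · have : (4 : ℤ) ^ (J' + 1) ≤ 4 ^ J := pow_le_pow_right₀ (by norm_num) hlt
    linarith [h'.2, h.1]

lemma shells_eN (a : K → C3) : ∑' J, shellSum a J / 2 ^ J ≤ 2 * eN a := by
  have h1 : ∀ J, shellSum a J / 2 ^ J = ∑' κ : K, ‖a κ‖ₑ * (if (4 : ℤ) ^ J ≤ ∑ i, κ i ^ 2 ∧ ∑ i, κ i ^ 2 < (4 : ℤ) ^ (J + 1) then
      ENNReal.ofReal (1 / 2 ^ J) else 0) := by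
    intro J
    have h2J : (0 : ℝ) < 2 ^ J := by positivity
    have hdiv : shellSum a J / 2 ^ J = shellSum a J * ENNReal.ofReal (1 / 2 ^ J) := by
      rw [div_eq_mul_inv, one_div, ENNReal.ofReal_inv_of_pos h2J, ENNReal.ofReal_pow (by norm_num)]
      norm_num
    rw [hdiv]
    unfold shellSum
    rw [← ENNReal.tsum_mul_right]
    refine tsum_congr fun κ => ?_
    split_ifs <;> simp
  simp only [h1]
  rw [ENNReal.tsum_comm]
  unfold eN
  rw [← ENNReal.tsum_mul_left]
  refine ENNReal.tsum_le_tsum fun κ => ?_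
  rw [ENNReal.tsum_mul_left]
  have h2 : ∑' J : ℕ, (if (4 : ℤ) ^ J ≤ ∑ i, κ i ^ 2 ∧ ∑ i, κ i ^ 2 < (4 : ℤ) ^ (J + 1) then
      ENNReal.ofReal (1 / 2 ^ J) else 0) ≤ 2 * ENNReal.ofReal (1 / nk κ) := by
    by_cases hex : ∃ J : ℕ, (4 : ℤ) ^ J ≤ ∑ i, κ i ^ 2 ∧ ∑ i, κ i ^ 2 < (4 : ℤ) ^ (J + 1)
    · obtain ⟨J, hJ⟩ := hex
      rw [tsum_eq_single J fun J' hJ' => if_neg fun h => hJ' (shell_uniq h hJ), if_pos hJ]
      have hκ0 : κ ≠ 0 := by
        rintro rfl
        have h1 := hJ.1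
        simp at h1
        have : (0 : ℤ) < 4 ^ J := by positivity
        linarith
      have hn := nk_pos hκ0
      rw [show (2 : ℝ≥0∞) = ENNReal.ofReal 2 by norm_num, ← ENNReal.ofReal_mul (by norm_num)]
      apply ENNReal.ofReal_le_ofReal
      have h5 : nk κ < 2 ^ (J + 1) := by
        have h6 : nk κ ^ 2 < (2 ^ (J + 1)) ^ 2 := by
          rw [H356R3.NS.nk_sq]
          have h7 : ((∑ i, κ i ^ 2 : ℤ) : ℝ) < ((4 : ℤ) ^ (J + 1) : ℤ) := by exact_mod_cast hJ.2
          push_cast at h7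
          unfold H356R3.NS.sq
          calc _ < (4 : ℝ) ^ (J + 1) := h7
            _ = (2 ^ (J + 1)) ^ 2 := by rw [← pow_mul, mul_comm, pow_mul]; norm_num
        exact lt_of_pow_lt_pow_left₀ 2 (by positivity) h6
      rw [mul_one_div, div_le_div_iff₀ (by positivity) hn]
      rw [pow_succ] at h5
      linarith
    · push Not at hex
      have : ∀ J : ℕ, (if (4 : ℤ) ^ J ≤ ∑ i, κ i ^ 2 ∧ ∑ i, κ i ^ 2 < (4 : ℤ) ^ (J + 1) then
          ENNReal.ofReal (1 / 2 ^ J) else 0) = 0 := fun J => if_neg fun h => absurd h.2 (not_lt.2 (hex J h.1))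
      simp only [this]
      simp
  calc ‖a κ‖ₑ * _ ≤ ‖a κ‖ₑ * (2 * ENNReal.ofReal (1 / nk κ)) := mul_le_mul' le_rfl h2
    _ = _ := by ring

/-- the tail of the weights -/
lemma wt_tail (G J : ℕ) : ∑' e : ℕ, (if G ≤ (e - J) + (J - e) then ENNReal.ofReal (wt e J) else 0)
    ≤ ENNReal.ofReal (4 * (1 / 2) ^ G) := by
  have h1 : ∀ e, (if G ≤ (e - J) + (J - e) then ENNReal.ofReal (wt e J) else 0)
      ≤ (if J + G ≤ e then ENNReal.ofReal ((1 / 2 : ℝ) ^ (e - J)) else 0)
      + if e + G ≤ J then ENNReal.ofReal ((1 / 2 : ℝ) ^ (J - e)) else 0 := by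
    intro e
    split_ifs with h2 h3 h4 h4
    · refine le_trans ?_ le_self_add
      unfold wt
      rw [show J - e = 0 by omega, add_zero]
    · unfold wt
      rw [show J - e = 0 by omega, add_zero, add_zero]
    · unfold wt
      rw [show e - J = 0 by omega, zero_add, zero_add]
    · exfalso; omega
    all_goals simp
  refine (ENNReal.tsum_le_tsum h1).trans ?_
  rw [ENNReal.tsum_add]
  have hg : ∀ n : ℕ, ENNReal.ofReal ((1 / 2 : ℝ) ^ (G + n)) = ENNReal.ofReal ((1 / 2 : ℝ) ^ G) * ENNReal.ofReal ((1 / 2 : ℝ) ^ n) := by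
    intro n
    rw [pow_add, ENNReal.ofReal_mul (by positivity)]
  have h2 : ∑' e : ℕ, (if J + G ≤ e then ENNReal.ofReal ((1 / 2 : ℝ) ^ (e - J)) else 0) ≤ ENNReal.ofReal ((1 / 2 : ℝ) ^ G) * 2 := by
    have hinj : Function.Injective fun n : ℕ => J + G + n := fun a b h => by simpa using h
    rw [← hinj.tsum_eq (f := fun e => if J + G ≤ e then ENNReal.ofReal ((1 / 2 : ℝ) ^ (e - J)) else 0)]
    · have : ∀ n, (if J + G ≤ J + G + n then ENNReal.ofReal ((1 / 2 : ℝ) ^ (J + G + n - J)) else 0)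
          = ENNReal.ofReal ((1 / 2 : ℝ) ^ G) * ENNReal.ofReal ((1 / 2 : ℝ) ^ n) := by
        intro n
        rw [if_pos (Nat.le_add_right _ n), ← hg]
        congr 2
        omega
      simp only [this]
      rw [ENNReal.tsum_mul_left, tsum_half]
    · intro e he
      rw [Function.mem_support] at he
      have : J + G ≤ e := by
        by_contra h
        exact he (if_neg h)
      exact ⟨e - (J + G), by show J + G + (e - (J + G)) = e; omega⟩
  have h3 : ∑' e : ℕ, (if e + G ≤ J then ENNReal.ofReal ((1 / 2 : ℝ) ^ (J - e)) else 0) ≤ ENNReal.ofReal ((1 / 2 : ℝ) ^ G) * 2 := by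
    rw [tsum_eq_sum (s := Finset.range (J + 1)) (fun e he => if_neg (by simp at he; omega))]
    have h4 : ∑ e ∈ Finset.range (J + 1), (if e + G ≤ J then ENNReal.ofReal ((1 / 2 : ℝ) ^ (J - e)) else 0)
        ≤ ∑ e ∈ Finset.range (J + 1), (if e + G ≤ J then ENNReal.ofReal ((1 / 2 : ℝ) ^ G) * ENNReal.ofReal ((1 / 2 : ℝ) ^ (J - G - e)) else 0) := by
      refine Finset.sum_le_sum fun e _ => ?_
      split_ifs with h
      · rw [← hg]
        refine le_of_eq ?_
        congr 2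
        omega
      · exact le_rfl
    refine h4.trans ?_
    rw [← Finset.sum_filter, ← Finset.mul_sum]
    refine mul_le_mul' le_rfl ?_
    have h5 : ∑ e ∈ (Finset.range (J + 1)).filter (fun e => e + G ≤ J), ENNReal.ofReal ((1 / 2 : ℝ) ^ (J - G - e))
        = ∑ n ∈ ((Finset.range (J + 1)).filter (fun e => e + G ≤ J)).image (fun e => J - G - e), ENNReal.ofReal ((1 / 2 : ℝ) ^ n) := by
      rw [Finset.sum_image (fun a ha b hb h => by
        have h1 := (Finset.mem_filter.1 ha).2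
        have h2 := (Finset.mem_filter.1 hb).2
        have h3 : J - G - a = J - G - b := h
        omega)]
    rw [h5]
    exact (ENNReal.sum_le_tsum _).trans tsum_half.le
  refine (add_le_add h2 h3).trans (le_of_eq ?_)
  rw [ENNReal.ofReal_mul (by norm_num)]
  norm_num
  ring

/-- the norm of `FB^{-1}_{1,2}` of a superposition -/
lemma crit2_super {P : Fin 3 × Fin 3 → R3 → R3 → R3} (hP : ∀ q, Profile (P q)) {r : ℝ} (hr : 0 ≤ r)
    {n : ℕ} {e : Fin (n * (3 * 3)) → ℕ} (he : Function.Injective e) {G : ℕ} (hG : ∀ i j, i ≠ j → 2 * G ≤ (e i - e j) + (e j - e i))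
    {B : ℝ} (hB0 : 0 ≤ B) (hB : ∀ j, 2 * eN (dosc (P (qj n j)) (2 ^ e j)) ≤ ENNReal.ofReal B)
    {η : ℝ} (hη : 0 ≤ η) (hη' : ENNReal.ofReal (4 * (1 / 2) ^ G) * ∑ q, CV (P q) ≤ ENNReal.ofReal η) :
    critNorm 2 (fun κ => ∑ j, r • dosc (P (qj n j)) (2 ^ e j) κ) ^ 2
      ≤ ENNReal.ofReal (9 * (n * r ^ 2) * (B + η) ^ 2) := by
  set C := ∑ q, CV (P q) with hC
  have hCq : ∀ q, CV (P q) ≤ C := fun q => Finset.single_le_sum (f := fun q => CV (P q)) (fun _ _ => bot_le) (Finset.mem_univ q)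
  set s : Fin (n * (3 * 3)) → ℕ → ℝ≥0∞ := fun j J => shellSum (dosc (P (qj n j)) (2 ^ e j)) J / 2 ^ J with hs
  have hs1 : ∀ j, ∑' J, s j J ≤ ENNReal.ofReal B := fun j => (shells_eN _).trans (hB j)
  have hs2 : ∀ j J, s j J ≤ ENNReal.ofReal B := fun j J => (ENNReal.le_tsum J).trans (hs1 j)
  have hs3 : ∀ j J, s j J ≤ ENNReal.ofReal (wt (e j) J) * C := fun j J =>
    (shell_dosc (hP (qj n j)) (e j) J).trans (mul_le_mul' le_rfl (hCq _))
  have hS : ∀ J, shellSum (fun κ => ∑ j, r • dosc (P (qj n j)) (2 ^ e j) κ) J / 2 ^ J ≤ ENNReal.ofReal r * ∑ j, s j J := by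
    intro J
    have h1 := shell_sum Finset.univ (fun j κ => r • dosc (P (qj n j)) (2 ^ e j) κ) J
    refine (ENNReal.div_le_div_right h1 _).trans ?_
    rw [div_eq_mul_inv, Finset.sum_mul, Finset.mul_sum]
    refine Finset.sum_le_sum fun j _ => ?_
    rw [shell_smul hr, mul_assoc, ← div_eq_mul_inv]
  -- the supremum
  have hsup : ∀ J, ∑ j, s j J ≤ ENNReal.ofReal (B + η) := by
    intro J
    have h1 : ∑ j, s j J ≤ (∑ j, if (e j - J) + (J - e j) < G then s j J else 0)
        + ∑ j, (if G ≤ (e j - J) + (J - e j) then ENNReal.ofReal (wt (e j) J) else 0) * C := by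
      rw [← Finset.sum_add_distrib]
      refine Finset.sum_le_sum fun j _ => ?_
      rcases lt_or_ge ((e j - J) + (J - e j)) G with h | h
      · rw [if_pos h, if_neg (not_le.2 h)]; simp
      · rw [if_neg (not_lt.2 h), if_pos h, zero_add]; exact hs3 j J
    have h2 : (∑ j, if (e j - J) + (J - e j) < G then s j J else 0) ≤ ENNReal.ofReal B := by
      by_cases hex : ∃ j, (e j - J) + (J - e j) < G
      · obtain ⟨j, hj⟩ := hex
        rw [Finset.sum_eq_single j (fun i _ hij => if_neg fun h => by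
          have := hG i j hij
          omega) (fun h => absurd (Finset.mem_univ j) h), if_pos hj]
        exact hs2 j J
      · push Not at hex
        rw [Finset.sum_eq_zero fun j _ => if_neg (not_lt.2 (hex j))]
        exact bot_le
    have h3 : ∑ j, (if G ≤ (e j - J) + (J - e j) then ENNReal.ofReal (wt (e j) J) else 0) * C ≤ ENNReal.ofReal η := by
      rw [← Finset.sum_mul]
      refine le_trans (mul_le_mul' ?_ le_rfl) hη'
      refine le_trans ?_ (wt_tail G J)
      rw [← tsum_fintype (L := SummationFilter.unconditional _)]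
      exact ENNReal.tsum_comp_le_tsum_of_injective he fun e => if G ≤ (e - J) + (J - e) then ENNReal.ofReal (wt e J) else 0
    rw [ENNReal.ofReal_add hB0 hη]
    exact h1.trans (add_le_add h2 h3)
  have hsum : ∑' J, ∑ j, s j J ≤ ENNReal.ofReal (9 * n * B) := by
    rw [Summable.tsum_finsetSum fun _ _ => ENNReal.summable]
    refine (Finset.sum_le_sum fun j _ => hs1 j).trans ?_
    rw [Finset.sum_const, Finset.card_univ, Fintype.card_fin, nsmul_eq_mul, ENNReal.ofReal_mul (by positivity)]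
    refine mul_le_mul' (le_of_eq ?_) le_rfl
    rw [ENNReal.ofReal_mul (by norm_num), ENNReal.ofReal_natCast]
    push_cast
    norm_num
    ring
  have hsq : critNorm 2 (fun κ => ∑ j, r • dosc (P (qj n j)) (2 ^ e j) κ) ^ 2
      = ∑' J, (shellSum (fun κ => ∑ j, r • dosc (P (qj n j)) (2 ^ e j) κ) J / 2 ^ J) ^ 2 := by
    unfold critNorm
    rw [← ENNReal.rpow_natCast, ← ENNReal.rpow_mul]
    norm_num
  rw [hsq]
  calc ∑' J, (shellSum (fun κ => ∑ j, r • dosc (P (qj n j)) (2 ^ e j) κ) J / 2 ^ J) ^ 2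
      ≤ ∑' J, (ENNReal.ofReal r * ENNReal.ofReal r * ENNReal.ofReal (B + η)) * ∑ j, s j J := by
        refine ENNReal.tsum_le_tsum fun J => ?_
        calc (shellSum (fun κ => ∑ j, r • dosc (P (qj n j)) (2 ^ e j) κ) J / 2 ^ J) ^ 2
            ≤ (ENNReal.ofReal r * ∑ j, s j J) ^ 2 := by
              gcongr
              exact hS J
          _ = (ENNReal.ofReal r * ENNReal.ofReal r * (∑ j, s j J)) * ∑ j, s j J := by ring
          _ ≤ _ := by
              gcongr
              exact hsup J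
    _ ≤ (ENNReal.ofReal r * ENNReal.ofReal r * ENNReal.ofReal (B + η)) * ENNReal.ofReal (9 * n * B) := by
        rw [ENNReal.tsum_mul_left]
        exact mul_le_mul' le_rfl hsum
    _ ≤ _ := by
        rw [← ENNReal.ofReal_mul hr, ← ENNReal.ofReal_mul (by positivity), ← ENNReal.ofReal_mul (by positivity)]
        apply ENNReal.ofReal_le_ofReal
        have h1 : r * r * (B + η) * (9 * n * B) = 9 * (n * r ^ 2) * ((B + η) * B) := by ring
        rw [h1]
        refine mul_le_mul_of_nonneg_left ?_ (by positivity)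
        nlinarith

end Pool.Agent.U162.MU
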