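import Pool.Agent.U162.MU.Eff3
import Pool.Agent.U162.MU.Cost2

/-!
The dyadic sums of an oscillating field with frequencies of length `√17`
-/

open MeasureTheory Set Filter Topology
open scoped ENNReal NNReal ContDiff

namespace Pool.Agent.U162.MU

open Pool.Agent.H356R3.NS Pool.Agent.U162.TS Pool.Agent.U162.GE Pool.Agent.U162.TS.EL Pool.Agent.U162.TS.VF Pool.Agent.U162.PL

/-- the weight of the dyadic shell of a frequency -/
noncomputable def wJ (κ : K) : ℝ≥0∞ :=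
  ∑' J : ℕ, if (4 : ℤ) ^ J ≤ ∑ i, κ i ^ 2 ∧ ∑ i, κ i ^ 2 < (4 : ℤ) ^ (J + 1) then ENNReal.ofReal (1 / 2 ^ J) else 0

lemma wJ_eq {κ : K} {J : ℕ} (h : (4 : ℤ) ^ J ≤ ∑ i, κ i ^ 2 ∧ ∑ i, κ i ^ 2 < (4 : ℤ) ^ (J + 1)) :
    wJ κ = ENNReal.ofReal (1 / 2 ^ J) := by
  unfold wJ
  rw [tsum_eq_single J fun J' hJ' => if_neg fun h' => hJ' (shell_uniq h' h), if_pos h]

lemma wJ_le (κ : K) : wJ κ ≤ 1 := by
  by_cases hex : ∃ J : ℕ, (4 : ℤ) ^ J ≤ ∑ i, κ i ^ 2 ∧ ∑ i, κ i ^ 2 < (4 : ℤ) ^ (J + 1)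
  · obtain ⟨J, hJ⟩ := hex
    rw [wJ_eq hJ, ← ENNReal.ofReal_one]
    apply ENNReal.ofReal_le_ofReal
    rw [div_le_one (by positivity)]
    exact one_le_pow₀ (by norm_num)
  · push Not at hex
    have : ∀ J : ℕ, (if (4 : ℤ) ^ J ≤ ∑ i, κ i ^ 2 ∧ ∑ i, κ i ^ 2 < (4 : ℤ) ^ (J + 1) then
        ENNReal.ofReal (1 / 2 ^ J) else 0) = 0 := fun J => if_neg fun h => absurd h.2 (not_lt.2 (hex J h.1))
    unfold wJ
    simp only [this]
    simp

lemma shells_wJ (a : K → C3) : ∑' J, shellSum a J / 2 ^ J = ∑' κ, ‖a κ‖ₑ * wJ κ := by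
  have h1 : ∀ J, shellSum a J / 2 ^ J = ∑' κ : K, ‖a κ‖ₑ * (if (4 : ℤ) ^ J ≤ ∑ i, κ i ^ 2 ∧ ∑ i, κ i ^ 2 < (4 : ℤ) ^ (J + 1) then
      ENNReal.ofReal (1 / 2 ^ J) else 0) := by
    intro J
    have h2J : (0 : ℝ) < 2 ^ J := by positivity
    have hdiv : shellSum a J / 2 ^ J = shellSum a J * ENNReal.ofReal (1 / 2 ^ J) := by
      rw [div_eq_mul_inv, one_div, ENNReal.ofReal_inv_of_pos h2J, ENNReal.ofReal_pow (by norm_num)]
      norm_num
    rw [hdiv]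
    unfold shellSum
    rw [← ENNReal.tsum_mul_right]
    refine tsum_congr fun κ => ?_
    split_ifs <;> simp
  simp only [h1]
  rw [ENNReal.tsum_comm]
  refine tsum_congr fun κ => ?_
  rw [ENNReal.tsum_mul_left]
  rfl

lemma dosc_le' {V : R3 → R3 → R3} (hV : Profile V) (N : ℕ) (κ : K) :
    ‖dosc V N κ‖ₑ ≤ ∑' k : K, if κ = 0 then 0 else ENNReal.ofReal N * ‖pr κ (bV V (ph2 N κ k))‖ₑ := by
  unfold dosc
  by_cases hκ : κ = 0
  · rw [if_pos hκ]; simp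
  rw [if_neg hκ, osc_fc hV]
  simp only [if_neg hκ]
  rw [ENNReal.tsum_mul_left]
  have hs : Summable fun k : K => bV V (ph2 N κ k) := by
    have h1 := hV.summ 0
    simp only [pow_zero, one_mul] at h1
    have h2 : Summable fun k : K => ‖bV V (ph2 N κ k)‖ := h1.comp_injective (ph2_inj N κ)
    exact h2.of_norm
  have h1 : pr κ (∑' k, bV V (ph2 N κ k)) = ∑' k, pr κ (bV V (ph2 N κ k)) := by
    rw [← prL_apply, (prL κ).map_tsum hs]
    rfl
  rw [h1, ← ofReal_norm, norm_smul, Real.norm_of_nonneg (Nat.cast_nonneg N), ENNReal.ofReal_mul (Nat.cast_nonneg N), ofReal_norm]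
  exact mul_le_mul' le_rfl enorm_tsum_le_tsum_enorm

lemma pr_close {N : ℕ} {κ k : K} (hκ : κ ≠ 0) {v : C3} (hv : dt k v = 0) :
    ‖pr κ v‖ ≤ (1 + 3 * nk (κ - (N : ℤ) • k) / nk κ) * ‖v‖ := by
  have hn := nk_pos hκ
  have hl := nk_nonneg (κ - (N : ℤ) • k)
  rw [pi_norm_le_iff_of_nonneg (by positivity)]
  intro i
  unfold pr
  have a1 : ‖v i‖ ≤ ‖v‖ := norm_le_pi_norm v i
  have a3 : dt κ v = dt (κ - (N : ℤ) • k) v := by
    have e : κ = (κ - (N : ℤ) • k) + (N : ℤ) • k := by abel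
    have e2 : dt ((N : ℤ) • k) v = 0 := by
      have : dt ((N : ℤ) • k) v = (N : ℂ) * dt k v := by
        unfold dt
        rw [Finset.mul_sum]
        exact Finset.sum_congr rfl fun i _ => by simp; ring
      rw [this, hv, mul_zero]
    calc dt κ v = dt ((κ - (N : ℤ) • k) + (N : ℤ) • k) v := by rw [← e]
      _ = _ := by rw [dt_add_left, e2, add_zero]
  have a2 : ‖(κ i : ℂ) * dt κ v / ((H356R3.NS.sq κ : ℝ) : ℂ)‖ ≤ 3 * nk (κ - (N : ℤ) • k) / nk κ * ‖v‖ := by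
    have h1 := dt_le (κ - (N : ℤ) • k) v
    have h2 := abs_le_nk κ i
    have h3 : H356R3.NS.sq κ = nk κ ^ 2 := (H356R3.NS.nk_sq κ).symm
    rw [norm_div, norm_mul, Complex.norm_intCast, Complex.norm_real, h3, Real.norm_of_nonneg (by positivity), a3,
      div_le_iff₀ (by positivity)]
    calc |(κ i : ℝ)| * ‖dt (κ - (N : ℤ) • k) v‖ ≤ nk κ * (3 * nk (κ - (N : ℤ) • k) * ‖v‖) :=
          mul_le_mul h2 h1 (norm_nonneg _) hn.le
      _ = _ := by field_simp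
  calc ‖v i - (κ i : ℂ) * dt κ v / ((H356R3.NS.sq κ : ℝ) : ℂ)‖ ≤ ‖v i‖ + ‖(κ i : ℂ) * dt κ v / ((H356R3.NS.sq κ : ℝ) : ℂ)‖ := norm_sub_le _ _
    _ ≤ ‖v‖ + 3 * nk (κ - (N : ℤ) • k) / nk κ * ‖v‖ := add_le_add a1 a2
    _ = _ := by ring

/-- the weight of the frequencies of an oscillating field -/
lemma key_ineq3 (e : ℕ) {κ k : K} (hκ : κ ≠ 0) (hk : nk k ^ 2 = 17) {v : C3} (hv : dt k v = 0) :
    ENNReal.ofReal (2 ^ e : ℕ) * ‖pr κ v‖ₑ * wJ κ
      ≤ (ENNReal.ofReal (1 / 4) + ENNReal.ofReal (20 / (2 ^ e : ℕ)) * ENNReal.ofReal (16 * (1 + nk (κ - ((2 ^ e : ℕ) : ℤ) • k)) ^ 2)) * ‖v‖ₑ := by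
  set N : ℕ := 2 ^ e with hN
  have hNp : (0 : ℝ) < N := by rw [hN]; positivity
  set n1 := nk (κ - (N : ℤ) • k) with hn1
  have hn0 : 0 ≤ n1 := nk_nonneg _
  have hκp := nk_pos hκ
  have hk4 : 4.12 < nk k := by
    by_contra h
    push Not at h
    have := nk_nonneg k
    nlinarith
  have hk5 : nk k < 4.13 := by
    by_contra h
    push Not at h
    nlinarith
  have h1 : (N : ℝ) * nk k ≤ nk κ + n1 := by
    have := TS.nk_add κ (-(κ - (N : ℤ) • k))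
    rw [nk_neg] at this
    have e : κ + -(κ - (N : ℤ) • k) = (N : ℤ) • k := by abel
    rw [e, nk_nsmul] at this
    exact this
  have h2 : nk κ ≤ N * nk k + n1 := by
    have := TS.nk_add ((N : ℤ) • k) (κ - (N : ℤ) • k)
    have e : (N : ℤ) • k + (κ - (N : ℤ) • k) = κ := by abel
    rw [e, nk_nsmul] at this
    exact this
  rw [← ofReal_norm (pr κ v), ← ofReal_norm v, ← ENNReal.ofReal_mul (by positivity), ← ENNReal.ofReal_mul (by positivity),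
    ← ENNReal.ofReal_add (by norm_num) (by positivity), ← ENNReal.ofReal_mul (by positivity)]
  rcases le_or_gt n1 (0.12 * N) with hc | hc
  · have h3 : 4 * N < nk κ := by nlinarith
    have h4 : nk κ < 8 * N := by nlinarith
    have hsh : (4 : ℤ) ^ (e + 2) ≤ ∑ i, κ i ^ 2 ∧ ∑ i, κ i ^ 2 < (4 : ℤ) ^ (e + 2 + 1) := by
      have h5 : ((∑ i, κ i ^ 2 : ℤ) : ℝ) = nk κ ^ 2 := by
        rw [H356R3.NS.nk_sq]
        unfold H356R3.NS.sq
        push_cast; rfl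
      have h6 : (4 : ℝ) ^ e = N ^ 2 := by
        rw [hN]; push_cast
        rw [← pow_mul, mul_comm, pow_mul]; norm_num
      constructor
      · have : ((4 : ℤ) ^ (e + 2) : ℤ) ≤ ((∑ i, κ i ^ 2 : ℤ) : ℝ) := by
          rw [h5]; push_cast
          rw [pow_add, h6]
          nlinarith
        exact_mod_cast this
      · have : ((∑ i, κ i ^ 2 : ℤ) : ℝ) < ((4 : ℤ) ^ (e + 2 + 1) : ℤ) := by
          rw [h5]; push_cast
          rw [pow_add, pow_add, h6]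
          nlinarith
        exact_mod_cast this
    rw [wJ_eq hsh, ← ENNReal.ofReal_mul (by positivity)]
    apply ENNReal.ofReal_le_ofReal
    have h7 := pr_close (N := N) hκ hv
    rw [← hn1] at h7
    have h8 : (1 : ℝ) / 2 ^ (e + 2) = 1 / (4 * N) := by
      rw [hN]; push_cast; rw [pow_add]; norm_num; ring
    rw [h8]
    have h9 : (1 + 3 * n1 / nk κ) ≤ 1 + 3 * n1 / (4 * N) := by
      have : 3 * n1 / nk κ ≤ 3 * n1 / (4 * N) := div_le_div_of_nonneg_left (by positivity) (by positivity) h3.le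
      linarith
    calc (N : ℝ) * ‖pr κ v‖ * (1 / (4 * N)) = 1 / 4 * ‖pr κ v‖ := by field_simp
      _ ≤ 1 / 4 * ((1 + 3 * n1 / (4 * N)) * ‖v‖) := by
          refine mul_le_mul_of_nonneg_left (h7.trans (mul_le_mul_of_nonneg_right h9 (norm_nonneg _))) (by norm_num)
      _ = (1 / 4 + 3 / 16 * n1 / N) * ‖v‖ := by ring
      _ ≤ (1 / 4 + 20 / N * (16 * (1 + n1) ^ 2)) * ‖v‖ := by
          refine mul_le_mul_of_nonneg_right ?_ (norm_nonneg _)
          have : 3 / 16 * n1 / N ≤ 20 / N * (16 * (1 + n1) ^ 2) := by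
            have e1 : 20 / (N : ℝ) * (16 * (1 + n1) ^ 2) = 320 * (1 + n1) ^ 2 / N := by ring
            rw [e1]
            refine div_le_div_of_nonneg_right ?_ hNp.le
            nlinarith
          linarith
  · have h5 : wJ κ ≤ ENNReal.ofReal 1 := by rw [ENNReal.ofReal_one]; exact wJ_le κ
    refine (mul_le_mul' le_rfl h5).trans ?_
    rw [← ENNReal.ofReal_mul (by positivity)]
    apply ENNReal.ofReal_le_ofReal
    have h6 := leray_norm κ v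
    calc (N : ℝ) * ‖pr κ v‖ * 1 ≤ N * (4 * ‖v‖) := by
          rw [mul_one]; exact mul_le_mul_of_nonneg_left h6 hNp.le
      _ = (4 * N) * ‖v‖ := by ring
      _ ≤ (1 / 4 + 20 / N * (16 * (1 + n1) ^ 2)) * ‖v‖ := by
          refine mul_le_mul_of_nonneg_right ?_ (norm_nonneg _)
          have : 4 * (N : ℝ) ≤ 20 / N * (16 * (1 + n1) ^ 2) := by
            rw [div_mul_eq_mul_div, le_div_iff₀ hNp]
            nlinarith
          linarith

/-- the dyadic sums of an oscillating field -/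
lemma shells_dosc {V : R3 → R3 → R3} (hV : Profile V) (hsupp : ∀ P, bV V P ≠ 0 → nk P.2 ^ 2 = 17) (e : ℕ) :
    ∑' J, shellSum (dosc V (2 ^ e)) J / 2 ^ J
      ≤ ENNReal.ofReal (1 / 4) * (∑' P : K × K, ‖bV V P‖ₑ) + ENNReal.ofReal (20 / (2 ^ e : ℕ)) * CV V := by
  rw [shells_wJ]
  have hterm : ∀ κ : K, ‖dosc V (2 ^ e) κ‖ₑ * wJ κ
      ≤ ∑' k : K, (ENNReal.ofReal (1 / 4) * ‖bV V (ph2 (2 ^ e) κ k)‖ₑ
        + ENNReal.ofReal (20 / (2 ^ e : ℕ)) * (ENNReal.ofReal (16 * (1 + nk (ph2 (2 ^ e) κ k).1) ^ 2) * ‖bV V (ph2 (2 ^ e) κ k)‖ₑ)) := by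
    intro κ
    by_cases hκ0 : κ = 0
    · subst hκ0
      unfold dosc
      simp
    refine (mul_le_mul' (dosc_le' hV _ κ) le_rfl).trans ?_
    rw [← ENNReal.tsum_mul_right]
    refine ENNReal.tsum_le_tsum fun k => ?_
    rw [if_neg hκ0]
    by_cases hb : bV V (ph2 (2 ^ e) κ k) = 0
    · rw [hb]
      have : pr κ (0 : C3) = 0 := by rw [← prL_apply, map_zero]
      rw [this]; simp
    have h1 := key_ineq3 e hκ0 (hsupp _ hb) (hV.pg.div (ph2 (2 ^ e) κ k))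
    refine h1.trans (le_of_eq ?_)
    show (_ + ENNReal.ofReal (20 / (2 ^ e : ℕ)) * ENNReal.ofReal (16 * (1 + nk (ph2 (2 ^ e) κ k).1) ^ 2)) * _ = _
    ring
  refine (ENNReal.tsum_le_tsum hterm).trans (le_of_eq ?_)
  have h3 := dsum (2 ^ e) fun P => (ENNReal.ofReal (1 / 4) * ‖bV V P‖ₑ
        + ENNReal.ofReal (20 / (2 ^ e : ℕ)) * (ENNReal.ofReal (16 * (1 + nk P.1) ^ 2) * ‖bV V P‖ₑ))
  rw [h3, ENNReal.tsum_add, ENNReal.tsum_mul_left, ENNReal.tsum_mul_left]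
  rfl

lemma supp_sh (ν : ℝ) (γ : R3 → ℝ) {m : K} (hm : nk m ^ 2 = 17) (ξ : R3) (P : K × K)
    (h : bV (fun x => sh ν (γ x) m ξ 0) P ≠ 0) : nk P.2 ^ 2 = 17 := by
  by_contra hne
  apply h
  funext i
  rw [bV_sh]
  have h1 : ¬ m - P.2 = 0 := fun h1 => hne (by rw [← sub_eq_zero.1 h1]; exact hm)
  have h2 : ¬ -m - P.2 = 0 := fun h2 => hne (by rw [← sub_eq_zero.1 h2, nk_neg]; exact hm)
  rw [if_neg h1, if_neg h2]
  simp

/-- the main part of the cost of a shear profile -/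
lemma main_sh3 (ν : ℝ) (γ : R3 → ℝ) {m : K} (hm : nk m ^ 2 = 17) {ξ : R3} {X : ℝ} (hX : 0 ≤ X) (hξ : ∀ i, |ξ i| ≤ X) :
    ∑' P : K × K, ‖bV (fun x => sh ν (γ x) m ξ 0) P‖ₑ ≤ ENNReal.ofReal X * An1 γ := by
  have hm0 : m ≠ 0 := by
    rintro rfl
    rw [nk_zero] at hm; norm_num at hm
  have hn := nk_pos hm0
  have h1 := main_sh ν γ hm0 hX hξ
  have h2 : ∀ P : K × K, ‖bV (fun x => sh ν (γ x) m ξ 0) P‖ₑ
      = ENNReal.ofReal (nk m) * (ENNReal.ofReal (1 / nk P.2) * ‖bV (fun x => sh ν (γ x) m ξ 0) P‖ₑ) := by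
    intro P
    by_cases hb : bV (fun x => sh ν (γ x) m ξ 0) P = 0
    · rw [hb]; simp
    have h3 := supp_sh ν γ hm ξ P hb
    have h4 : nk P.2 = nk m := by
      have := nk_nonneg P.2
      nlinarith
    rw [h4, ← mul_assoc, ← ENNReal.ofReal_mul hn.le, mul_one_div, div_self hn.ne', ENNReal.ofReal_one, one_mul]
  rw [tsum_congr h2, ENNReal.tsum_mul_left]
  refine (mul_le_mul' le_rfl h1).trans (le_of_eq ?_)
  rw [← mul_assoc, ← ENNReal.ofReal_mul hn.le]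
  congr 2
  field_simp

end Pool.Agent.U162.MU
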