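import Pool.Agent.U162.MU.Cost3

/-!
The norm of `FB^{-1}_{1,2}` of superpositions of oscillating fields at separated scales
-/

open MeasureTheory Set Filter Topology
open scoped ENNReal NNReal ContDiff

namespace Pool.Agent.U162.MU

open Pool.Agent.H356R3.NS Pool.Agent.U162.TS Pool.Agent.U162.GE Pool.Agent.U162.TS.EL Pool.Agent.U162.TS.VF Pool.Agent.U162.PL

/-- the norm of `FB^{-1}_{1,2}` of a superposition -/
lemma crit2_super3 {P : Fin 3 × Fin 3 → R3 → R3 → R3} (hP : ∀ q, Profile (P q)) {r : ℝ} (hr : 0 ≤ r)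
    {n : ℕ} {e : Fin (n * (3 * 3)) → ℕ} (he : Function.Injective e) {G : ℕ} (hG : ∀ i j, i ≠ j → 2 * G ≤ (e i - e j) + (e j - e i))
    {b : Fin 3 × Fin 3 → ℝ} {B S : ℝ} (hb0 : ∀ q, 0 ≤ b q) (hB0 : 0 ≤ B) (hbB : ∀ q, b q ≤ B) (hbS : ∑ q, b q ≤ S)
    (hB : ∀ j, ∑' J, shellSum (dosc (P (qj n j)) (2 ^ e j)) J / 2 ^ J ≤ ENNReal.ofReal (b (qj n j)))
    {η : ℝ} (hη : 0 ≤ η) (hη' : ENNReal.ofReal (4 * (1 / 2) ^ G) * ∑ q, CV (P q) ≤ ENNReal.ofReal η) :
    critNorm 2 (fun κ => ∑ j, r • dosc (P (qj n j)) (2 ^ e j) κ) ^ 2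
      ≤ ENNReal.ofReal ((n * r ^ 2) * ((B + η) * S)) := by
  set C := ∑ q, CV (P q) with hC
  have hCq : ∀ q, CV (P q) ≤ C := fun q => Finset.single_le_sum (f := fun q => CV (P q)) (fun _ _ => bot_le) (Finset.mem_univ q)
  set s : Fin (n * (3 * 3)) → ℕ → ℝ≥0∞ := fun j J => shellSum (dosc (P (qj n j)) (2 ^ e j)) J / 2 ^ J with hs
  have hs1 : ∀ j, ∑' J, s j J ≤ ENNReal.ofReal B := fun j => (hB j).trans (ENNReal.ofReal_le_ofReal (hbB _))
  have hS0 : 0 ≤ S := (Finset.sum_nonneg fun q _ => hb0 q).trans hbS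
  have hs2 : ∀ j J, s j J ≤ ENNReal.ofReal B := fun j J => (ENNReal.le_tsum J).trans (hs1 j)
  have hs3 : ∀ j J, s j J ≤ ENNReal.ofReal (wt (e j) J) * C := fun j J =>
    (shell_dosc (hP (qj n j)) (e j) J).trans (mul_le_mul' le_rfl (hCq _))
  have hS : ∀ J, shellSum (fun κ => ∑ j, r • dosc (P (qj n j)) (2 ^ e j) κ) J / 2 ^ J ≤ ENNReal.ofReal r * ∑ j, s j J := by
    intro J
    have h1 := shell_sum Finset.univ (fun j κ => r • dosc (P (qj n j)) (2 ^ e j) κ) J
    refine (ENNReal.div_le_div_right h1 _).trans ?_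
    rw [div_eq_mul_inv, Finset.sum_mul, Finset.mul_sum]
    refine Finset.sum_le_sum fun j _ => ?_
    rw [shell_smul hr, mul_assoc, ← div_eq_mul_inv]
  -- the supremum
  have hsup : ∀ J, ∑ j, s j J ≤ ENNReal.ofReal (B + η) := by
    intro J
    have h1 : ∑ j, s j J ≤ (∑ j, if (e j - J) + (J - e j) < G then s j J else 0)
        + ∑ j, (if G ≤ (e j - J) + (J - e j) then ENNReal.ofReal (wt (e j) J) else 0) * C := by
      rw [← Finset.sum_add_distrib]
      refine Finset.sum_le_sum fun j _ => ?_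
      rcases lt_or_ge ((e j - J) + (J - e j)) G with h | h
      · rw [if_pos h, if_neg (not_le.2 h)]; simp
      · rw [if_neg (not_lt.2 h), if_pos h, zero_add]; exact hs3 j J
    have h2 : (∑ j, if (e j - J) + (J - e j) < G then s j J else 0) ≤ ENNReal.ofReal B := by
      by_cases hex : ∃ j, (e j - J) + (J - e j) < G
      · obtain ⟨j, hj⟩ := hex
        rw [Finset.sum_eq_single j (fun i _ hij => if_neg fun h => by
          have := hG i j hij
          omega) (fun h => absurd (Finset.mem_univ j) h), if_pos hj]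
        exact hs2 j J
      · push Not at hex
        rw [Finset.sum_eq_zero fun j _ => if_neg (not_lt.2 (hex j))]
        exact bot_le
    have h3 : ∑ j, (if G ≤ (e j - J) + (J - e j) then ENNReal.ofReal (wt (e j) J) else 0) * C ≤ ENNReal.ofReal η := by
      rw [← Finset.sum_mul]
      refine le_trans (mul_le_mul' ?_ le_rfl) hη'
      refine le_trans ?_ (wt_tail G J)
      rw [← tsum_fintype (L := SummationFilter.unconditional _)]
      exact ENNReal.tsum_comp_le_tsum_of_injective he fun e => if G ≤ (e - J) + (J - e) then ENNReal.ofReal (wt e J) else 0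
    rw [ENNReal.ofReal_add hB0 hη]
    exact h1.trans (add_le_add h2 h3)
  have hsum : ∑' J, ∑ j, s j J ≤ ENNReal.ofReal (n * S) := by
    rw [Summable.tsum_finsetSum fun _ _ => ENNReal.summable]
    refine (Finset.sum_le_sum fun j _ => hB j).trans ?_
    rw [sum_qj n fun q => ENNReal.ofReal (b q), nsmul_eq_mul, ENNReal.ofReal_mul (by positivity), ENNReal.ofReal_natCast,
      ← ENNReal.ofReal_sum_of_nonneg fun q _ => hb0 q]
    exact mul_le_mul' le_rfl (ENNReal.ofReal_le_ofReal hbS)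
  have hsq : critNorm 2 (fun κ => ∑ j, r • dosc (P (qj n j)) (2 ^ e j) κ) ^ 2
      = ∑' J, (shellSum (fun κ => ∑ j, r • dosc (P (qj n j)) (2 ^ e j) κ) J / 2 ^ J) ^ 2 := by
    unfold critNorm
    rw [← ENNReal.rpow_natCast, ← ENNReal.rpow_mul]
    norm_num
  rw [hsq]
  calc ∑' J, (shellSum (fun κ => ∑ j, r • dosc (P (qj n j)) (2 ^ e j) κ) J / 2 ^ J) ^ 2
      ≤ ∑' J, (ENNReal.ofReal r * ENNReal.ofReal r * ENNReal.ofReal (B + η)) * ∑ j, s j J := by
        refine ENNReal.tsum_le_tsum fun J => ?_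
        calc (shellSum (fun κ => ∑ j, r • dosc (P (qj n j)) (2 ^ e j) κ) J / 2 ^ J) ^ 2
            ≤ (ENNReal.ofReal r * ∑ j, s j J) ^ 2 := by
              gcongr
              exact hS J
          _ = (ENNReal.ofReal r * ENNReal.ofReal r * (∑ j, s j J)) * ∑ j, s j J := by ring
          _ ≤ _ := by
              gcongr
              exact hsup J
    _ ≤ (ENNReal.ofReal r * ENNReal.ofReal r * ENNReal.ofReal (B + η)) * ENNReal.ofReal (n * S) := by
        rw [ENNReal.tsum_mul_left]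
        exact mul_le_mul' le_rfl hsum
    _ ≤ _ := by
        rw [← ENNReal.ofReal_mul hr, ← ENNReal.ofReal_mul (by positivity), ← ENNReal.ofReal_mul (by positivity)]
        apply ENNReal.ofReal_le_ofReal
        exact le_of_eq (by ring)

end Pool.Agent.U162.MU
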