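import Pool.Agent.U162.GE.Defs

/-!
# Smooth data with several scales
-/

open Set MeasureTheory Filter
open scoped ENNReal

namespace Pool.Agent.U162.MU

open Pool.Agent.H356R3.NS Pool.Agent.U162.TS Pool.Agent.U162.GE

/-- `P(N_1, …, N_J)` holds for all large `N_1`, for all large `N_2` (with a threshold which depends on `N_1`),
…, for all large `N_J` (with a threshold which depends on `N_1, …, N_{J-1}`). -/
def Ev : (J : ℕ) → ((Fin J → ℕ) → Prop) → Prop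
  | 0, P => P Fin.elim0
  | J + 1, P => ∀ᶠ n in atTop, Ev J fun N => P (Fin.cons n N)

/-- The Fourier coefficients of the data `a(x) + ∑_j N_j P[V_j(x, N_j x)]`, where `P` is the Leray
projection. -/
noncomputable def mixs {J : ℕ} (a : R3 → R3) (V : Fin J → R3 → R3 → R3) (N : Fin J → ℕ) (k : Fq) (i : Fin 3) : ℂ :=
  fc a k i + ∑ j, N j * leray k (fc (fun x => V j x ((N j : ℝ) • x)) k) i

/-- `u(x,t)` is, over all times, close to `v(x,t) + ∑_j N_j W_j(x, N_j² t, N_j x)`: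
`∫_0^∞ sup_x |u(x,t) - v(x,t) - ∑_j N_j W_j(x, N_j² t, N_j x)|² dt ≤ ε`. -/
def CloseMulti {J : ℕ} (ε : ℝ) (N : Fin J → ℕ) (u v : ℝ → R3 → R3) (W : Fin J → R3 → ℝ → R3 → R3) : Prop :=
  ∫⁻ t in Ioi (0 : ℝ), (⨆ x, ‖u t x - v t x - ∑ j, (N j : ℝ) • W j x ((N j : ℝ) ^ 2 * t) ((N j : ℝ) • x)‖ₑ) ^ 2
    ≤ ENNReal.ofReal ε

end Pool.Agent.U162.MU
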