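import Pool.Agent.U162.MU.Nash3

/-!
The effect of shear profiles, with bounds
-/

open MeasureTheory Set Filter Topology
open scoped ENNReal NNReal ContDiff

namespace Pool.Agent.U162.MU

open Pool.Agent.H356R3.NS Pool.Agent.U162.TS Pool.Agent.U162.GE Pool.Agent.U162.TS.EL Pool.Agent.U162.TS.VF Pool.Agent.U162.PL

/-- the effect of a family of shear profiles, with bounds -/
theorem shear_effect3 {ν : ℝ} (hν : 0 < ν) {h : K → C3} (hh : Dta h) {μ : ℝ} (hμ : 0 < μ)
    (hL : leiLin h ≤ ENNReal.ofReal μ) :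
    ∃ γ : Fin 3 × Fin 3 → R3 → ℝ, (∀ q, H459R3.NS.SP (γ q)) ∧
      (∀ q, An1 (γ q) ≤ ENNReal.ofReal (Real.sqrt (816 * Real.pi * (ν * μ)))) ∧
      ∀ (r : ℝ) l i, ∑ q, push (fun x => sh ν (r * γ q x) (m3 q) (dr3 q)) l i = (r ^ 2 : ℝ) * h l i := by
  obtain ⟨f, hf, hfA, hrep⟩ := nash3 hh
  have hpi := Real.pi_pos
  set c := 4 * μ / (3 * Real.pi) with hc
  have hcp : 0 < c := by positivity
  -- the normalized functions
  have hF : ∀ q, H459R3.NS.SP fun x => 1 / c * f q x := fun q => sp_const_mul (hf q) _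
  have hFA : ∀ q, An1 (fun x => 1 / c * f q x) ≤ ENNReal.ofReal (3 / 4) := by
    intro q
    rw [An1_const_mul, abs_of_pos (by positivity)]
    calc ENNReal.ofReal (1 / c) * An1 (f q) ≤ ENNReal.ofReal (1 / c) * (ENNReal.ofReal (1 / Real.pi) * ENNReal.ofReal μ) :=
          mul_le_mul' le_rfl ((hfA q).trans (mul_le_mul' le_rfl hL))
      _ = ENNReal.ofReal (3 / 4) := by
          rw [← ENNReal.ofReal_mul (by positivity), ← ENNReal.ofReal_mul (by positivity)]
          congr 1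
          rw [hc]
          field_simp
  have hpos : ∀ q x, 0 < 1 + 1 / c * f q x := by
    intro q x
    have := abs_le.1 (An1_bd (hF q) (by norm_num) (hFA q) x)
    linarith [this.1]
  have hsm : ∀ q, H459R3.NS.SP fun x => Real.sqrt (1 + 1 / c * f q x) := by
    intro q
    refine ⟨?_, fun j x => ?_⟩
    · exact (contDiff_const.add (hF q).smooth).sqrt fun x => (hpos q x).ne'
    · show Real.sqrt (1 + 1 / c * f q (x + Pi.single j 1)) = _
      rw [(hf q).per j x]
  set A : ℝ := Real.sqrt (16 * Real.pi ^ 2 * ν * 17 * c) with hA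
  have hA0 : 0 ≤ A := Real.sqrt_nonneg _
  have hA2 : A ^ 2 = 16 * Real.pi ^ 2 * ν * 17 * c := Real.sq_sqrt (by positivity)
  have hsq : ∀ q, H356R3.NS.sq (m3 q) = 17 := fun q => by rw [← H356R3.NS.nk_sq, nk_m3]
  refine ⟨fun q x => A * Real.sqrt (1 + 1 / c * f q x), fun q => sp_const_mul (hsm q) _, fun q => ?_, fun r l i => ?_⟩
  · rw [An1_const_mul, abs_of_nonneg hA0]
    refine (mul_le_mul' le_rfl (sqrt_wiener (hF q) (hFA q))).trans (le_of_eq ?_)
    rw [← ENNReal.ofReal_mul hA0]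
    congr 1
    symm
    rw [Real.sqrt_eq_iff_mul_self_eq (by positivity) (by positivity)]
    have e1 : A * (3 / 2) * (A * (3 / 2)) = A ^ 2 * (9 / 4) := by ring
    rw [e1, hA2, hc]
    field_simp
    ring
  -- the stresses
  have hst : ∀ q j p, stress (fun x => sh ν (r * (A * Real.sqrt (1 + 1 / c * f q x))) (m3 q) (dr3 q)) j p
      = fun x => (r ^ 2 * ((dir3 q j : ℝ) * (dir3 q p : ℝ))) * (c + f q x) := by
    intro q j p
    funext x
    rw [sh_stress hν (fun x => r * (A * Real.sqrt (1 + 1 / c * f q x))) (m3_ne q)]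
    rw [mul_pow, mul_pow, Real.sq_sqrt (hpos q x).le, hA2, hsq]
    unfold dr3
    field_simp
  by_cases hl : l = 0
  · subst hl
    rw [hh.mean]
    have : ∀ q, push (fun x => sh ν (r * (A * Real.sqrt (1 + 1 / c * f q x))) (m3 q) (dr3 q)) 0 i = 0 :=
      fun q => push_zero _ i
    simp only [this]
    simp
  have hfr : ∀ q j p, H459R3.NS.fr (stress (fun x => sh ν (r * (A * Real.sqrt (1 + 1 / c * f q x))) (m3 q) (dr3 q)) j p) l
      = (r ^ 2 * ((dir3 q j : ℝ) * (dir3 q p : ℝ)) : ℝ) * H459R3.NS.fr (f q) l := by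
    intro q j p
    rw [hst, fr_const_mul, fr_add' (sp_const _) (hf q), fr_const hl, zero_add]
  have hpush : ∀ q, push (fun x => sh ν (r * (A * Real.sqrt (1 + 1 / c * f q x))) (m3 q) (dr3 q)) l
      = (r ^ 2 : ℂ) • (-(2 * Real.pi * Complex.I)) • pr l (fun p => ∑ j, (l j : ℂ) * (H459R3.NS.fr (f q) l * ((dir3 q j : ℂ) * (dir3 q p : ℂ)))) := by
    intro q
    funext i
    rw [push_fr, leray_eq]
    have e : (fun p => ∑ j, (l j : ℂ) * H459R3.NS.fr (stress (fun x => sh ν (r * (A * Real.sqrt (1 + 1 / c * f q x))) (m3 q) (dr3 q)) j p) l)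
        = (r ^ 2 : ℂ) • (fun p => ∑ j, (l j : ℂ) * (H459R3.NS.fr (f q) l * ((dir3 q j : ℂ) * (dir3 q p : ℂ))) : C3) := by
      funext p
      rw [Pi.smul_apply, smul_eq_mul, Finset.mul_sum]
      refine Finset.sum_congr rfl fun j _ => ?_
      rw [hfr]
      push_cast
      ring
    rw [e, pr_csmul]
    simp only [Pi.smul_apply, smul_eq_mul]
    ring
  have hsum : ∑ q, push (fun x => sh ν (r * (A * Real.sqrt (1 + 1 / c * f q x))) (m3 q) (dr3 q)) l
      = (r ^ 2 : ℂ) • h l := by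
    simp only [hpush]
    rw [← Finset.smul_sum, ← Finset.smul_sum, ← pr_sum]
    have e : ∑ q, (fun p => ∑ j, (l j : ℂ) * (H459R3.NS.fr (f q) l * ((dir3 q j : ℂ) * (dir3 q p : ℂ))) : C3)
        = fun p => ∑ j, (l j : ℂ) * ∑ q, H459R3.NS.fr (f q) l * ((dir3 q j : ℂ) * (dir3 q p : ℂ)) := by
      funext p
      rw [Finset.sum_apply, Finset.sum_comm]
      refine Finset.sum_congr rfl fun j _ => ?_
      rw [Finset.mul_sum]
    rw [e, ← pr_csmul]
    have e2 : (-(2 * Real.pi * Complex.I) : ℂ) • (fun p => ∑ j, (l j : ℂ) * ∑ q, H459R3.NS.fr (f q) l * ((dir3 q j : ℂ) * (dir3 q p : ℂ)) : C3) = h l := by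
      funext p
      exact hrep l p
    rw [e2, leray_of_dt (hh.div l)]
  have := congrFun hsum i
  rw [Finset.sum_apply] at this
  rw [this]
  simp

end Pool.Agent.U162.MU
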