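import Pool.Agent.U162.MU.LateP

/-!
The theorem for several scales: final form
-/

open MeasureTheory Set Filter Topology
open scoped ENNReal NNReal ContDiff

namespace Pool.Agent.U162.MU

open Pool.Agent.H356R3.NS Pool.Agent.U162.TS Pool.Agent.U162.GE Pool.Agent.U162.TS.EL Pool.Agent.U162.TS.VF Pool.Agent.U162.TS.Ph Pool.Agent.U162.PL

variable {ν : ℝ}

/-- sums of data -/
lemma dta_sum {ι : Type*} [DecidableEq ι] (s : Finset ι) {f : ι → K → C3} (h : ∀ j, Dta (f j)) :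
    Dta fun l i => ∑ j ∈ s, f j l i := by
  induction s using Finset.induction_on with
  | empty =>
    simp only [Finset.sum_empty]
    exact ⟨by simp, rfl, fun k i => by simp, fun k => by rw [dt_eq]; simp, fun j => ⟨0, fun k => by simp⟩⟩
  | insert j s hj hs =>
    have := dta_add (h j) hs
    have e : (fun k => f j k + fun i => ∑ j ∈ s, f j k i) = fun l i => ∑ j ∈ insert j s, f j l i := by
      funext l i
      rw [Finset.sum_insert hj]; rfl
    rw [← e]; exact this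

/-- planar profiles have planar effects -/
lemma push_planar (hν : 0 < ν) {V : R3 → R3 → R3} {W : R3 → ℝ → R3 → R3} {Q : R3 → ℝ → R3 → ℝ} (hV : Profile V)
    (hW : ∀ x, AdmissiblePeriodic ν (V x) (W x) (Q x)) {n : K} (hn : Inv n V) {l : K} (hl : dz n l ≠ 0) :
    push W l = 0 := by
  have hc : 0 < 4 * Real.pi ^ 2 * ν := by positivity
  have hG' : ∀ x, Ph.Glob ν (W x) (Q x) := fun x => glob_of_adm (hW x) (hV.field x).mean
  obtain ⟨z, hz1, hz2, _⟩ := family' hc hν rfl hV hW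
  have hsp := (UV_fu hc hV).spv hz2
  exact push_plane' hc hV hG' hsp hz1 hz2 hn hl

/-- the size of an admissible solution is finite -/
lemma size_fin (hν : 0 < ν) {g : R3 → R3} {v : ℝ → R3 → R3} {p : ℝ → R3 → ℝ} (hg : Field g)
    (hv : AdmissiblePeriodic ν g v p) : size v ≠ ⊤ :=
  ((glob_of_adm hv hg.mean).flowC hν).l2

lemma closeAfter_mono {η ε : ℝ} (h : η ≤ ε) {u v : ℝ → R3 → R3} (hc : CloseAfter η u v) : CloseAfter ε u v :=
  (lintegral_mono_set (Ioi_subset_Ioi h)).trans (hc.trans (ENNReal.ofReal_le_ofReal h))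

/-- the theorem for several scales, for given fast flows and a given slow flow -/
theorem multi_given (hν : 0 < ν) {J : ℕ} {V : Fin J → R3 → R3 → R3} {W : Fin J → R3 → ℝ → R3 → R3}
    {Q : Fin J → R3 → ℝ → R3 → ℝ} (hV : ∀ j, Profile (V j))
    (hW : ∀ j x, AdmissiblePeriodic ν (V j x) (W j x) (Q j x)) {g : R3 → R3} {v : ℝ → R3 → R3} {p : ℝ → R3 → ℝ}
    (hg : Field g) (hvp : AdmissiblePeriodic ν g v p) {ε : ℝ} (hε : 0 < ε) :
    ∃ δ : ℝ, 0 < δ ∧ ∀ {a : R3 → R3}, Field a →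
      (∀ l i, H356R3.NS.fc g l i = H356R3.NS.fc a l i + ∑ j, push (W j) l i) → Ev J fun N =>
      ∀ u₀ : R3 → R3, Field u₀ →
        heatSq ν (fun k i => H356R3.NS.fc u₀ k i - mixs a V N k i) ≤ ENNReal.ofReal δ →
        ∃ u q, AdmissiblePeriodic ν u₀ u q ∧ (∀ t, ε ≤ t → ∀ x i, |u t x i - v t x i| ≤ ε) ∧
          CloseAfter ε u v ∧ CloseMulti ε N u v W := by
  have hsz := size_fin hν hg hvp
  obtain ⟨η, hη, hηε, hlate⟩ := late_phys hν hg hvp hε
  obtain ⟨ρ, hρ, h⟩ := multi hν J hV hW (size v).toReal ENNReal.toReal_nonneg η hη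
  refine ⟨ρ ^ 2, by positivity, fun {a} ha hga => ?_⟩
  refine (h hg hvp (by rw [ENNReal.ofReal_toReal hsz]) ha hga).imp fun N hN u₀ hu₀ hcl => ?_
  obtain ⟨u, q, h1, h2, h3, h4⟩ := hN u₀ hu₀ hcl
  exact ⟨u, q, h1, hlate hu₀ h1 h2, closeAfter_mono hηε h3, h4.trans (ENNReal.ofReal_le_ofReal hηε)⟩

/-- the theorem for several scales -/
theorem multi_final (hν : 0 < ν) {J : ℕ} {V : Fin J → R3 → R3 → R3} (hV : ∀ j, Profile (V j))
    (hF : ∀ j x, (∃ w q, AdmissiblePeriodic ν (V j x) w q) ∨ ∃ n : Fq, n ≠ 0 ∧ Inv n (V j x)) :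
    ∃ (W : Fin J → R3 → ℝ → R3 → R3) (Q : Fin J → R3 → ℝ → R3 → ℝ),
      (∀ j x, AdmissiblePeriodic ν (V j x) (W j x) (Q j x)) ∧ ∀ {a : R3 → R3}, Field a → ∃ g : R3 → R3, Field g ∧
      (∀ l i, H356R3.NS.fc g l i = H356R3.NS.fc a l i + ∑ j, push (W j) l i) ∧
      (((∃ v p, AdmissiblePeriodic ν g v p) ∨ ∃ n : Fq, n ≠ 0 ∧ Inv n a ∧ ∀ j, Inv n (V j)) →
        ∃ v p, AdmissiblePeriodic ν g v p ∧ ∀ ε : ℝ, 0 < ε → ∃ δ : ℝ, 0 < δ ∧ Ev J fun N =>
          ∀ u₀ : R3 → R3, Field u₀ →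
          heatSq ν (fun k i => H356R3.NS.fc u₀ k i - mixs a V N k i) ≤ ENNReal.ofReal δ →
          ∃ u q, AdmissiblePeriodic ν u₀ u q ∧ (∀ t, ε ≤ t → ∀ x i, |u t x i - v t x i| ≤ ε) ∧
            CloseAfter ε u v ∧ CloseMulti ε N u v W) := by
  have hF' : ∀ j x, ∃ w q, AdmissiblePeriodic ν (V j x) w q := by
    intro j x
    rcases hF j x with h | ⟨n, hn, hp⟩
    · exact h
    · exact planar_adm hν ((hV j).field x) hn hp
  choose W Q hW using hF'
  refine ⟨W, Q, hW, fun {a} ha => ?_⟩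
  have hD : Dta fun l i => H356R3.NS.fc a l i + ∑ j, push (W j) l i :=
    dta_add ha.dta (dta_sum Finset.univ fun j => push_dta hν (hV j) (hW j))
  refine ⟨fld fun l i => H356R3.NS.fc a l i + ∑ j, push (W j) l i, fld_field hD, fun l i => fld_fc hD l i, fun hS => ?_⟩
  have hv : ∃ v p, AdmissiblePeriodic ν (fld fun l i => H356R3.NS.fc a l i + ∑ j, push (W j) l i) v p := by
    rcases hS with h | ⟨n, hn, hpa, hpb⟩
    · exact h
    · refine adm_planar hν hn hD fun k hk => ?_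
      have h1 : H356R3.NS.fc a k = 0 := hpa.fr ha hk
      have h2 : ∀ j, push (W j) k = 0 := fun j => push_planar hν (hV j) (hW j) (hpb j) hk
      funext i
      simp [h1, h2]
  obtain ⟨v, p, hvp⟩ := hv
  refine ⟨v, p, hvp, fun ε hε => ?_⟩
  obtain ⟨δ, hδ, h⟩ := multi_given hν hV hW (fld_field hD) hvp hε
  exact ⟨δ, hδ, h ha fun l i => fld_fc hD l i⟩

end Pool.Agent.U162.MU
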