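import Pool.Agent.U162.MU.Ph

/-!
Solutions which are close in `L²((δ,∞); ℓ¹)` are close in `ℓ¹` at all times `t ≥ 2 δ`
-/

open MeasureTheory Set Filter Topology
open scoped ENNReal NNReal

namespace Pool.Agent.U162.MU

open Pool.Agent.H356R3.NS Pool.Agent.U162.TS Pool.Agent.U162.GE Pool.Agent.U162.TS.EL Pool.Agent.U162.PL

/-- continuous, dominated solutions of the equations -/
structure Gd (c : ℝ) (X : Fam) : Prop where
  cf : CF X
  dom : Dom X
  ode : ∀ k t, 0 < t → HasDerivAt (X k) (-(c * H356R3.NS.sq k) • X k t + Bt X k t) t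

lemma conv_fg (f g : K → ℝ≥0∞) : ∑' k, ∑' l, f l * g (k - l) = (∑' k, f k) * ∑' k, g k := by
  rw [ENNReal.tsum_comm]
  simp_rw [ENNReal.tsum_mul_left]
  have : ∀ l, ∑' k, g (k - l) = ∑' k, g k := fun l => (Equiv.subRight l).tsum_eq g
  simp_rw [this, ENNReal.tsum_mul_right]

lemma An_add_le {x y : Fam} (hx : Dom x) (hy : Dom y) (t : ℝ) : An (x + y) t ≤ An x t + An y t := by
  unfold An
  rw [← (show Summable fun k => ‖x k t‖ from hx.sn t).tsum_add (show Summable fun k => ‖y k t‖ from hy.sn t)]
  refine Summable.tsum_le_tsum (fun k => norm_add_le _ _) ?_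
    ((show Summable fun k => ‖x k t‖ from hx.sn t).add (show Summable fun k => ‖y k t‖ from hy.sn t))
  exact (show Summable fun k => ‖(x + y) k t‖ from (hx.add hy).sn t)

lemma dom_sub {x y : Fam} (hx : Dom x) (hy : Dom y) : Dom (x - y) := by
  obtain ⟨b, hb, h⟩ := hx
  obtain ⟨b', hb', h'⟩ := hy
  exact ⟨fun k => b k + b' k, hb.add hb', fun k t => (norm_sub_le _ _).trans (add_le_add (h k t) (h' k t))⟩

/-- the difference of two solutions -/
lemma diff_le {c : ℝ} (hc : 0 < c) {u X : Fam} (hu : Gd c u) (hX : Gd c X) {t0 t : ℝ} (h0 : 0 ≤ t0) (ht : t0 ≤ t)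
    {M : ℝ} (hM : ∀ s ∈ Ioo t0 t, An u s + An X s ≤ M) :
    ENNReal.ofReal (An (u - X) t) ≤ ENNReal.ofReal (An (u - X) t0) + ENNReal.ofReal (C0 * M) *
      ∫⁻ s in Ioo t0 t, ENNReal.ofReal (kap c (t - s)) * ENNReal.ofReal (An (u - X) s) := by
  have hD : Dom (u - X) := dom_sub hu.dom hX.dom
  have hBu := Bt_cont hu.cf hu.dom
  have hBX := Bt_cont hX.cf hX.dom
  have hC := C0_pos
  rw [← An_eq hD t]
  have h1 : ∀ k, ‖(u - X) k t‖ₑ ≤ ‖(u - X) k t0‖ₑ + ∫⁻ s in Ioc t0 t,
      ENNReal.ofReal (Real.exp (-(c * H356R3.NS.sq k * (t - s)))) * ‖Bt u k s - Bt X k s‖ₑ := by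
    intro k
    have hm := mild_of_ode (lam := c * H356R3.NS.sq k) (x := fun s => (u - X) k (t0 + s))
      (g := fun s => Bt u k (t0 + s) - Bt X k (t0 + s))
      (((hu.cf k).sub (hX.cf k)).comp (continuous_const.add continuous_id))
      (((hBu k).sub (hBX k)).comp (continuous_const.add continuous_id)) (fun s hs => by
        have h2 : HasDerivAt (fun s : ℝ => t0 + s) 1 s := by simpa using (hasDerivAt_id' s).const_add t0
        have h3 := (hu.ode k (t0 + s) (by linarith)).sub (hX.ode k (t0 + s) (by linarith))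
        have h4 := HasDerivAt.scomp s h3 h2
        refine h4.congr_deriv ?_
        show (1 : ℝ) • (-(c * H356R3.NS.sq k) • u k (t0 + s) + Bt u k (t0 + s) - (-(c * H356R3.NS.sq k) • X k (t0 + s) + Bt X k (t0 + s)))
          = -(c * H356R3.NS.sq k) • (u k (t0 + s) - X k (t0 + s)) + (Bt u k (t0 + s) - Bt X k (t0 + s))
        rw [one_smul, smul_sub]
        abel) (t := t - t0) (by linarith)
    simp only [add_sub_cancel, add_zero] at hm
    rw [hm]
    refine (enorm_add_le _ _).trans (add_le_add ?_ ?_)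
    · rw [enorm_smul]
      calc _ ≤ 1 * ‖(u - X) k t0‖ₑ := by
            apply mul_le_mul' _ le_rfl
            rw [← ofReal_norm, Real.norm_of_nonneg (Real.exp_pos _).le, ENNReal.ofReal_le_one,
              Real.exp_le_one_iff]
            have : 0 ≤ c * H356R3.NS.sq k * (t - t0) := mul_nonneg (mul_nonneg hc.le (sq_nonneg' k)) (by linarith)
            linarith
        _ = _ := one_mul _
    · have e2 : Real.exp (-(c * H356R3.NS.sq k * (t - t0))) • ∫ s in (0 : ℝ)..(t - t0), Real.exp (c * H356R3.NS.sq k * s) • (Bt u k (t0 + s) - Bt X k (t0 + s))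
          = ∫ s in t0..t, Real.exp (-(c * H356R3.NS.sq k * (t - s))) • (Bt u k s - Bt X k s) := by
        rw [← intervalIntegral.integral_smul]
        have e3 : ∫ s in t0..t, Real.exp (-(c * H356R3.NS.sq k * (t - s))) • (Bt u k s - Bt X k s)
            = ∫ s in (0 : ℝ)..(t - t0), Real.exp (-(c * H356R3.NS.sq k * (t - (t0 + s)))) • (Bt u k (t0 + s) - Bt X k (t0 + s)) := by
          have := intervalIntegral.integral_comp_add_left (a := 0) (b := t - t0)
            (fun s => Real.exp (-(c * H356R3.NS.sq k * (t - s))) • (Bt u k s - Bt X k s)) t0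
          rw [this]
          simp
        rw [e3]
        refine intervalIntegral.integral_congr fun s _ => ?_
        simp only [smul_smul, ← Real.exp_add]
        congr 2
        ring
      rw [e2, intervalIntegral.integral_of_le ht]
      refine (enorm_integral_le_lintegral_enorm _).trans (le_of_eq ?_)
      refine lintegral_congr fun s => ?_
      rw [enorm_smul, ← ofReal_norm (Real.exp _), Real.norm_of_nonneg (Real.exp_pos _).le]
  have hm : ∀ k, Measurable fun s => ENNReal.ofReal (Real.exp (-(c * H356R3.NS.sq k * (t - s)))) * ‖Bt u k s - Bt X k s‖ₑ := by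
    intro k
    exact (by fun_prop : Measurable fun s => ENNReal.ofReal (Real.exp (-(c * H356R3.NS.sq k * (t - s))))).mul
      ((hBu k).sub (hBX k)).enorm.measurable
  calc ∑' k, ‖(u - X) k t‖ₑ ≤ ∑' k, (‖(u - X) k t0‖ₑ + ∫⁻ s in Ioc t0 t,
        ENNReal.ofReal (Real.exp (-(c * H356R3.NS.sq k * (t - s)))) * ‖Bt u k s - Bt X k s‖ₑ) := ENNReal.tsum_le_tsum h1
    _ = ENNReal.ofReal (An (u - X) t0) + ∫⁻ s in Ioc t0 t,
        ∑' k, ENNReal.ofReal (Real.exp (-(c * H356R3.NS.sq k * (t - s)))) * ‖Bt u k s - Bt X k s‖ₑ := by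
        rw [ENNReal.tsum_add, An_eq hD, lintegral_tsum fun k => (hm k).aemeasurable]
    _ ≤ ENNReal.ofReal (An (u - X) t0) + ∫⁻ s in Ioo t0 t, ENNReal.ofReal (C0 * M) *
          (ENNReal.ofReal (kap c (t - s)) * ENNReal.ofReal (An (u - X) s)) := by
        apply add_le_add le_rfl
        rw [setLIntegral_congr Ioo_ae_eq_Ioc.symm]
        refine setLIntegral_mono' measurableSet_Ioo fun s hs => ?_
        have hts : 0 < t - s := by linarith [hs.2]
        have hkn := kap_nonneg hc hts.le
        have h2 : ∀ k, ENNReal.ofReal (Real.exp (-(c * H356R3.NS.sq k * (t - s)))) * ‖Bt u k s - Bt X k s‖ₑ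
            ≤ ENNReal.ofReal (C0 * kap c (t - s)) * ((∑' l, ‖(u - X) l s‖ₑ * ‖u (k - l) s‖ₑ)
              + ∑' l, ‖X l s‖ₑ * ‖(u - X) (k - l) s‖ₑ) := by
          intro k
          have e0 : Bt u k s - Bt X k s = Bf (at' (u - X) s) (at' u s) k + Bf (at' X s) (at' (u - X) s) k := by
            have := congrFun (Bf_diff (hu.dom.sn s) (hX.dom.sn s)) k
            exact this
          have h3 := enorm_Bf_le (at' (u - X) s) (at' u s) k
          have h4 := enorm_Bf_le (at' X s) (at' (u - X) s) k
          rw [e0]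
          calc _ ≤ ENNReal.ofReal (Real.exp (-(c * H356R3.NS.sq k * (t - s)))) *
                (ENNReal.ofReal (C0 * nk k) * (∑' l, ‖(u - X) l s‖ₑ * ‖u (k - l) s‖ₑ)
                  + ENNReal.ofReal (C0 * nk k) * ∑' l, ‖X l s‖ₑ * ‖(u - X) (k - l) s‖ₑ) :=
                mul_le_mul' le_rfl ((enorm_add_le _ _).trans (add_le_add h3 h4))
            _ = ENNReal.ofReal (Real.exp (-(c * H356R3.NS.sq k * (t - s))) * (C0 * nk k)) *
                ((∑' l, ‖(u - X) l s‖ₑ * ‖u (k - l) s‖ₑ) + ∑' l, ‖X l s‖ₑ * ‖(u - X) (k - l) s‖ₑ) := by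
                rw [← mul_add, ← mul_assoc, ← ENNReal.ofReal_mul (Real.exp_pos _).le]
            _ ≤ _ := by
                apply mul_le_mul' _ le_rfl
                apply ENNReal.ofReal_le_ofReal
                by_cases hk : k = 0
                · subst hk
                  rw [nk_zero]
                  simp only [mul_zero]; positivity
                · have := nk_exp_le hc hk hts
                  nlinarith
        calc ∑' k, ENNReal.ofReal (Real.exp (-(c * H356R3.NS.sq k * (t - s)))) * ‖Bt u k s - Bt X k s‖ₑ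
            ≤ ∑' k, ENNReal.ofReal (C0 * kap c (t - s)) * ((∑' l, ‖(u - X) l s‖ₑ * ‖u (k - l) s‖ₑ)
              + ∑' l, ‖X l s‖ₑ * ‖(u - X) (k - l) s‖ₑ) := ENNReal.tsum_le_tsum h2
          _ = ENNReal.ofReal (C0 * kap c (t - s)) * (ENNReal.ofReal (An (u - X) s) * ENNReal.ofReal (An u s)
                + ENNReal.ofReal (An X s) * ENNReal.ofReal (An (u - X) s)) := by
              rw [ENNReal.tsum_mul_left, ENNReal.tsum_add, conv_fg (fun l => ‖(u - X) l s‖ₑ) (fun l => ‖u l s‖ₑ),
                conv_fg (fun l => ‖X l s‖ₑ) (fun l => ‖(u - X) l s‖ₑ), An_eq hD, An_eq hu.dom, An_eq hX.dom]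
          _ = ENNReal.ofReal (C0 * kap c (t - s) * (An (u - X) s * (An u s + An X s))) := by
              have a1 := An_nonneg (u - X) s
              have a2 := An_nonneg u s
              have a3 := An_nonneg X s
              rw [← ENNReal.ofReal_mul a1, ← ENNReal.ofReal_mul a3, ← ENNReal.ofReal_add (by positivity) (by positivity),
                ← ENNReal.ofReal_mul (by positivity)]
              congr 1; ring
          _ ≤ ENNReal.ofReal (C0 * M * (kap c (t - s) * An (u - X) s)) := by
              apply ENNReal.ofReal_le_ofReal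
              have a1 := An_nonneg (u - X) s
              have a4 := hM s hs
              calc C0 * kap c (t - s) * (An (u - X) s * (An u s + An X s))
                  ≤ C0 * kap c (t - s) * (An (u - X) s * M) := by gcongr
                _ = _ := by ring
          _ = _ := by
              have a1 := An_nonneg (u - X) s
              have a2 := An_nonneg u s
              have a3 := An_nonneg X s
              have a4 := hM s hs
              rw [ENNReal.ofReal_mul (mul_nonneg hC.le (by linarith)), ENNReal.ofReal_mul hkn]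
    _ = _ := by
        rw [lintegral_const_mul']
        exact ENNReal.ofReal_ne_top

end Pool.Agent.U162.MU
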