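import Pool.Agent.U162.MU.Late

/-!
Solutions which are close in `L²((δ,∞); ℓ¹)` are close in `ℓ¹` at all times `t ≥ 2 δ`: the bootstrap argument
-/

open MeasureTheory Set Filter Topology
open scoped ENNReal NNReal

namespace Pool.Agent.U162.MU

open Pool.Agent.H356R3.NS Pool.Agent.U162.TS Pool.Agent.U162.GE Pool.Agent.U162.TS.EL Pool.Agent.U162.PL

lemma shiftint (ψ : ℝ → ℝ≥0∞) (t0 t : ℝ) : ∫⁻ s in Ioo t0 t, ψ (t - s) ≤ ∫⁻ τ in Ioi 0, ψ τ := by
  have hsub : ∫⁻ s in Ioo t0 t, ψ (t - s)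
      = ∫⁻ s, (Ioi (0 : ℝ)).indicator (fun τ => (Iio (t - t0)).indicator ψ τ) (t - s) := by
    rw [← lintegral_indicator measurableSet_Ioo]
    refine lintegral_congr fun s => ?_
    by_cases hs : s ∈ Ioo t0 t
    · rw [indicator_of_mem hs, indicator_of_mem (show t - s ∈ Ioi (0 : ℝ) by simp [hs.2]),
        indicator_of_mem (show t - s ∈ Iio (t - t0) by simp [hs.1])]
    · rw [indicator_of_notMem hs]
      by_cases h3 : t - s ∈ Ioi (0 : ℝ)
      · rw [indicator_of_mem h3, indicator_of_notMem]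
        intro h4
        apply hs
        simp only [mem_Ioi, mem_Iio] at h3 h4
        exact ⟨by linarith, by linarith⟩
      · rw [indicator_of_notMem h3]
  rw [hsub, lintegral_sub_left_eq_self (fun τ => (Ioi (0 : ℝ)).indicator (fun τ => (Iio (t - t0)).indicator ψ τ) τ) t,
    lintegral_indicator measurableSet_Ioi]
  exact lintegral_mono fun τ => indicator_le_self _ _ _

lemma kap_le {c : ℝ} (hc : 0 < c) {h τ : ℝ} (hh : 0 < h) (hτ : h ≤ τ) : kap c τ ≤ (c * h) ^ (-(1 / 2 : ℝ)) := by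
  unfold kap
  have h1 : (c * τ) ^ (-(1 / 2 : ℝ)) ≤ (c * h) ^ (-(1 / 2 : ℝ)) := by
    refine Real.rpow_le_rpow_of_nonpos (by positivity) (by gcongr) (by norm_num)
  have h2 : Real.exp (-(c / 2 * τ)) ≤ 1 := by
    rw [Real.exp_le_one_iff]
    have : 0 ≤ c / 2 * τ := by
      have := hh.le.trans hτ
      positivity
    linarith
  have h3 : 0 ≤ (c * h) ^ (-(1 / 2 : ℝ)) := by positivity
  calc _ ≤ (c * h) ^ (-(1 / 2 : ℝ)) * 1 := mul_le_mul h1 h2 (Real.exp_pos _).le h3
    _ = _ := mul_one _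

/-- the integral in the estimate of the difference -/
lemma int_le {c : ℝ} (hc : 0 < c) {D : Fam} (hD : CF D) (hDd : Dom D) {t0 t δ : ℝ} (hδ : δ ≤ t0) {β h lam : ℝ} (hh : 0 < h)
    (hlam : 0 < lam) (hβ : ∀ s ∈ Ioo t0 t, An D s ≤ β) :
    ∫⁻ s in Ioo t0 t, ENNReal.ofReal (kap c (t - s)) * ENNReal.ofReal (An D s)
      ≤ ENNReal.ofReal β * (∫⁻ τ in Ioi 0, (Iio h).indicator (fun τ => ENNReal.ofReal (kap c τ)) τ)
        + ENNReal.ofReal lam * (∫⁻ τ in Ioi 0, ENNReal.ofReal (kap c τ))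
        + ENNReal.ofReal ((c * h) ^ (-(1 / 2 : ℝ)) / lam) * ∫⁻ s in Ioi δ, ENNReal.ofReal (An D s) ^ 2 := by
  have hmk : Measurable fun s => ENNReal.ofReal (kap c (t - s)) := by
    unfold kap; fun_prop
  have hmi : Measurable fun s => (Iio h).indicator (fun τ => ENNReal.ofReal (kap c τ)) (t - s) := by
    have : Measurable fun τ => (Iio h).indicator (fun τ => ENNReal.ofReal (kap c τ)) τ := by
      refine Measurable.indicator ?_ measurableSet_Iio
      unfold kap; fun_prop
    exact this.comp (measurable_const.sub measurable_id)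
  have hmA : Measurable fun s => ENNReal.ofReal (An D s) ^ 2 := ((An_cont hD hDd).measurable.ennreal_ofReal).pow_const 2
  calc ∫⁻ s in Ioo t0 t, ENNReal.ofReal (kap c (t - s)) * ENNReal.ofReal (An D s)
      ≤ ∫⁻ s in Ioo t0 t, (ENNReal.ofReal β * (Iio h).indicator (fun τ => ENNReal.ofReal (kap c τ)) (t - s)
          + ENNReal.ofReal lam * ENNReal.ofReal (kap c (t - s))
          + ENNReal.ofReal ((c * h) ^ (-(1 / 2 : ℝ)) / lam) * ENNReal.ofReal (An D s) ^ 2) := by
        refine setLIntegral_mono' measurableSet_Ioo fun s hs => ?_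
        have hts : 0 < t - s := by linarith [hs.2]
        have hk := kap_nonneg hc hts.le
        have hy := An_nonneg D s
        by_cases hcase : t - s < h
        · rw [indicator_of_mem (show t - s ∈ Iio h from hcase)]
          refine le_trans ?_ (le_add_right le_self_add)
          rw [mul_comm]
          exact mul_le_mul' (ENNReal.ofReal_le_ofReal (hβ s hs)) le_rfl
        · push Not at hcase
          rw [indicator_of_notMem (show t - s ∉ Iio h from not_lt.2 hcase), mul_zero, zero_add,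
            ← ENNReal.ofReal_mul hk, ← ENNReal.ofReal_mul hlam.le, ← ENNReal.ofReal_pow hy,
            ← ENNReal.ofReal_mul (by positivity), ← ENNReal.ofReal_add (by positivity) (by positivity)]
          apply ENNReal.ofReal_le_ofReal
          have h1 := kap_le hc hh hcase
          have h2 : An D s ≤ lam + An D s ^ 2 / lam := by
            rw [← sub_nonneg]
            have : lam + An D s ^ 2 / lam - An D s = ((lam - An D s / 2) ^ 2 + 3 / 4 * An D s ^ 2) / lam := by
              field_simp; ring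
            rw [this]; positivity
          calc kap c (t - s) * An D s ≤ kap c (t - s) * (lam + An D s ^ 2 / lam) := mul_le_mul_of_nonneg_left h2 hk
            _ = lam * kap c (t - s) + kap c (t - s) * (An D s ^ 2 / lam) := by ring
            _ ≤ lam * kap c (t - s) + (c * h) ^ (-(1 / 2 : ℝ)) * (An D s ^ 2 / lam) := by gcongr
            _ = _ := by ring
    _ = ENNReal.ofReal β * (∫⁻ s in Ioo t0 t, (Iio h).indicator (fun τ => ENNReal.ofReal (kap c τ)) (t - s))
          + ENNReal.ofReal lam * (∫⁻ s in Ioo t0 t, ENNReal.ofReal (kap c (t - s)))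
          + ENNReal.ofReal ((c * h) ^ (-(1 / 2 : ℝ)) / lam) * ∫⁻ s in Ioo t0 t, ENNReal.ofReal (An D s) ^ 2 := by
        rw [lintegral_add_left, lintegral_add_left, lintegral_const_mul _ hmi, lintegral_const_mul _ hmk,
          lintegral_const_mul _ hmA]
        · exact hmi.const_mul _
        · exact (hmi.const_mul _).add (hmk.const_mul _)
    _ ≤ _ := by
        refine add_le_add (add_le_add (mul_le_mul' le_rfl ?_) (mul_le_mul' le_rfl ?_)) (mul_le_mul' le_rfl ?_)
        · exact shiftint (fun τ => (Iio h).indicator (fun τ => ENNReal.ofReal (kap c τ)) τ) t0 t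
        · exact shiftint (fun τ => ENNReal.ofReal (kap c τ)) t0 t
        · exact lintegral_mono_set fun s hs => hδ.trans_lt hs.1

lemma kap_small {c : ℝ} (hc : 0 < c) {ε : ℝ} (hε : 0 < ε) :
    ∃ h : ℝ, 0 < h ∧ ∫⁻ τ in Ioi 0, (Iio h).indicator (fun τ => ENNReal.ofReal (kap c τ)) τ ≤ ENNReal.ofReal ε := by
  have hfin : ∫⁻ τ in Ioi 0, ENNReal.ofReal (kap c τ) ≠ ⊤ := by
    rw [← ofReal_integral_eq_lintegral_ofReal (kap_int hc)
      ((ae_restrict_iff' measurableSet_Ioi).2 (Filter.Eventually.of_forall fun τ hτ => kap_nonneg hc (le_of_lt hτ)))]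
    exact ENNReal.ofReal_ne_top
  obtain ⟨d, hd, hd'⟩ := exists_pos_setLIntegral_lt_of_measure_lt hfin (ENNReal.ofReal_pos.2 hε).ne'
  obtain ⟨h, hh0, hh⟩ : ∃ h : ℝ, 0 < h ∧ ENNReal.ofReal h < d := by
    by_cases hdt : d = ⊤
    · exact ⟨1, one_pos, by rw [hdt]; exact ENNReal.ofReal_lt_top⟩
    · have hdr : 0 < d.toReal := ENNReal.toReal_pos hd.ne' hdt
      refine ⟨d.toReal / 2, by positivity, ?_⟩
      calc ENNReal.ofReal (d.toReal / 2) < ENNReal.ofReal d.toReal := (ENNReal.ofReal_lt_ofReal_iff hdr).2 (by linarith)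
        _ = d := ENNReal.ofReal_toReal hdt
  refine ⟨h, hh0, ?_⟩
  rw [lintegral_indicator measurableSet_Iio]
  refine (hd' (Iio h) ?_).le
  rw [Measure.restrict_apply measurableSet_Iio]
  have : Iio h ∩ Ioi 0 = Ioo 0 h := by
    ext x; simp only [mem_inter_iff, mem_Iio, mem_Ioi, mem_Ioo]; tauto
  rw [this, Real.volume_Ioo, sub_zero]
  exact hh

/-- solutions which are close in the square mean are close at later times -/
theorem late2 {c : ℝ} (hc : 0 < c) {X : Fam} (hX : Gd c X) {ε : ℝ} (hε : 0 < ε) :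
    ∃ η : ℝ, 0 < η ∧ ∀ {u : Fam}, Gd c u → LNd (ε / 2) (u - X) ≤ ENNReal.ofReal η → ∀ t, ε ≤ t → An (u - X) t ≤ ε := by
  have hC := C0_pos
  obtain ⟨b, hb, hbX⟩ := hX.dom
  have hb0 : ∀ k, 0 ≤ b k := fun k => (norm_nonneg _).trans (hbX k 0)
  set M := ∑' k, b k with hMd
  have hM0 : 0 ≤ M := tsum_nonneg hb0
  have hMX : ∀ s, An X s ≤ M := fun s =>
    Summable.tsum_le_tsum (fun k => hbX k s) (show Summable fun k => ‖X k s‖ from hX.dom.sn s) hb
  set G := C0 * (2 * M + 1) with hG
  have hGp : 0 < G := by positivity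
  set α := min (ε / 2) (1 / 2) with hα
  have hαp : 0 < α := lt_min (by positivity) (by norm_num)
  have hα1 : α ≤ ε / 2 := min_le_left _ _
  have hα2 : α ≤ 1 / 2 := min_le_right _ _
  obtain ⟨h, hh, hAh⟩ := kap_small hc (by positivity : 0 < 1 / (8 * G))
  set Kc := ∫ τ in Ioi 0, kap c τ with hKc
  have hKc0 : 0 ≤ Kc := setIntegral_nonneg measurableSet_Ioi fun τ hτ => kap_nonneg hc (le_of_lt hτ)
  have hKce : ∫⁻ τ in Ioi 0, ENNReal.ofReal (kap c τ) = ENNReal.ofReal Kc := by
    rw [ofReal_integral_eq_lintegral_ofReal (kap_int hc)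
      ((ae_restrict_iff' measurableSet_Ioi).2 (Filter.Eventually.of_forall fun τ hτ => kap_nonneg hc (le_of_lt hτ)))]
  set lam := α / (4 * G * (Kc + 1)) with hlam
  have hlamp : 0 < lam := by positivity
  set Kh := (c * h) ^ (-(1 / 2 : ℝ)) / lam with hKh
  have hKh0 : 0 ≤ Kh := by positivity
  set δ := ε / 2 with hδ
  have hδp : 0 < δ := by positivity
  set η := min (α * Real.sqrt δ / 4) (Real.sqrt (α / (4 * G * (Kh + 1)))) with hη
  have hηp : 0 < η := lt_min (by positivity) (Real.sqrt_pos.2 (by positivity))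
  refine ⟨η, hηp, fun {u} hu hL t ht => ?_⟩
  have hD : Dom (u - X) := dom_sub hu.dom hX.dom
  have hDc : CF (u - X) := fun k => (hu.cf k).sub (hX.cf k)
  have hcont := An_cont hDc hD
  -- the square mean
  have hsqm : ∫⁻ s in Ioi δ, ENNReal.ofReal (An (u - X) s) ^ 2 ≤ ENNReal.ofReal (η ^ 2) := by
    have h1 : (∫⁻ s in Ioi δ, ENNReal.ofReal (An (u - X) s) ^ 2) ^ (1 / 2 : ℝ) ≤ ENNReal.ofReal η := by
      refine le_trans (le_of_eq ?_) hL
      unfold LNd LN
      congr 1
      rw [← lintegral_indicator measurableSet_Ioi, ← lintegral_indicator measurableSet_Ioi]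
      refine lintegral_congr fun s => ?_
      by_cases hs : s ∈ Ioi δ
      · have hs0 : s ∈ Ioi (0 : ℝ) := hδp.trans hs
        rw [indicator_of_mem hs, indicator_of_mem hs0]
        beta_reduce
        rw [indicator_of_mem hs, NW_Wa_zero, ENNReal.rpow_two]
        show _ = (∑' k, ‖(u - X) k s‖ₑ) ^ 2
        rw [An_eq hD]
      · rw [indicator_of_notMem hs]
        by_cases hs0 : s ∈ Ioi (0 : ℝ)
        · rw [indicator_of_mem hs0]
          beta_reduce
          rw [indicator_of_notMem hs]; simp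
        · rw [indicator_of_notMem hs0]
    have h2 := ENNReal.rpow_le_rpow h1 (by norm_num : (0 : ℝ) ≤ 2)
    rw [← ENNReal.rpow_mul, ENNReal.ofReal_rpow_of_nonneg hηp.le (by norm_num)] at h2
    norm_num at h2
    exact h2
  -- a good initial time
  obtain ⟨t0, ht0, hA⟩ : ∃ t0 ∈ Ioo δ (2 * δ), An (u - X) t0 ≤ α / 2 := by
    by_contra hcon
    push Not at hcon
    have h1 : ENNReal.ofReal ((α / 2) ^ 2 * δ) ≤ ∫⁻ s in Ioi δ, ENNReal.ofReal (An (u - X) s) ^ 2 := by
      calc ENNReal.ofReal ((α / 2) ^ 2 * δ) = ∫⁻ s in Ioo δ (2 * δ), ENNReal.ofReal ((α / 2) ^ 2) := by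
            rw [setLIntegral_const, Real.volume_Ioo, ← ENNReal.ofReal_mul (by positivity)]
            congr 1; ring
        _ ≤ ∫⁻ s in Ioo δ (2 * δ), ENNReal.ofReal (An (u - X) s) ^ 2 := by
            refine setLIntegral_mono' measurableSet_Ioo fun s hs => ?_
            rw [← ENNReal.ofReal_pow (An_nonneg _ s)]
            apply ENNReal.ofReal_le_ofReal
            exact pow_le_pow_left₀ (by positivity) (hcon s hs).le 2
        _ ≤ _ := lintegral_mono_set fun s hs => hs.1
    have h3 := h1.trans hsqm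
    rw [ENNReal.ofReal_le_ofReal_iff (by positivity)] at h3
    have h4 : η ≤ α * Real.sqrt δ / 4 := min_le_left _ _
    have h5 : η ^ 2 ≤ (α * Real.sqrt δ / 4) ^ 2 := pow_le_pow_left₀ hηp.le h4 2
    have h6 : (α * Real.sqrt δ / 4) ^ 2 = α ^ 2 * δ / 16 := by
      rw [div_pow, mul_pow, Real.sq_sqrt hδp.le]; norm_num
    have h7 : 0 < α ^ 2 * δ := by positivity
    nlinarith
  have ht0' : t0 ≤ t := by
    have := ht0.2
    have : 2 * δ = ε := by rw [hδ]; ring
    linarith
  have hstay : An (u - X) t ≤ 2 * α := by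
    by_contra hcon
    push Not at hcon
    have hcomp : IsCompact (Icc t0 t ∩ An (u - X) ⁻¹' Ici (2 * α)) :=
      isCompact_Icc.inter_right (isClosed_Ici.preimage hcont)
    obtain ⟨τ, hτ, hmin⟩ := hcomp.exists_isLeast ⟨t, ⟨ht0', le_rfl⟩, hcon.le⟩
    have hβ : ∀ s ∈ Ioo t0 τ, An (u - X) s ≤ 2 * α := by
      intro s hs'
      by_contra h2
      push Not at h2
      have := hmin ⟨⟨hs'.1.le, hs'.2.le.trans hτ.1.2⟩, h2.le⟩
      linarith [hs'.2]
    have hsum : ∀ s ∈ Ioo t0 τ, An u s + An X s ≤ 2 * M + 1 := by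
      intro s hs
      have h1 : An u s ≤ An (u - X) s + An X s := by
        have := An_add_le hD hX.dom s
        rwa [sub_add_cancel] at this
      have h2 := hβ s hs
      have h3 := hMX s
      linarith
    have h1 := diff_le hc hu hX (by linarith [ht0.1] : 0 ≤ t0) hτ.1.1 hsum
    have h2 := int_le hc hDc hD (δ := δ) ht0.1.le hh hlamp hβ
    have h3 : ∫⁻ s in Ioo t0 τ, ENNReal.ofReal (kap c (τ - s)) * ENNReal.ofReal (An (u - X) s)
        ≤ ENNReal.ofReal (2 * α * (1 / (8 * G)) + lam * Kc + Kh * η ^ 2) := by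
      refine h2.trans ?_
      rw [ENNReal.ofReal_add (by positivity) (by positivity), ENNReal.ofReal_add (by positivity) (by positivity),
        ENNReal.ofReal_mul (p := 2 * α) (by positivity), ENNReal.ofReal_mul hlamp.le, ENNReal.ofReal_mul hKh0, hKce]
      exact add_le_add (add_le_add (mul_le_mul' le_rfl hAh) le_rfl) (mul_le_mul' le_rfl hsqm)
    have h4 : ENNReal.ofReal (An (u - X) τ) ≤ ENNReal.ofReal (α / 2 + G * (2 * α * (1 / (8 * G)) + lam * Kc + Kh * η ^ 2)) := by
      rw [ENNReal.ofReal_add (by positivity) (by positivity), ENNReal.ofReal_mul hGp.le]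
      exact h1.trans (add_le_add (ENNReal.ofReal_le_ofReal hA) (mul_le_mul' le_rfl h3))
    rw [ENNReal.ofReal_le_ofReal_iff (by positivity)] at h4
    have h5 : 2 * α ≤ An (u - X) τ := hτ.2
    have e1 : G * (2 * α * (1 / (8 * G))) = α / 4 := by field_simp; norm_num
    have e2 : G * (lam * Kc) ≤ α / 4 := by
      rw [hlam]
      have : G * (α / (4 * G * (Kc + 1)) * Kc) = α / 4 * (Kc / (Kc + 1)) := by field_simp
      rw [this]
      have h6 : Kc / (Kc + 1) ≤ 1 := by rw [div_le_one (by positivity)]; linarith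
      nlinarith
    have e3 : G * (Kh * η ^ 2) ≤ α / 4 := by
      have h6 : η ^ 2 ≤ α / (4 * G * (Kh + 1)) := by
        have h7 : η ≤ Real.sqrt (α / (4 * G * (Kh + 1))) := min_le_right _ _
        calc η ^ 2 ≤ Real.sqrt (α / (4 * G * (Kh + 1))) ^ 2 := pow_le_pow_left₀ hηp.le h7 2
          _ = _ := Real.sq_sqrt (by positivity)
      calc G * (Kh * η ^ 2) ≤ G * (Kh * (α / (4 * G * (Kh + 1)))) := by gcongr
        _ = α / 4 * (Kh / (Kh + 1)) := by field_simp
        _ ≤ α / 4 * 1 := by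
            gcongr
            rw [div_le_one (by positivity)]; linarith
        _ = _ := mul_one _
    have e4 : G * (2 * α * (1 / (8 * G)) + lam * Kc + Kh * η ^ 2)
        = G * (2 * α * (1 / (8 * G))) + G * (lam * Kc) + G * (Kh * η ^ 2) := by ring
    rw [e4, e1] at h4
    linarith
  linarith

end Pool.Agent.U162.MU
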