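import Pool.Agent.U162.MU.Tri

/-!
The theorem for several scales
-/

open MeasureTheory Set Filter Topology
open scoped ENNReal NNReal ContDiff

namespace Pool.Agent.U162.MU

open Pool.Agent.H356R3.NS Pool.Agent.U162.TS Pool.Agent.U162.GE Pool.Agent.U162.TS.EL Pool.Agent.U162.TS.VF Pool.Agent.U162.TS.Ph Pool.Agent.U162.PL

variable {ν : ℝ}

lemma Ev.imp : ∀ {J : ℕ} {P Q : (Fin J → ℕ) → Prop}, (∀ N, P N → Q N) → Ev J P → Ev J Q
  | 0, _, _, h, hP => h _ hP
  | J + 1, _, _, h, hP => by
    have hP' : ∀ᶠ n in atTop, Ev J fun N => _ := hP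
    exact hP'.mono fun n hn => Ev.imp (fun N hN => h _ hN) hn

lemma LNd_anti {δ δ' : ℝ} (h : δ' ≤ δ) (x : Fam) : LNd δ x ≤ LNd δ' x := by
  unfold LNd
  refine LN_mono fun t _ => ?_
  exact indicator_le_indicator_of_subset (Ioi_subset_Ioi h) (fun _ => bot_le) t

/-- the theorem for several scales, with uniform constants -/
theorem multi (hν : 0 < ν) : ∀ (J : ℕ) {V : Fin J → R3 → R3 → R3} {W : Fin J → R3 → ℝ → R3 → R3}
    {Q : Fin J → R3 → ℝ → R3 → ℝ}, (∀ j, Profile (V j)) → (∀ j x, AdmissiblePeriodic ν (V j x) (W j x) (Q j x)) →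
    ∀ D1 : ℝ, 0 ≤ D1 → ∀ ε : ℝ, 0 < ε → ∃ ρ : ℝ, 0 < ρ ∧
      ∀ {g : R3 → R3} {v : ℝ → R3 → R3} {p : ℝ → R3 → ℝ}, Field g → AdmissiblePeriodic ν g v p →
        size v ≤ ENNReal.ofReal D1 → ∀ {a : R3 → R3}, Field a →
        (∀ l i, H356R3.NS.fc g l i = H356R3.NS.fc a l i + ∑ j, push (W j) l i) →
        Ev J fun N => ∀ u₀ : R3 → R3, Field u₀ →
          heatSq ν (fun k i => H356R3.NS.fc u₀ k i - mixs a V N k i) ≤ ENNReal.ofReal (ρ ^ 2) →
          ∃ u q, AdmissiblePeriodic ν u₀ u q ∧ LNd ε (Ph.XF u - Ph.XF v) ≤ ENNReal.ofReal ε ∧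
            CloseAfter ε u v ∧ CloseMulti ε N u v W := by
  intro J
  induction J with
  | zero =>
    intro V W Q hV hW D1 hD1 ε hε
    obtain ⟨D2, -, hall⟩ := phys_uni hν profile_zero (fun _ => adm_zero ν)
    obtain ⟨ρ, hρ, h⟩ := hall D1 hD1 ε hε
    refine ⟨ρ, hρ, fun {g v p} hg hvp hsz {a} ha hga => ?_⟩
    obtain ⟨N0, hN0⟩ := h hg hvp hsz ha (fun l i => by rw [hga, push_eq_zero]; simp)
    show ∀ u₀ : R3 → R3, Field u₀ → _ → _
    intro u₀ hu₀ hcl
    obtain ⟨u, q, h1, -, h5, h3, h4⟩ := hN0 N0 le_rfl u₀ hu₀ (by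
      refine le_trans (le_of_eq ?_) hcl
      congr 1
      funext k i
      rw [mix_zero]
      unfold mixs
      simp)
    refine ⟨u, q, h1, h5, h3, ?_⟩
    unfold CloseMulti
    unfold CloseTwoScale at h4
    simpa using h4
  | succ J ih =>
    intro V W Q hV hW D1 hD1 ε hε
    obtain ⟨D2, hD2, hall⟩ := phys_uni hν (hV 0) (hW 0)
    obtain ⟨ρ1, hρ1, h1⟩ := hall D1 hD1 (ε / 8) (by positivity)
    obtain ⟨ρ, hρ, h2⟩ := ih (V := fun j => V j.succ) (W := fun j => W j.succ) (Q := fun j => Q j.succ)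
      (fun j => hV _) (fun j => hW _) (D1 + D2 + 1) (by positivity) (ε / 8) (by positivity)
    refine ⟨ρ, hρ, fun {g v p} hg hvp hsz {a} ha hga => ?_⟩
    -- the data with the kicks of the finer scales
    have hps : Dta fun l i => ∑ j : Fin J, push (W j.succ) l i := by
      have : ∀ s : Finset (Fin J), Dta fun l i => ∑ j ∈ s, push (W j.succ) l i := by
        intro s
        induction s using Finset.induction_on with
        | empty =>
          simp only [Finset.sum_empty]
          exact ⟨by simp, rfl, fun k i => by simp, fun k => by rw [dt_eq]; simp, fun j => ⟨0, fun k => by simp⟩⟩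
        | insert j s hj hs =>
          have := dta_add (push_dta hν (hV j.succ) (hW j.succ)) hs
          have e : (fun k => (fun i => push (W j.succ) k i) + fun i => ∑ j ∈ s, push (W j.succ) k i)
              = fun l i => ∑ j ∈ insert j s, push (W j.succ) l i := by
            funext l i
            rw [Finset.sum_insert hj]; rfl
          rw [← e]; exact this
      exact this Finset.univ
    have ha1 : Dta fun l i => H356R3.NS.fc a l i + ∑ j : Fin J, push (W j.succ) l i := dta_add ha.dta hps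
    have hfa1 := fld_fc ha1
    obtain ⟨N0, hN0⟩ := h1 hg hvp hsz (fld_field ha1) (fun l i => by
      rw [hfa1, hga, Fin.sum_univ_succ]; ring)
    show ∀ᶠ n in atTop, _
    filter_upwards [Filter.eventually_ge_atTop N0] with n hn
    -- the first scale
    have hb1 := mixc_dta (fld_field ha1) (hV 0) n
    have hfb1 := fld_fc hb1
    obtain ⟨u1, q1, hu1, hsu1, hd1, hc1, hc2⟩ := hN0 n hn _ (fld_field hb1) (by
      rw [heatSq_congr (d' := fun _ => 0) (fun k hk => by
        funext i
        rw [hfb1, mixc_eq hk, sub_self]; rfl), heatSq_zero]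
      exact bot_le)
    have ha' := mixc_dta ha (hV 0) n
    have hfa' := fld_fc ha'
    have h3 := h2 (fld_field hb1) hu1 hsu1 (fld_field ha') (fun l i => by
      rw [hfb1, hfa']
      unfold mixc
      simp only [Pi.add_apply]
      rw [hfa1]
      ring)
    refine h3.imp fun N hN u₀ hu₀ hcl => ?_
    obtain ⟨u, q, hu, hd2, hc3, hc4⟩ := hN u₀ hu₀ (by
      rw [← heatSq_congr (d := fun k i => H356R3.NS.fc u₀ k i - mixs a V (Fin.cons n N) k i) (fun k hk => by
        funext i
        congr 1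
        unfold mixs
        rw [hfa', mixc_eq hk, Fin.sum_univ_succ]
        unfold mix
        simp only [Fin.cons_zero, Fin.cons_succ]
        ring)]
      exact hcl)
    refine ⟨u, q, hu, ?_, ?_, ?_⟩
    · have x1 := ((glob_of_adm hu1 (fld_field hb1).mean).flowC hν).cf
      have x2 := ((glob_of_adm hvp hg.mean).flowC hν).cf
      have x3 := ((glob_of_adm hu hu₀.mean).flowC hν).cf
      have e : Ph.XF u - Ph.XF v = (Ph.XF u - Ph.XF u1) + (Ph.XF u1 - Ph.XF v) := by abel
      rw [e]
      refine (LNd_add (fun k => (x3 k).sub (x1 k)) (fun k => (x1 k).sub (x2 k))).trans ?_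
      refine (add_le_add ((LNd_anti (by linarith : ε / 8 ≤ ε) _).trans hd2) ((LNd_anti (by linarith : ε / 8 ≤ ε) _).trans hd1)).trans ?_
      rw [← ENNReal.ofReal_add (by positivity) (by positivity)]
      exact ENNReal.ofReal_le_ofReal (by linarith)
    · refine tri measurableSet_Ioi (fun t (ht : ε < t) => hε.le.trans ht.le) (A := fun t x => u1 t x - v t x)
        (B := fun t x => u t x - u1 t x) (fun x => (adm_cont hu1 x).sub (adm_cont hvp x)) (fun t _ x => by abel) hε.le ?_ ?_
      · refine le_trans (lintegral_mono_set ?_) hc1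
        exact Ioi_subset_Ioi (by linarith)
      · refine le_trans (lintegral_mono_set ?_) hc3
        exact Ioi_subset_Ioi (by linarith)
    · refine tri measurableSet_Ioi (fun t (ht : 0 < t) => ht.le)
        (A := fun t x => u1 t x - v t x - (n : ℝ) • W 0 x ((n : ℝ) ^ 2 * t) ((n : ℝ) • x))
        (B := fun t x => u t x - u1 t x - ∑ j, (N j : ℝ) • W j.succ x ((N j : ℝ) ^ 2 * t) ((N j : ℝ) • x))
        (fun x => ?_) (fun t _ x => ?_) hε.le hc2 hc4
      · have hk : ContinuousOn (fun t => W 0 x ((n : ℝ) ^ 2 * t) ((n : ℝ) • x)) (Ici 0) :=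
          (adm_cont (hW 0 x) ((n : ℝ) • x)).comp (f := fun t : ℝ => (n : ℝ) ^ 2 * t)
            (continuous_const.mul continuous_id).continuousOn fun t (ht : 0 ≤ t) => mul_nonneg (by positivity) ht
        exact ((adm_cont hu1 x).sub (adm_cont hvp x)).sub (hk.const_smul (n : ℝ))
      · rw [Fin.sum_univ_succ]
        simp only [Fin.cons_zero, Fin.cons_succ]
        abel

end Pool.Agent.U162.MU
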