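import Pool.Agent.U162.MU.Late2
import Pool.Agent.U162.MU.Multi

/-!
Pointwise closeness of smooth solutions
-/

open MeasureTheory Set Filter Topology
open scoped ENNReal NNReal ContDiff

namespace Pool.Agent.U162.MU

open Pool.Agent.H356R3.NS Pool.Agent.U162.TS Pool.Agent.U162.GE Pool.Agent.U162.TS.EL Pool.Agent.U162.TS.VF Pool.Agent.U162.TS.Ph Pool.Agent.U162.PL

variable {ν : ℝ}

lemma gd_XF (hν : 0 < ν) {v : ℝ → R3 → R3} {p : ℝ → R3 → ℝ} (hG : Ph.Glob ν v p) :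
    Gd (4 * Real.pi ^ 2 * ν) (Ph.XF v) := by
  have hc : 0 < 4 * Real.pi ^ 2 * ν := by positivity
  have hX := hG.flowC hν
  obtain ⟨z, hz, -⟩ := mem_of_glob hc hν rfl hG
  have e : XX (4 * Real.pi ^ 2 * ν) z = Ph.XF v := by
    funext k t
    unfold XX
    rw [hz, max_eq_left (le_max_right t 0), smul_smul, ← Real.exp_add, neg_add_cancel, Real.exp_zero, one_smul,
      ← hX.mx]
  exact ⟨hX.cf, e ▸ XX_dom hc z, hX.ode⟩

lemma pt_le {v : ℝ → R3 → R3} {p : ℝ → R3 → ℝ} {u : ℝ → R3 → R3} {q : ℝ → R3 → ℝ} (hν : 0 < ν) (hv : Ph.Glob ν v p)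
    (hu : Ph.Glob ν u q) {t : ℝ} (ht : 0 ≤ t) (x : R3) (i : Fin 3) :
    |u t x i - v t x i| ≤ An (Ph.XF u - Ph.XF v) t := by
  have h1 := v_series hu t ht x i
  have h2 := v_series hv t ht x i
  have du := (gd_XF hν hu).dom
  have dv := (gd_XF hν hv).dom
  have hD := dom_sub du dv
  have hs : ∀ {y : Fam}, Dom y → Summable fun k => y k t i * ex k x := by
    intro y hy
    refine Summable.of_norm_bounded (show Summable fun k => ‖y k t‖ from hy.sn t) fun k => ?_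
    rw [norm_mul, norm_ex, mul_one]
    exact norm_le_pi_norm _ i
  have e : ((u t x i - v t x i : ℝ) : ℂ) = ∑' k, (Ph.XF u - Ph.XF v) k t i * ex k x := by
    push_cast
    rw [h1, h2, ← (hs du).tsum_sub (hs dv)]
    refine tsum_congr fun k => ?_
    show _ = (Ph.XF u k t i - Ph.XF v k t i) * ex k x
    ring
  have h3 : ‖((u t x i - v t x i : ℝ) : ℂ)‖ ≤ An (Ph.XF u - Ph.XF v) t := by
    rw [e]
    unfold An
    refine tsum_of_norm_bounded (show Summable fun k => ‖(Ph.XF u - Ph.XF v) k t‖ from hD.sn t).hasSum fun k => ?_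
    rw [norm_mul, norm_ex, mul_one]
    exact norm_le_pi_norm _ i
  rwa [Complex.norm_real, Real.norm_eq_abs] at h3

/-- solutions which are close in the square mean are close at later times -/
theorem late_phys (hν : 0 < ν) {g : R3 → R3} {v : ℝ → R3 → R3} {p : ℝ → R3 → ℝ} (hg : Field g)
    (hv : AdmissiblePeriodic ν g v p) {ε : ℝ} (hε : 0 < ε) :
    ∃ η : ℝ, 0 < η ∧ η ≤ ε ∧ ∀ {u₀ : R3 → R3} {u : ℝ → R3 → R3} {q : ℝ → R3 → ℝ}, Field u₀ →
      AdmissiblePeriodic ν u₀ u q → LNd η (Ph.XF u - Ph.XF v) ≤ ENNReal.ofReal η →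
      ∀ t, ε ≤ t → ∀ x i, |u t x i - v t x i| ≤ ε := by
  have hc : 0 < 4 * Real.pi ^ 2 * ν := by positivity
  have hGv := glob_of_adm hv hg.mean
  obtain ⟨η, hη, h⟩ := late2 hc (gd_XF hν hGv) hε
  refine ⟨min η (ε / 2), lt_min hη (by positivity), (min_le_right _ _).trans (by linarith), fun {u₀ u q} hu₀ hu hcl t ht x i => ?_⟩
  have hGu := glob_of_adm hu hu₀.mean
  refine (pt_le hν hGv hGu (hε.le.trans ht) x i).trans (h (gd_XF hν hGu) ?_ t ht)
  exact (LNd_anti (min_le_right _ _) _).trans (hcl.trans (ENNReal.ofReal_le_ofReal (min_le_left _ _)))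

end Pool.Agent.U162.MU
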