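import Pool.Agent.U162.MU.ShearP

/-!
Fields as effects of shear profiles
-/

open MeasureTheory Set Filter Topology
open scoped ENNReal NNReal ContDiff

namespace Pool.Agent.U162.MU

open Pool.Agent.H356R3.NS Pool.Agent.U162.TS Pool.Agent.U162.GE Pool.Agent.U162.TS.EL Pool.Agent.U162.TS.VF Pool.Agent.U162.PL

/-- the directions -/
def dir (q : Fin 3 × Fin 3) : K := fun i => (if i = q.1 then 1 else 0) + if i = q.2 then 1 else 0

/-- the coefficients of a symmetric matrix -/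
noncomputable def cfm (R : Fin 3 → Fin 3 → ℝ) (q : Fin 3 × Fin 3) : ℝ :=
  if q.1 = q.2 then (2 * R q.1 q.1 - (R q.1 0 + R q.1 1 + R q.1 2)) / 4 else R q.1 q.2 / 2

lemma nash_alg (R : Fin 3 → Fin 3 → ℝ) (hR : ∀ i j, R i j = R j i) (p p' : Fin 3) :
    ∑ q : Fin 3 × Fin 3, cfm R q * ((dir q p : ℝ) * (dir q p' : ℝ)) = R p p' := by
  rw [Fintype.sum_prod_type]
  simp only [Fin.sum_univ_three]
  unfold cfm dir
  have h1 := hR 0 1
  have h2 := hR 0 2
  have h3 := hR 1 2
  fin_cases p <;> fin_cases p' <;> simp <;> linarith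

lemma sp_const_mul {f : R3 → ℝ} (hf : H459R3.NS.SP f) (c : ℝ) : H459R3.NS.SP fun x => c * f x where
  smooth := contDiff_const.mul hf.smooth
  per := fun j x => by show c * f (x + Pi.single j 1) = c * f x; rw [hf.per j x]

lemma sp_const (c : ℝ) : H459R3.NS.SP fun _ : R3 => c where
  smooth := contDiff_const
  per := fun _ _ => rfl

lemma fr_const_mul (f : R3 → ℝ) (c : ℝ) (l : K) : H459R3.NS.fr (fun x => c * f x) l = c * H459R3.NS.fr f l := by
  unfold H459R3.NS.fr H459R3.NS.fc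
  rw [← integral_const_mul]
  refine integral_congr_ae (Filter.Eventually.of_forall fun x => ?_)
  simp only
  push_cast; ring

lemma fr_add' {f g : R3 → ℝ} (hf : H459R3.NS.SP f) (hg : H459R3.NS.SP g) (l : K) :
    H459R3.NS.fr (fun x => f x + g x) l = H459R3.NS.fr f l + H459R3.NS.fr g l := by
  unfold H459R3.NS.fr H459R3.NS.fc
  have h1 : ∀ {f : R3 → ℝ}, H459R3.NS.SP f → Integrable (fun x => H459R3.NS.ee (-l) x * (f x : ℂ)) (volume.restrict H459R3.NS.cube) :=
    fun hf => H459R3.NS.integrableOn_cube ((H459R3.NS.ee_continuous _).mul (Complex.continuous_ofReal.comp hf.smooth.continuous))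
  rw [← integral_add (h1 hf) (h1 hg)]
  refine integral_congr_ae (Filter.Eventually.of_forall fun x => ?_)
  simp only
  push_cast; ring

lemma fr_const {c : ℝ} {l : K} (hl : l ≠ 0) : H459R3.NS.fr (fun _ : R3 => c) l = 0 := by
  unfold H459R3.NS.fr H459R3.NS.fc
  rw [integral_mul_const, H459R3.NS.integral_ee, if_neg (neg_ne_zero.2 hl), zero_mul]

lemma sp_cfm {R : Fin 3 → Fin 3 → R3 → ℝ} (hR : ∀ i j, H459R3.NS.SP (R i j)) (q : Fin 3 × Fin 3) :
    H459R3.NS.SP fun x => cfm (fun i j => R i j x) q := by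
  unfold cfm
  by_cases h : q.1 = q.2
  · simp only [if_pos h]
    have h1 := ((sp_const_mul (hR q.1 q.1) 2).sub (((hR q.1 0).add (hR q.1 1)).add (hR q.1 2)))
    have h2 := sp_const_mul h1 (1 / 4)
    have e : (fun x => (2 * R q.1 q.1 x - (R q.1 0 x + R q.1 1 x + R q.1 2 x)) / 4)
        = fun x => 1 / 4 * (2 * R q.1 q.1 x - (R q.1 0 x + R q.1 1 x + R q.1 2 x)) := by
      funext x; ring
    rw [e]; exact h2
  · simp only [if_neg h]
    have h2 := sp_const_mul (hR q.1 q.2) (1 / 2)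
    have e : (fun x => R q.1 q.2 x / 2) = fun x => 1 / 2 * R q.1 q.2 x := by
      funext x; ring
    rw [e]; exact h2

/-- multipliers -/
lemma dta_mul {h : K → C3} (hh : Dta h) {c : K → ℝ} (hc : ∀ k, c (-k) = c k) {B : ℝ} (hB : ∀ k, |c k| ≤ B) :
    Dta fun k => c k • h k where
  sum := by
    refine (hh.sum.mul_left B).of_nonneg_of_le (fun _ => norm_nonneg _) fun k => ?_
    rw [norm_smul]
    exact mul_le_mul_of_nonneg_right (hB k) (norm_nonneg _)
  mean := by rw [hh.mean, smul_zero]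
  real := fun k i => by
    simp only [Pi.smul_apply, Complex.real_smul, hh.real, star_mul', hc]
    simp
  div := fun k => by rw [dt_smul', hh.div, mul_zero]
  dec := fun j => by
    obtain ⟨D, hD⟩ := hh.dec j
    refine ⟨B * D, fun k => ?_⟩
    rw [norm_smul]
    have hB0 : 0 ≤ B := (abs_nonneg _).trans (hB k)
    calc nk k ^ j * (‖c k‖ * ‖h k‖) = ‖c k‖ * (nk k ^ j * ‖h k‖) := by ring
      _ ≤ B * D := mul_le_mul (hB k) (hD k) (mul_nonneg (pow_nonneg (nk_nonneg k) j) (norm_nonneg _)) hB0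

lemma one_le_sq' {m : K} (hm : m ≠ 0) : 1 ≤ H356R3.NS.sq m := by
  have h : ∃ i, m i ≠ 0 := by
    by_contra h
    push Not at h
    exact hm (funext h)
  obtain ⟨i, hi⟩ := h
  unfold H356R3.NS.sq
  have h1 : 1 ≤ (m i : ℝ) ^ 2 := by
    have : 1 ≤ |m i| := Int.one_le_abs hi
    have h2 : (1 : ℝ) ≤ |(m i : ℝ)| := by exact_mod_cast this
    rw [← sq_abs]
    nlinarith
  exact h1.trans (Finset.single_le_sum (f := fun i => (m i : ℝ) ^ 2) (fun _ _ => sq_nonneg _) (Finset.mem_univ i))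

/-- every field is the divergence of a combination of rank one matrices with smooth coefficients -/
theorem nash {h : K → C3} (hh : Dta h) : ∃ f : Fin 3 × Fin 3 → R3 → ℝ, (∀ q, H459R3.NS.SP (f q)) ∧
    ∀ l p, -(2 * Real.pi * Complex.I) * ∑ j, (l j : ℂ) * ∑ q, H459R3.NS.fr (f q) l * ((dir q j : ℂ) * (dir q p : ℂ)) = h l p := by
  have hφ : Dta fun k => (1 / (4 * Real.pi ^ 2 * H356R3.NS.sq k)) • h k := by
    refine dta_mul hh (fun k => by rw [H356R3.NS.sq_neg]) (B := 1) fun k => ?_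
    have hp : 0 ≤ 1 / (4 * Real.pi ^ 2 * H356R3.NS.sq k) := by
      have : 0 ≤ H356R3.NS.sq k := by unfold H356R3.NS.sq; positivity
      positivity
    rw [abs_of_nonneg hp]
    by_cases hk : k = 0
    · subst hk
      have : H356R3.NS.sq (0 : K) = 0 := by unfold H356R3.NS.sq; simp
      rw [this]; simp
    · have h1 := one_le_sq' hk
      have h2 : 3 < Real.pi := Real.pi_gt_three
      rw [div_le_one (by positivity)]
      nlinarith
  set φ := fld fun k => (1 / (4 * Real.pi ^ 2 * H356R3.NS.sq k)) • h k with hφd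
  have hsp := fun i => fld_sp hφ i
  have hfφ : ∀ k i, H459R3.NS.fr (fun x => φ x i) k = ((1 / (4 * Real.pi ^ 2 * H356R3.NS.sq k)) • h k) i := fun k i => by
    rw [fr_eq_fc]; exact fld_fc hφ k i
  set R : Fin 3 → Fin 3 → R3 → ℝ := fun i j x => H459R3.NS.pd i (fun y => φ y j) x + H459R3.NS.pd j (fun y => φ y i) x with hR
  have hRsp : ∀ i j, H459R3.NS.SP (R i j) := fun i j => ((hsp j).pd i).add ((hsp i).pd j)
  have hRfr : ∀ i j l, H459R3.NS.fr (R i j) l = 2 * Real.pi * Complex.I * ((l i : ℂ) * ((1 / (4 * Real.pi ^ 2 * H356R3.NS.sq l)) • h l) j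
      + (l j : ℂ) * ((1 / (4 * Real.pi ^ 2 * H356R3.NS.sq l)) • h l) i) := by
    intro i j l
    rw [hR]
    rw [fr_add' ((hsp j).pd i) ((hsp i).pd j), H459R3.NS.fr_pd (hsp j), H459R3.NS.fr_pd (hsp i)]
    unfold H459R3.NS.D
    rw [hfφ, hfφ]
    ring
  refine ⟨fun q x => cfm (fun i j => R i j x) q, fun q => sp_cfm hRsp q, fun l p => ?_⟩
  have h1 : ∀ j, ∑ q, H459R3.NS.fr (fun x => cfm (fun i j => R i j x) q) l * ((dir q j : ℂ) * (dir q p : ℂ)) = H459R3.NS.fr (R j p) l := by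
    intro j
    have e : R j p = fun x => ∑ q : Fin 3 × Fin 3, ((dir q j : ℝ) * (dir q p : ℝ)) * cfm (fun i j => R i j x) q := by
      funext x
      rw [← nash_alg (fun i j => R i j x) (fun i j => by simp only [hR]; ring) j p]
      exact Finset.sum_congr rfl fun q _ => by ring
    rw [e, H459R3.NS.fr_sum (s := Finset.univ) (fun q _ => sp_const_mul (sp_cfm hRsp q) _)]
    refine Finset.sum_congr rfl fun q _ => ?_
    rw [fr_const_mul]
    push_cast
    ring
  simp only [h1, hRfr]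
  by_cases hl : l = 0
  · subst hl
    rw [hh.mean]; simp
  · have hsq := one_le_sq' hl
    have hd := hh.div l
    unfold H356R3.NS.dt at hd
    have e1 : ∑ j, (l j : ℂ) * (2 * Real.pi * Complex.I * ((l j : ℂ) * ((1 / (4 * Real.pi ^ 2 * H356R3.NS.sq l)) • h l) p
        + (l p : ℂ) * ((1 / (4 * Real.pi ^ 2 * H356R3.NS.sq l)) • h l) j))
        = 2 * Real.pi * Complex.I * ((1 / (4 * Real.pi ^ 2 * H356R3.NS.sq l) : ℝ) : ℂ) * ((∑ j, (l j : ℂ) ^ 2) * h l p + (l p : ℂ) * ∑ j, (l j : ℂ) * h l j) := by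
      simp only [Pi.smul_apply, Complex.real_smul]
      rw [Finset.sum_mul, Finset.mul_sum, ← Finset.sum_add_distrib, Finset.mul_sum]
      exact Finset.sum_congr rfl fun j _ => by ring
    rw [e1, hd]
    have e2 : (∑ j, (l j : ℂ) ^ 2) = ((H356R3.NS.sq l : ℝ) : ℂ) := by
      unfold H356R3.NS.sq; push_cast; rfl
    rw [e2]
    have hne : ((H356R3.NS.sq l : ℝ) : ℂ) ≠ 0 := by
      have : H356R3.NS.sq l ≠ 0 := by positivity
      exact_mod_cast this
    have hpi : (Real.pi : ℂ) ≠ 0 := by exact_mod_cast Real.pi_ne_zero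
    have hI : Complex.I ^ 2 = -1 := Complex.I_sq
    push_cast
    field_simp
    rw [hI]
    ring

end Pool.Agent.U162.MU
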