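import Pool.Agent.U162.MU.Wie
import Pool.Agent.H356R3.NS.Final2

/-!
Fields as effects of shear profiles in the six directions `e_i ± e_j`, with bounds
-/

open MeasureTheory Set Filter Topology
open scoped ENNReal NNReal ContDiff

namespace Pool.Agent.U162.MU

open Pool.Agent.H356R3.NS Pool.Agent.U162.TS Pool.Agent.U162.GE Pool.Agent.U162.TS.EL Pool.Agent.U162.TS.VF Pool.Agent.U162.PL

/-- the directions -/
def dir3 (q : Fin 3 × Fin 3) : K := fun i =>
  if q.1 = q.2 then 0 else (if i = q.1 then 1 else 0) + (if q.1 < q.2 then 1 else -1) * if i = q.2 then 1 else 0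

/-- the direction as a real vector -/
def dr3 (q : Fin 3 × Fin 3) : R3 := fun i => (dir3 q i : ℝ)

/-- orthogonal frequencies of length `√17` -/
def m3 (q : Fin 3 × Fin 3) : K := fun i =>
  if q.1 = q.2 then (if i = 0 then 3 else 2) else if i = q.1 then 2 else if i = q.2 then (if q.1 < q.2 then -2 else 2) else 3

lemma m3_sq (q : Fin 3 × Fin 3) : ∑ i, m3 q i ^ 2 = 17 := by
  revert q; decide

lemma m3_dir (q : Fin 3 × Fin 3) : ∑ i, m3 q i * dir3 q i = 0 := by
  revert q; decide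

lemma m3_ne (q : Fin 3 × Fin 3) : m3 q ≠ 0 := by
  intro h
  have := m3_sq q
  rw [h] at this
  simp at this

lemma m3_dr (q : Fin 3 × Fin 3) : ∑ j, (m3 q j : ℝ) * dr3 q j = 0 := by
  unfold dr3
  exact_mod_cast m3_dir q

lemma dr3_le (q : Fin 3 × Fin 3) (i : Fin 3) : |dr3 q i| ≤ if q.1 = q.2 then 0 else 1 := by
  have h : |dir3 q i| ≤ if q.1 = q.2 then 0 else 1 := by
    revert q i; decide
  unfold dr3
  split_ifs with h1
  · rw [if_pos h1] at h
    exact_mod_cast h
  · rw [if_neg h1] at h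
    exact_mod_cast h

lemma nk_m3 (q : Fin 3 × Fin 3) : nk (m3 q) ^ 2 = 17 := by
  rw [H356R3.NS.nk_sq]
  unfold H356R3.NS.sq
  exact_mod_cast m3_sq q

/-- the coefficients of a symmetric matrix without trace -/
noncomputable def cfm3 (R : Fin 3 → Fin 3 → ℝ) (q : Fin 3 × Fin 3) : ℝ :=
  if q.1 = q.2 then 0 else 1 / 2 * ((if q.1 < q.2 then 1 else -1) * R q.1 q.2 + (-1) * R (-(q.1 + q.2)) (-(q.1 + q.2)))

lemma nash_alg3 (R : Fin 3 → Fin 3 → ℝ) (hR : ∀ i j, R i j = R j i) (hT : R 0 0 + R 1 1 + R 2 2 = 0) (p p' : Fin 3) :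
    ∑ q : Fin 3 × Fin 3, cfm3 R q * ((dir3 q p : ℝ) * (dir3 q p' : ℝ)) = R p p' := by
  rw [Fintype.sum_prod_type]
  simp only [Fin.sum_univ_three]
  have e1 : (-(0 + 1) : Fin 3) = 2 := rfl
  have e2 : (-(0 + 2) : Fin 3) = 1 := rfl
  have e3 : (-(1 + 0) : Fin 3) = 2 := rfl
  have e4 : (-(1 + 2) : Fin 3) = 0 := rfl
  have e5 : (-(2 + 0) : Fin 3) = 1 := rfl
  have e6 : (-(2 + 1) : Fin 3) = 0 := rfl
  unfold cfm3 dir3
  simp only [e1, e2, e3, e4, e5, e6]
  have h1 := hR 0 1
  have h2 := hR 0 2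
  have h3 := hR 1 2
  fin_cases p <;> fin_cases p' <;> simp <;> linarith

lemma sp_cfm3 {R : Fin 3 → Fin 3 → R3 → ℝ} (hR : ∀ i j, H459R3.NS.SP (R i j)) (q : Fin 3 × Fin 3) :
    H459R3.NS.SP fun x => cfm3 (fun i j => R i j x) q := by
  unfold cfm3
  by_cases h : q.1 = q.2
  · simp only [if_pos h]
    exact sp_const 0
  · simp only [if_neg h]
    exact sp_const_mul ((sp_const_mul (hR q.1 q.2) _).add (sp_const_mul (hR _ _) (-1))) (1 / 2)

/-- every field is the divergence of a combination of rank one matrices with smooth coefficients -/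
theorem nash3 {h : K → C3} (hh : Dta h) : ∃ f : Fin 3 × Fin 3 → R3 → ℝ, (∀ q, H459R3.NS.SP (f q)) ∧
    (∀ q, An1 (f q) ≤ ENNReal.ofReal (1 / Real.pi) * leiLin h) ∧
    ∀ l p, -(2 * Real.pi * Complex.I) * ∑ j, (l j : ℂ) * ∑ q, H459R3.NS.fr (f q) l * ((dir3 q j : ℂ) * (dir3 q p : ℂ)) = h l p := by
  have hφ : Dta fun k => (1 / (4 * Real.pi ^ 2 * H356R3.NS.sq k)) • h k := by
    refine dta_mul hh (fun k => by rw [H356R3.NS.sq_neg]) (B := 1) fun k => ?_
    have hp : 0 ≤ 1 / (4 * Real.pi ^ 2 * H356R3.NS.sq k) := by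
      have : 0 ≤ H356R3.NS.sq k := by unfold H356R3.NS.sq; positivity
      positivity
    rw [abs_of_nonneg hp]
    by_cases hk : k = 0
    · subst hk
      have : H356R3.NS.sq (0 : K) = 0 := by unfold H356R3.NS.sq; simp
      rw [this]; simp
    · have h1 := one_le_sq' hk
      have h2 : 3 < Real.pi := Real.pi_gt_three
      rw [div_le_one (by positivity)]
      nlinarith
  set φ := fld fun k => (1 / (4 * Real.pi ^ 2 * H356R3.NS.sq k)) • h k with hφd
  have hsp := fun i => fld_sp hφ i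
  have hfφ : ∀ k i, H459R3.NS.fr (fun x => φ x i) k = ((1 / (4 * Real.pi ^ 2 * H356R3.NS.sq k)) • h k) i := fun k i => by
    rw [fr_eq_fc]; exact fld_fc hφ k i
  set R : Fin 3 → Fin 3 → R3 → ℝ := fun i j x => H459R3.NS.pd i (fun y => φ y j) x + H459R3.NS.pd j (fun y => φ y i) x with hR
  have hT : ∀ x, R 0 0 x + R 1 1 x + R 2 2 x = 0 := by
    intro x
    have h1 := (fld_field hφ).divFree x
    rw [Fin.sum_univ_three] at h1
    have h2 : ∀ i, R i i x = 2 * pd i (fun y => φ y i) x := by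
      intro i
      show H459R3.NS.pd i (fun y => φ y i) x + H459R3.NS.pd i (fun y => φ y i) x = _
      rw [two_mul]; rfl
    rw [h2, h2, h2, ← mul_add, ← mul_add, h1, mul_zero]
  have hRsp : ∀ i j, H459R3.NS.SP (R i j) := fun i j => ((hsp j).pd i).add ((hsp i).pd j)
  have hRfr : ∀ i j l, H459R3.NS.fr (R i j) l = 2 * Real.pi * Complex.I * ((l i : ℂ) * ((1 / (4 * Real.pi ^ 2 * H356R3.NS.sq l)) • h l) j
      + (l j : ℂ) * ((1 / (4 * Real.pi ^ 2 * H356R3.NS.sq l)) • h l) i) := by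
    intro i j l
    rw [hR]
    rw [fr_add' ((hsp j).pd i) ((hsp i).pd j), H459R3.NS.fr_pd (hsp j), H459R3.NS.fr_pd (hsp i)]
    unfold H459R3.NS.D
    rw [hfφ, hfφ]
    ring
  have hRA : ∀ i j, An1 (R i j) ≤ ENNReal.ofReal (1 / Real.pi) * leiLin h := by
    intro i j
    unfold An1
    rw [leiLin_eq, ← ENNReal.tsum_mul_left]
    refine ENNReal.tsum_le_tsum fun l => ?_
    rw [hRfr, ← ofReal_norm, ← ofReal_norm, ← ENNReal.ofReal_mul (by have := nk_nonneg l; positivity),
      ← ENNReal.ofReal_mul (by positivity)]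
    apply ENNReal.ofReal_le_ofReal
    by_cases hl : l = 0
    · subst hl
      rw [hh.mean]; simp
    have hn := nk_pos hl
    have hsq : H356R3.NS.sq l = nk l ^ 2 := (H356R3.NS.nk_sq l).symm
    have hb : ∀ i' j', ‖(l i' : ℂ) * ((1 / (4 * Real.pi ^ 2 * H356R3.NS.sq l)) • h l) j'‖ ≤ nk l * (1 / (4 * Real.pi ^ 2 * nk l ^ 2) * ‖h l‖) := by
      intro i' j'
      rw [norm_mul, Complex.norm_intCast]
      refine mul_le_mul (abs_le_nk l i') ?_ (norm_nonneg _) hn.le
      rw [Pi.smul_apply, norm_smul, Real.norm_of_nonneg (by rw [hsq]; positivity), hsq]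
      exact mul_le_mul_of_nonneg_left (norm_le_pi_norm _ j') (by positivity)
    have h2 : (3 : ℝ) < Real.pi := Real.pi_gt_three
    calc ‖2 * Real.pi * Complex.I * ((l i : ℂ) * ((1 / (4 * Real.pi ^ 2 * H356R3.NS.sq l)) • h l) j
          + (l j : ℂ) * ((1 / (4 * Real.pi ^ 2 * H356R3.NS.sq l)) • h l) i)‖
        ≤ 2 * Real.pi * (nk l * (1 / (4 * Real.pi ^ 2 * nk l ^ 2) * ‖h l‖) + nk l * (1 / (4 * Real.pi ^ 2 * nk l ^ 2) * ‖h l‖)) := by
          rw [norm_mul]
          have e1 : ‖2 * (Real.pi : ℂ) * Complex.I‖ = 2 * Real.pi := by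
            rw [norm_mul, norm_mul, Complex.norm_I, Complex.norm_real]
            simp [abs_of_pos Real.pi_pos]
          rw [e1]
          exact mul_le_mul_of_nonneg_left ((norm_add_le _ _).trans (add_le_add (hb i j) (hb j i))) (by positivity)
      _ = 1 / Real.pi * (1 / nk l * ‖h l‖) := by field_simp; ring
  have hfA : ∀ q, An1 (fun x => cfm3 (fun i j => R i j x) q) ≤ ENNReal.ofReal (1 / Real.pi) * leiLin h := by
    intro q
    set L := leiLin h with hL
    by_cases hq : q.1 = q.2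
    · have e : (fun x => cfm3 (fun i j => R i j x) q) = fun _ => 0 := by
        funext x
        unfold cfm3
        rw [if_pos hq]
      rw [e, An1_const]
      simp
    · have e : (fun x => cfm3 (fun i j => R i j x) q) = fun x => 1 / 2 * ((if q.1 < q.2 then (1 : ℝ) else -1) * R q.1 q.2 x
          + (-1) * R (-(q.1 + q.2)) (-(q.1 + q.2)) x) := by
        funext x
        unfold cfm3
        rw [if_neg hq]
      have e1 : |(if q.1 < q.2 then (1 : ℝ) else -1)| = 1 := by split_ifs <;> simp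
      rw [e, An1_const_mul, abs_of_pos (by norm_num)]
      refine (mul_le_mul' le_rfl (An1_add (sp_const_mul (hRsp q.1 q.2) _) (sp_const_mul (hRsp _ _) (-1)))).trans ?_
      rw [An1_const_mul, An1_const_mul, e1, abs_neg, abs_one, ENNReal.ofReal_one, one_mul, one_mul]
      refine (mul_le_mul' le_rfl (add_le_add (hRA _ _) (hRA _ _))).trans (le_of_eq ?_)
      rw [← two_mul, ← mul_assoc]
      have : ENNReal.ofReal (1 / 2) * 2 = 1 := by
        rw [show (2 : ℝ≥0∞) = ENNReal.ofReal 2 by norm_num, ← ENNReal.ofReal_mul (by norm_num)]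
        norm_num
      rw [this, one_mul]
  refine ⟨fun q x => cfm3 (fun i j => R i j x) q, fun q => sp_cfm3 hRsp q, hfA, fun l p => ?_⟩
  have h1 : ∀ j, ∑ q, H459R3.NS.fr (fun x => cfm3 (fun i j => R i j x) q) l * ((dir3 q j : ℂ) * (dir3 q p : ℂ)) = H459R3.NS.fr (R j p) l := by
    intro j
    have e : R j p = fun x => ∑ q : Fin 3 × Fin 3, ((dir3 q j : ℝ) * (dir3 q p : ℝ)) * cfm3 (fun i j => R i j x) q := by
      funext x
      rw [← nash_alg3 (fun i j => R i j x) (fun i j => by simp only [hR]; ring) (hT x) j p]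
      exact Finset.sum_congr rfl fun q _ => by ring
    rw [e, H459R3.NS.fr_sum (s := Finset.univ) (fun q _ => sp_const_mul (sp_cfm3 hRsp q) _)]
    refine Finset.sum_congr rfl fun q _ => ?_
    rw [fr_const_mul]
    push_cast
    ring
  simp only [h1, hRfr]
  by_cases hl : l = 0
  · subst hl
    rw [hh.mean]; simp
  · have hsq := one_le_sq' hl
    have hd := hh.div l
    unfold H356R3.NS.dt at hd
    have e1 : ∑ j, (l j : ℂ) * (2 * Real.pi * Complex.I * ((l j : ℂ) * ((1 / (4 * Real.pi ^ 2 * H356R3.NS.sq l)) • h l) p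
        + (l p : ℂ) * ((1 / (4 * Real.pi ^ 2 * H356R3.NS.sq l)) • h l) j))
        = 2 * Real.pi * Complex.I * ((1 / (4 * Real.pi ^ 2 * H356R3.NS.sq l) : ℝ) : ℂ) * ((∑ j, (l j : ℂ) ^ 2) * h l p + (l p : ℂ) * ∑ j, (l j : ℂ) * h l j) := by
      simp only [Pi.smul_apply, Complex.real_smul]
      rw [Finset.sum_mul, Finset.mul_sum, ← Finset.sum_add_distrib, Finset.mul_sum]
      exact Finset.sum_congr rfl fun j _ => by ring
    rw [e1, hd]
    have e2 : (∑ j, (l j : ℂ) ^ 2) = ((H356R3.NS.sq l : ℝ) : ℂ) := by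
      unfold H356R3.NS.sq; push_cast; rfl
    rw [e2]
    have hne : ((H356R3.NS.sq l : ℝ) : ℂ) ≠ 0 := by
      have : H356R3.NS.sq l ≠ 0 := by positivity
      exact_mod_cast this
    have hpi : (Real.pi : ℂ) ≠ 0 := by exact_mod_cast Real.pi_ne_zero
    have hI : Complex.I ^ 2 = -1 := Complex.I_sq
    push_cast
    field_simp
    rw [hI]
    ring

end Pool.Agent.U162.MU
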