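import Pool.Agent.U162.MU.Ua
import Pool.Agent.U162.GE.Fin

/-!
The uniform two-scale theorem for smooth solutions
-/

open MeasureTheory Set Filter Topology
open scoped ENNReal NNReal ContDiff

namespace Pool.Agent.U162.GE

open Pool.Agent.H356R3.NS Pool.Agent.U162.TS Pool.Agent.U162.TS.EL Pool.Agent.U162.TS.VF Pool.Agent.U162.TS.Ph Pool.Agent.U162.PL

/-- the Fourier coefficients of a series -/
lemma XF_series {u : Fam} (hd : Dom u) (hs : SymF u) (hm : ∀ k t, u k t = u k (max t 0)) :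
    Ph.XF (fun t x i => (∑' k, u k t i * ex k x).re) = u := by
  funext k t i
  unfold Ph.XF Pool.Agent.Q63.Win.cof
  rw [fr_series ?_ (fun k => hs (max t 0) k i), ← hm]
  exact (show Summable fun k => ‖u k (max t 0)‖ from hd.sn (max t 0)).of_nonneg_of_le (fun _ => norm_nonneg _)
    fun k => norm_le_pi_norm (u k (max t 0)) i

/-- the size of a solution -/
noncomputable def size (v : ℝ → R3 → R3) : ℝ≥0∞ := LN (fun t => NW (Wa 0) (at' (Ph.XF v) t))

/-- sums of data -/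
lemma dta_add {a b : K → C3} (ha : Dta a) (hb : Dta b) : Dta fun k => a k + b k where
  sum := (ha.sum.add hb.sum).of_nonneg_of_le (fun _ => norm_nonneg _) fun k => norm_add_le _ _
  mean := by rw [ha.mean, hb.mean, add_zero]
  real := fun k i => by rw [Pi.add_apply, Pi.add_apply, ha.real, hb.real, star_add]
  div := fun k => by rw [dt_add', ha.div, hb.div, add_zero]
  dec := fun j => by
    obtain ⟨A, hA⟩ := ha.dec j
    obtain ⟨B, hB⟩ := hb.dec j
    refine ⟨A + B, fun k => ?_⟩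
    calc nk k ^ j * ‖a k + b k‖ ≤ nk k ^ j * (‖a k‖ + ‖b k‖) :=
          mul_le_mul_of_nonneg_left (norm_add_le _ _) (pow_nonneg (nk_nonneg k) j)
      _ = nk k ^ j * ‖a k‖ + nk k ^ j * ‖b k‖ := by ring
      _ ≤ A + B := add_le_add (hA k) (hB k)

/-- multiples of data -/
lemma dta_smul {a : K → C3} (ha : Dta a) (r : ℝ) : Dta fun k => r • a k where
  sum := by
    have := ha.sum.mul_left ‖r‖
    simpa only [norm_smul] using this
  mean := by rw [ha.mean, smul_zero]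
  real := fun k i => by
    simp only [Pi.smul_apply, Complex.real_smul, ha.real, star_mul']
    simp
  div := fun k => by rw [dt_smul', ha.div, mul_zero]
  dec := fun j => by
    obtain ⟨A, hA⟩ := ha.dec j
    refine ⟨‖r‖ * A, fun k => ?_⟩
    rw [norm_smul]
    calc nk k ^ j * (‖r‖ * ‖a k‖) = ‖r‖ * (nk k ^ j * ‖a k‖) := by ring
      _ ≤ _ := mul_le_mul_of_nonneg_left (hA k) (norm_nonneg r)

/-- the Leray projection of a smooth periodic field -/
lemma proj_dta {h : R3 → R3} (hh : ∀ i, H459R3.NS.SP fun x => h x i) :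
    Dta fun k => if k = 0 then 0 else pr k (H356R3.NS.fc h k) := by
  have hfc : ∀ k i, H356R3.NS.fc h k i = H459R3.NS.fr (fun x => h x i) k := fun k i => (fr_eq_fc h k i).symm
  have hreal : ∀ k i, H356R3.NS.fc h (-k) i = star (H356R3.NS.fc h k i) := fun k i => by
    rw [hfc, hfc, Pool.Agent.Q63.Win.fr_neg (hh i).smooth.continuous]
    rfl
  have hdec : ∀ j : ℕ, ∃ D : ℝ, ∀ k, nk k ^ j * ‖(if k = 0 then 0 else pr k (H356R3.NS.fc h k) : C3)‖ ≤ D := by
    intro j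
    choose C hC0 hC using fun i => fr_dec (hh i) j
    refine ⟨4 * ∑ i, C i, fun k => ?_⟩
    have hb : ‖H356R3.NS.fc h k‖ ≤ ∑ i, ‖H459R3.NS.fr (fun x => h x i) k‖ := by
      rw [pi_norm_le_iff_of_nonneg (Finset.sum_nonneg fun _ _ => norm_nonneg _)]
      intro i
      rw [hfc]
      exact Finset.single_le_sum (f := fun i => ‖H459R3.NS.fr (fun x => h x i) k‖) (fun _ _ => norm_nonneg _)
        (Finset.mem_univ i)
    have h0 : ‖(if k = 0 then 0 else pr k (H356R3.NS.fc h k) : C3)‖ ≤ 4 * ‖H356R3.NS.fc h k‖ := by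
      split_ifs
      · rw [norm_zero]; positivity
      · exact leray_norm _ _
    have hp := pow_nonneg (nk_nonneg k) j
    calc nk k ^ j * ‖(if k = 0 then 0 else pr k (H356R3.NS.fc h k) : C3)‖
        ≤ nk k ^ j * (4 * ∑ i, ‖H459R3.NS.fr (fun x => h x i) k‖) :=
          mul_le_mul_of_nonneg_left (h0.trans (by linarith)) hp
      _ = 4 * ∑ i, nk k ^ j * ‖H459R3.NS.fr (fun x => h x i) k‖ := by rw [Finset.mul_sum, Finset.mul_sum, Finset.mul_sum]; exact Finset.sum_congr rfl fun i _ => by ring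
      _ ≤ _ := mul_le_mul_of_nonneg_left (Finset.sum_le_sum fun i _ => hC i k) (by norm_num)
  refine ⟨summ_of_dec (if_pos rfl) hdec, if_pos rfl, fun k i => ?_, fun k => ?_, hdec⟩
  · by_cases hk : k = 0
    · subst hk; simp
    · rw [if_neg hk, if_neg (neg_ne_zero.2 hk)]
      exact pr_sym (fun i => hreal k i) k i
  · split_ifs
    · rw [dt_eq]; simp
    · exact dt_pr _ _

/-- the oscillating field of a profile -/
lemma osc_sp {V : R3 → R3 → R3} (hV : Profile V) (N : ℕ) (i : Fin 3) :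
    H459R3.NS.SP fun x => V x ((N : ℝ) • x) i where
  smooth := by
    have h1 : ContDiff ℝ ∞ fun x : R3 => V x ((N : ℝ) • x) :=
      hV.smooth.comp (contDiff_id.prodMk (contDiff_const_smul (N : ℝ)))
    exact (contDiff_pi.1 h1) i
  per := fun j x => by
    have h1 : ∀ (n : ℕ) (x y : R3), V x (y + (n : ℝ) • Pi.single j 1) = V x y := by
      intro n x y
      induction n with
      | zero => simp
      | succ n ih =>
        rw [← ih]
        have e : y + ((n + 1 : ℕ) : ℝ) • (Pi.single j 1 : R3) = (y + (n : ℝ) • Pi.single j 1) + Pi.single j 1 := by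
          push_cast
          rw [add_smul, one_smul]; abel
        rw [e, (hV.field x).periodic]
    show V (x + Pi.single j 1) ((N : ℝ) • (x + Pi.single j 1)) i = V x ((N : ℝ) • x) i
    rw [smul_add, h1, hV.periodic]

/-- the coefficients of the data `a(x) + N P[V(x, N x)]` -/
noncomputable def mixc (a : R3 → R3) (V : R3 → R3 → R3) (N : ℕ) (k : K) : C3 :=
  H356R3.NS.fc a k + (N : ℝ) • (if k = 0 then 0 else pr k (H356R3.NS.fc (fun x => V x ((N : ℝ) • x)) k))

lemma mixc_dta {a : R3 → R3} {V : R3 → R3 → R3} (ha : Field a) (hV : Profile V) (N : ℕ) : Dta (mixc a V N) :=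
  dta_add ha.dta (dta_smul (proj_dta fun i => osc_sp hV N i) N)

lemma mixc_eq {a : R3 → R3} {V : R3 → R3 → R3} {N : ℕ} {k : K} (hk : k ≠ 0) : mixc a V N k = mix a V N k := by
  unfold mixc
  rw [if_neg hk]
  funext i
  unfold mix
  rw [leray_eq, Pi.add_apply, Pi.smul_apply, Complex.real_smul]
  push_cast
  rfl

variable {ν : ℝ} {V : R3 → R3 → R3} {W : R3 → ℝ → R3 → R3} {Q : R3 → ℝ → R3 → ℝ}

/-- the effect of the flows of a profile is a smooth field -/
theorem push_dta (hν : 0 < ν) (hV : Profile V) (hW : ∀ x, AdmissiblePeriodic ν (V x) (W x) (Q x)) :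
    Dta fun k i => push W k i := by
  have hc : 0 < 4 * Real.pi ^ 2 * ν := by positivity
  have hG' : ∀ x, Ph.Glob ν (W x) (Q x) := fun x => glob_of_adm (hW x) (hV.field x).mean
  obtain ⟨z, hz1, hz2, _⟩ := family' hc hν rfl hV hW
  have hsp := (UV_fu hc hV).spv hz2
  have h0 : Dta (fun _ : K => (0 : C3)) := ⟨by simp, rfl, fun k i => by simp, fun k => by rw [dt_eq]; simp,
    fun j => ⟨0, fun k => by simp⟩⟩
  have := push_dta' hc hG' hsp hz1 h0
  simpa using this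

/-- the two-scale theorem, with uniform constants -/
theorem phys_uni (hν : 0 < ν) (hV : Profile V) (hW : ∀ x, AdmissiblePeriodic ν (V x) (W x) (Q x)) :
    ∃ D2 : ℝ, 0 ≤ D2 ∧ ∀ D1 : ℝ, 0 ≤ D1 → ∀ ε : ℝ, 0 < ε → ∃ ρ : ℝ, 0 < ρ ∧
      ∀ {g : R3 → R3} {v : ℝ → R3 → R3} {p : ℝ → R3 → ℝ}, Field g → AdmissiblePeriodic ν g v p →
        size v ≤ ENNReal.ofReal D1 → ∀ {a : R3 → R3}, Field a →
        (∀ l i, H356R3.NS.fc g l i = H356R3.NS.fc a l i + push W l i) →
        ∃ N0 : ℕ, ∀ N : ℕ, N0 ≤ N → ∀ u₀ : R3 → R3, Field u₀ →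
          heatSq ν (fun k i => H356R3.NS.fc u₀ k i - mix a V N k i) ≤ ENNReal.ofReal (ρ ^ 2) →
          ∃ u q, AdmissiblePeriodic ν u₀ u q ∧ size u ≤ ENNReal.ofReal (D1 + D2 + 1) ∧
            LNd ε (Ph.XF u - Ph.XF v) ≤ ENNReal.ofReal ε ∧ CloseAfter ε u v ∧ CloseTwoScale ε N u v W := by
  have hc : 0 < 4 * Real.pi ^ 2 * ν := by positivity
  have hG' : ∀ x, Ph.Glob ν (W x) (Q x) := fun x => glob_of_adm (hW x) (hV.field x).mean
  obtain ⟨z, hz1, hz2, hz3⟩ := family' hc hν rfl hV hW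
  have hFU := UV_fu hc hV
  have hsp := hFU.spv hz2
  obtain ⟨hfl, h0⟩ := hFU.flow hV.pg hz2 hz3
  have hL2 : LN (fun s => ∑' P, ‖WW (4 * Real.pi ^ 2 * ν) z P s‖ₑ) ≠ ⊤ := by
    unfold LN
    refine ENNReal.rpow_ne_top_of_nonneg (by norm_num) ?_
    have := hfl.l2
    simpa only [ENNReal.rpow_two, pow_two] using this
  refine ⟨(LN (fun s => ∑' P, ‖WW (4 * Real.pi ^ 2 * ν) z P s‖ₑ)).toReal, ENNReal.toReal_nonneg, fun D1 hD1 ε hε => ?_⟩
  have m3 : 0 < min ε 1 := lt_min hε one_pos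
  obtain ⟨ρ, hρ, hall⟩ := two_scale_alu hν hc rfl hD1 (ENNReal.toReal_nonneg (a := LN (fun s => ∑' P, ‖WW (4 * Real.pi ^ 2 * ν) z P s‖ₑ)))
    (half_pos m3)
  refine ⟨ρ, hρ, fun {g v p} hg hvp hsz {a} ha hga => ?_⟩
  have hGv := glob_of_adm hvp hg.mean
  have hX := hGv.flowC hν
  have hX0 : ∀ k, Ph.XF v k 0 = H356R3.NS.fc a k + Kick (WW (4 * Real.pi ^ 2 * ν) z) k := by
    intro k
    funext i
    rw [Pi.add_apply, ← push_eq' hc hν hG' hsp hz1 hfl, ← hga k i, ← fr_eq_fc]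
    unfold Ph.XF Pool.Agent.Q63.Win.cof
    rw [max_self, hvp.initial]
  have hat : ∑' k, ‖H356R3.NS.fc a k‖ₑ ≠ ⊤ := by
    have e : ∑' k, ‖H356R3.NS.fc a k‖ₑ = ENNReal.ofReal (∑' k, ‖H356R3.NS.fc a k‖) := by
      rw [ENNReal.ofReal_tsum_of_nonneg (fun _ => norm_nonneg _) ha.dta.sum]
      simp
    rw [e]; exact ENNReal.ofReal_ne_top
  have hbt : ∑' P : K × K, ENNReal.ofReal (1 + nk P.1) * ‖WW (4 * Real.pi ^ 2 * ν) z P 0‖ₑ ≠ ⊤ := by
    have hs := (hV.summ 1).mul_left 3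
    have e : ∀ P : K × K, ENNReal.ofReal (1 + nk P.1) * ‖WW (4 * Real.pi ^ 2 * ν) z P 0‖ₑ
        ≤ ENNReal.ofReal (3 * ((1 + (H459R3.NS.N P.1 : ℝ)) ^ 1 * ‖bV V P‖)) := by
      intro P
      rw [h0, ← ofReal_norm, ← ENNReal.ofReal_mul (by have := nk_nonneg P.1; positivity)]
      apply ENNReal.ofReal_le_ofReal
      have h1 := nk_le_N P.1
      rw [pow_one, ← mul_assoc]
      refine mul_le_mul_of_nonneg_right ?_ (norm_nonneg _)
      linarith
    refine ne_top_of_le_ne_top ?_ (ENNReal.tsum_le_tsum e)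
    rw [← ENNReal.ofReal_tsum_of_nonneg (fun P => by positivity) hs]
    exact ENNReal.ofReal_ne_top
  obtain ⟨F, hFw, N0, hN0⟩ := hall hX hsz hfl (by rw [ENNReal.ofReal_toReal hL2]) hat hbt hX0 hε
  refine ⟨max N0 1, fun N hN u₀ hu₀ hclose => ?_⟩
  have hN1 := (le_max_left _ _).trans hN
  have hN2 := (le_max_right _ _).trans hN
  have hHN : HN (4 * Real.pi ^ 2 * ν) ((fun k => H356R3.NS.fc u₀ k)
      - DN (fun k => H356R3.NS.fc a k) (fun P => WW (4 * Real.pi ^ 2 * ν) z P 0) N) ≤ ENNReal.ofReal ρ := by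
    refine HN_heat ?_ (fun k hk => ?_) hρ.le hclose
    · rw [Pi.sub_apply, hu₀.dta.mean]
      unfold DN
      rw [if_pos rfl, sub_zero]
    · have e : (fun P => WW (4 * Real.pi ^ 2 * ν) z P 0) = bV V := funext h0
      rw [Pi.sub_apply, e, ← mix_eq hV a N hk]
      rfl
  obtain ⟨y, hy1, hy2, hy3, hy4⟩ := hN0 N hN1 (fun k => H356R3.NS.fc u₀ k) hu₀.dta hHN
  have hadm := adm_of_sol' hc rfl hu₀.dta hy1
  have e0 : (fun (x : R3) i => (∑' k, H356R3.NS.fc u₀ k i * ch k x).re) = u₀ := hu₀.eq_fld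
  rw [e0] at hadm
  refine ⟨_, _, hadm, ?_, ?_, ?_, ?_⟩
  · unfold size
    rw [XF_series (XX_dom hc y) (XX_sym hc hu₀.dta hy1) (XX_max y)]
    refine hy4.trans (ENNReal.ofReal_le_ofReal ?_)
    have : min ε 1 ≤ 1 := min_le_right _ _
    linarith
  · rw [XF_series (XX_dom hc y) (XX_sym hc hu₀.dta hy1) (XX_max y)]
    refine hy2.trans (ENNReal.ofReal_le_ofReal ?_)
    have : min ε 1 ≤ ε := min_le_left _ _
    linarith
  · exact close_after hGv (XX_dom hc y) (fun t x i => rfl) hε hy2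
  · exact close_two hGv hX.cf (XX_cf y) (XX_dom hc y) (fun t x i => rfl) hfl
      (fun x s y i hs => WW_series' hG' hsp hz1 hfl x s y i hs) hN2 hε hFw hy3

end Pool.Agent.U162.GE
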