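import Pool.Agent.U162.MU.Fin

/-!
Shear profiles
-/

open MeasureTheory Set Filter Topology
open scoped ENNReal NNReal ContDiff

namespace Pool.Agent.U162.MU

open Pool.Agent.H356R3.NS Pool.Agent.U162.TS Pool.Agent.U162.GE Pool.Agent.U162.TS.EL Pool.Agent.U162.TS.VF Pool.Agent.U162.PL

/-- the phase of the waves -/
lemma Al_single (m : K) (j : Fin 3) : Al m (Pi.single j 1) = 2 * Real.pi * (m j : ℝ) := by
  rw [Al_apply, Finset.sum_eq_single j]
  · simp
  · intro b _ hb; simp [hb]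
  · intro h; exact absurd (Finset.mem_univ j) h

lemma pd_cos (B : ℝ) (m : K) (j : Fin 3) :
    H356R3.NS.pd j (fun y => B * Real.cos (Al m y)) = fun y => -(B * (2 * Real.pi * (m j : ℝ))) * Real.sin (Al m y) := by
  funext y
  unfold H356R3.NS.pd
  have h : HasFDerivAt (fun y => B * Real.cos (Al m y)) (B • (-Real.sin (Al m y) • Al m)) y :=
    ((Al m).hasFDerivAt.cos).const_mul B
  rw [h.fderiv]
  simp only [ContinuousLinearMap.smul_apply, smul_eq_mul, Al_single]
  ring

lemma pd_sin (B : ℝ) (m : K) (j : Fin 3) :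
    H356R3.NS.pd j (fun y => B * Real.sin (Al m y)) = fun y => (B * (2 * Real.pi * (m j : ℝ))) * Real.cos (Al m y) := by
  funext y
  unfold H356R3.NS.pd
  have h : HasFDerivAt (fun y => B * Real.sin (Al m y)) (B • (Real.cos (Al m y) • Al m)) y :=
    ((Al m).hasFDerivAt.sin).const_mul B
  rw [h.fderiv]
  simp only [ContinuousLinearMap.smul_apply, smul_eq_mul, Al_single]
  ring

/-- the shear wave -/
noncomputable def sh (ν A : ℝ) (m : K) (ξ : R3) (t : ℝ) (y : R3) : R3 := fun i =>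
  (A * Real.exp (-(4 * Real.pi ^ 2 * ν * H356R3.NS.sq m * t)) * ξ i) * Real.cos (Al m y)

lemma Al_per (m : K) (y : R3) (j : Fin 3) : Real.cos (Al m (y + Pi.single j 1)) = Real.cos (Al m y) := by
  rw [map_add, Al_single]
  have : Al m y + 2 * Real.pi * (m j : ℝ) = Al m y + (m j : ℝ) * (2 * Real.pi) := by ring
  rw [this, Real.cos_add_int_mul_two_pi]

/-- shear waves are solutions -/
theorem sh_adm (ν A : ℝ) {m : K} {ξ : R3} (hξ : ∑ j, (m j : ℝ) * ξ j = 0) :
    AdmissiblePeriodic ν (sh ν A m ξ 0) (sh ν A m ξ) (fun _ _ => 0) where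
  smooth_u := by
    apply ContDiff.contDiffOn
    rw [contDiff_pi]
    intro i
    unfold sh
    have h1 : ContDiff ℝ ∞ fun z : ℝ × R3 => Real.exp (-(4 * Real.pi ^ 2 * ν * H356R3.NS.sq m * z.1)) := by fun_prop
    have h2 : ContDiff ℝ ∞ fun z : ℝ × R3 => Real.cos (Al m z.2) := ((Al m).contDiff.comp contDiff_snd).cos
    exact ((contDiff_const.mul h1).mul contDiff_const).mul h2
  smooth_p := contDiffOn_const
  periodic_u := fun t _ y j => by
    funext i
    unfold sh
    rw [Al_per]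
  periodic_p := fun _ _ _ _ => rfl
  momentum := fun t ht y i => by
    have hpd : ∀ j, H356R3.NS.pd j (fun y => sh ν A m ξ t y i)
        = fun y => -((A * Real.exp (-(4 * Real.pi ^ 2 * ν * H356R3.NS.sq m * t)) * ξ i) * (2 * Real.pi * (m j : ℝ))) * Real.sin (Al m y) :=
      fun j => pd_cos _ m j
    have hpd2 : ∀ j, H356R3.NS.pd j (H356R3.NS.pd j (fun y => sh ν A m ξ t y i))
        = fun y => (-((A * Real.exp (-(4 * Real.pi ^ 2 * ν * H356R3.NS.sq m * t)) * ξ i) * (2 * Real.pi * (m j : ℝ))) * (2 * Real.pi * (m j : ℝ))) * Real.cos (Al m y) :=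
      fun j => by rw [hpd]; exact pd_sin _ m j
    have hp0 : H356R3.NS.pd i (fun _ : R3 => (0 : ℝ)) y = 0 := by simp [H356R3.NS.pd]
    have hd : derivWithin (fun s => sh ν A m ξ s y i) (Ici 0) t
        = -(4 * Real.pi ^ 2 * ν * H356R3.NS.sq m) * sh ν A m ξ t y i := by
      have h1 : HasDerivAt (fun s => sh ν A m ξ s y i) (-(4 * Real.pi ^ 2 * ν * H356R3.NS.sq m) * sh ν A m ξ t y i) t := by
        unfold sh
        have h0 : HasDerivAt (fun s : ℝ => -(4 * Real.pi ^ 2 * ν * H356R3.NS.sq m * s)) (-(4 * Real.pi ^ 2 * ν * H356R3.NS.sq m * 1)) t :=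
          ((hasDerivAt_id t).const_mul _).neg
        refine (((h0.exp.const_mul A).mul_const (ξ i)).mul_const (Real.cos (Al m y))).congr_deriv ?_
        ring
      exact h1.hasDerivWithinAt.derivWithin (uniqueDiffOn_Ici 0 t ht)
    have hs2 : ∑ j, H356R3.NS.pd j (H356R3.NS.pd j (fun y => sh ν A m ξ t y i)) y
        = ∑ j, (-((A * Real.exp (-(4 * Real.pi ^ 2 * ν * H356R3.NS.sq m * t)) * ξ i) * (2 * Real.pi * (m j : ℝ))) * (2 * Real.pi * (m j : ℝ))) * Real.cos (Al m y) :=
      Finset.sum_congr rfl fun j _ => by rw [hpd2 j]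
    rw [hd, hp0, hs2]
    simp only [hpd]
    have e1 : ∑ j, sh ν A m ξ t y j * (-((A * Real.exp (-(4 * Real.pi ^ 2 * ν * H356R3.NS.sq m * t)) * ξ i) * (2 * Real.pi * (m j : ℝ))) * Real.sin (Al m y)) = 0 := by
      have : ∀ j, sh ν A m ξ t y j * (-((A * Real.exp (-(4 * Real.pi ^ 2 * ν * H356R3.NS.sq m * t)) * ξ i) * (2 * Real.pi * (m j : ℝ))) * Real.sin (Al m y))
          = ((A * Real.exp (-(4 * Real.pi ^ 2 * ν * H356R3.NS.sq m * t))) * Real.cos (Al m y) * (-((A * Real.exp (-(4 * Real.pi ^ 2 * ν * H356R3.NS.sq m * t)) * ξ i) * (2 * Real.pi)) * Real.sin (Al m y))) * ((m j : ℝ) * ξ j) := by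
        intro j
        unfold sh
        ring
      simp only [this]
      rw [← Finset.mul_sum, hξ, mul_zero]
    rw [e1]
    have e2 : ∑ j, (-((A * Real.exp (-(4 * Real.pi ^ 2 * ν * H356R3.NS.sq m * t)) * ξ i) * (2 * Real.pi * (m j : ℝ))) * (2 * Real.pi * (m j : ℝ))) * Real.cos (Al m y)
        = -(4 * Real.pi ^ 2 * H356R3.NS.sq m) * sh ν A m ξ t y i := by
      have e3 : ∀ j, (-((A * Real.exp (-(4 * Real.pi ^ 2 * ν * H356R3.NS.sq m * t)) * ξ i) * (2 * Real.pi * (m j : ℝ))) * (2 * Real.pi * (m j : ℝ))) * Real.cos (Al m y)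
          = -(4 * Real.pi ^ 2 * sh ν A m ξ t y i) * (m j : ℝ) ^ 2 := by
        intro j; unfold sh; ring
      simp only [e3]
      rw [← Finset.mul_sum]
      unfold H356R3.NS.sq
      ring
    rw [e2]
    ring
  divFree := fun t _ y => by
    have hpd : ∀ i, H356R3.NS.pd i (fun y => sh ν A m ξ t y i)
        = fun y => -((A * Real.exp (-(4 * Real.pi ^ 2 * ν * H356R3.NS.sq m * t)) * ξ i) * (2 * Real.pi * (m i : ℝ))) * Real.sin (Al m y) :=
      fun i => pd_cos _ m i
    simp only [hpd]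
    have : ∀ i, -((A * Real.exp (-(4 * Real.pi ^ 2 * ν * H356R3.NS.sq m * t)) * ξ i) * (2 * Real.pi * (m i : ℝ))) * Real.sin (Al m y)
        = (-((A * Real.exp (-(4 * Real.pi ^ 2 * ν * H356R3.NS.sq m * t))) * (2 * Real.pi)) * Real.sin (Al m y)) * ((m i : ℝ) * ξ i) := by
      intro i; ring
    simp only [this]
    rw [← Finset.mul_sum, hξ, mul_zero]
  initial := rfl

/-- the mean of the waves vanishes -/
lemma int_cos {m : K} (hm : m ≠ 0) : ∫ y in Icc (0 : R3) 1, Real.cos (Al m y) = 0 := by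
  have h1 : ∀ y : R3, Real.cos (Al m y) = (H459R3.NS.ee m y).re := by
    intro y
    rw [ee_Al, Complex.exp_ofReal_mul_I_re]
  have h2 := H459R3.NS.integral_ee m
  rw [if_neg hm] at h2
  have h3 : Integrable (fun y => H459R3.NS.ee m y) (volume.restrict H459R3.NS.cube) :=
    H459R3.NS.integrableOn_cube (H459R3.NS.ee_continuous m)
  have h4 := integral_re (𝕜 := ℂ) h3
  simp only [h1]
  show ∫ y in H459R3.NS.cube, (H459R3.NS.ee m y).re = 0
  have h5 : ∫ y in H459R3.NS.cube, (H459R3.NS.ee m y).re = RCLike.re (∫ y in H459R3.NS.cube, H459R3.NS.ee m y) := h4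
  rw [h5, h2]; simp

/-- the mean of the square of the waves -/
lemma int_cos_sq {m : K} (hm : m ≠ 0) : ∫ y in Icc (0 : R3) 1, Real.cos (Al m y) ^ 2 = 1 / 2 := by
  have h1 : ∀ y : R3, Real.cos (Al m y) ^ 2 = 1 / 2 + 1 / 2 * Real.cos (Al (m + m) y) := by
    intro y
    have : Al (m + m) y = 2 * Al m y := by
      rw [Al_apply, Al_apply, Finset.mul_sum]
      refine Finset.sum_congr rfl fun i _ => ?_
      rw [Pi.add_apply]; push_cast; ring
    rw [this, Real.cos_two_mul]; ring
  have hmm : m + m ≠ 0 := by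
    intro h
    apply hm
    funext i
    have := congrFun h i
    rw [Pi.add_apply, Pi.zero_apply] at this
    rw [Pi.zero_apply]; omega
  have hcc : ∀ n : K, IntegrableOn (fun y : R3 => Real.cos (Al n y)) (Icc (0 : R3) 1) := by
    intro n
    have hcont : Continuous fun y : R3 => Real.cos (Al n y) := Real.continuous_cos.comp (Al n).continuous
    exact hcont.integrableOn_Icc
  simp only [h1]
  rw [integral_add (by
    have : Continuous fun _ : R3 => (1 / 2 : ℝ) := continuous_const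
    exact this.integrableOn_Icc) ((hcc (m + m)).const_mul _), integral_const_mul, int_cos hmm]
  have hv : (volume : Measure R3).real (Icc (0 : R3) 1) = 1 := by
    have := H459R3.NS.volume_cube
    unfold Measure.real
    rw [show (volume : Measure R3) (Icc (0 : R3) 1) = 1 from this]; simp
  simp [hv]

end Pool.Agent.U162.MU
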