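import Pool.Agent.U162.MU.Shear

/-!
Shear profiles: the stress
-/

open MeasureTheory Set Filter Topology
open scoped ENNReal NNReal ContDiff

namespace Pool.Agent.U162.MU

open Pool.Agent.H356R3.NS Pool.Agent.U162.TS Pool.Agent.U162.GE Pool.Agent.U162.TS.EL Pool.Agent.U162.TS.VF Pool.Agent.U162.PL

lemma sh_zero_eq (ν A : ℝ) (m : K) (ξ : R3) (y : R3) (i : Fin 3) : sh ν A m ξ 0 y i = A * ξ i * Real.cos (Al m y) := by
  unfold sh
  simp

lemma sh_field (ν A : ℝ) {m : K} (hm : m ≠ 0) {ξ : R3} (hξ : ∑ j, (m j : ℝ) * ξ j = 0) : Field (sh ν A m ξ 0) where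
  smooth := by
    rw [contDiff_pi]
    intro i
    simp only [sh_zero_eq]
    exact contDiff_const.mul (Al m).contDiff.cos
  periodic := fun x j => by
    funext i
    rw [sh_zero_eq, sh_zero_eq, Al_per]
  divFree := fun x => (sh_adm ν A hξ).divFree 0 le_rfl x
  mean := fun i => by
    simp only [sh_zero_eq]
    rw [integral_const_mul, int_cos hm, mul_zero]

lemma sh_profile (ν : ℝ) {γ : R3 → ℝ} (hγ : H459R3.NS.SP γ) {m : K} (hm : m ≠ 0) {ξ : R3} (hξ : ∑ j, (m j : ℝ) * ξ j = 0) :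
    Profile fun x => sh ν (γ x) m ξ 0 where
  smooth := by
    rw [contDiff_pi]
    intro i
    simp only [sh_zero_eq]
    have h1 : ContDiff ℝ ∞ fun z : R3 × R3 => γ z.1 := hγ.smooth.comp contDiff_fst
    have h2 : ContDiff ℝ ∞ fun z : R3 × R3 => Real.cos (Al m z.2) := ((Al m).contDiff.comp contDiff_snd).cos
    exact (h1.mul contDiff_const).mul h2
  periodic := fun x y j => by
    show sh ν (γ (x + Pi.single j 1)) m ξ 0 y = sh ν (γ x) m ξ 0 y
    rw [hγ.per j x]
  field := fun x => sh_field ν (γ x) hm hξ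

lemma sq_pos' {m : K} (hm : m ≠ 0) : 0 < H356R3.NS.sq m := by
  have h : ∃ i, m i ≠ 0 := by
    by_contra h
    push Not at h
    exact hm (funext h)
  obtain ⟨i, hi⟩ := h
  unfold H356R3.NS.sq
  have h1 : 0 < (m i : ℝ) ^ 2 := by
    have : (m i : ℝ) ≠ 0 := by exact_mod_cast hi
    positivity
  exact lt_of_lt_of_le h1 (Finset.single_le_sum (f := fun i => (m i : ℝ) ^ 2) (fun _ _ => sq_nonneg _) (Finset.mem_univ i))

/-- the stress of a shear profile -/
theorem sh_stress {ν : ℝ} (hν : 0 < ν) (γ : R3 → ℝ) {m : K} (hm : m ≠ 0) (ξ : R3) (j p : Fin 3) (x : R3) :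
    stress (fun x => sh ν (γ x) m ξ) j p x
      = γ x ^ 2 / (16 * Real.pi ^ 2 * ν * H356R3.NS.sq m) * (ξ j * ξ p) := by
  have hq := sq_pos' hm
  set b := 4 * Real.pi ^ 2 * ν * H356R3.NS.sq m with hb
  have hbp : 0 < b := by positivity
  unfold stress
  have h1 : ∀ s : ℝ, ∫ y in Icc (0 : R3) 1, sh ν (γ x) m ξ s y j * sh ν (γ x) m ξ s y p
      = (γ x ^ 2 * (ξ j * ξ p) / 2) * Real.exp ((-(2 * b)) * s) := by
    intro s
    have e : ∀ y, sh ν (γ x) m ξ s y j * sh ν (γ x) m ξ s y p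
        = (γ x ^ 2 * (ξ j * ξ p) * Real.exp ((-(2 * b)) * s)) * Real.cos (Al m y) ^ 2 := by
      intro y
      unfold sh
      rw [← hb]
      have : Real.exp ((-(2 * b)) * s) = Real.exp (-(b * s)) * Real.exp (-(b * s)) := by
        rw [← Real.exp_add]; congr 1; ring
      rw [this]; ring
    simp only [e]
    rw [integral_const_mul, int_cos_sq hm]
    ring
  simp only [h1]
  rw [integral_const_mul, integral_exp_mul_Ioi (by linarith : -(2 * b) < 0)]
  rw [mul_zero, Real.exp_zero, hb]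
  field_simp
  ring

/-- a frequency which is orthogonal to the direction -/
lemma ex_orth (q : K) : ∃ m : K, m ≠ 0 ∧ ∑ j, (m j : ℝ) * (q j : ℝ) = 0 := by
  by_cases h : q 0 = 0 ∧ q 1 = 0
  · refine ⟨![1, 0, 0], ?_, ?_⟩
    · intro h1
      have := congrFun h1 0
      simp at this
    · rw [Fin.sum_univ_three]; simp [h.1]
  · refine ⟨![q 1, -q 0, 0], ?_, ?_⟩
    · intro h1
      apply h
      have h2 := congrFun h1 0
      have h3 := congrFun h1 1
      simp at h2 h3
      exact ⟨h3, h2⟩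
    · rw [Fin.sum_univ_three]
      simp
      ring

/-- smooth periodic functions are bounded -/
lemma sp_bdd {f : R3 → ℝ} (hf : H459R3.NS.SP f) : ∃ M : ℝ, 0 < M ∧ ∀ x, |f x| < M := by
  obtain ⟨C, hC⟩ := (isCompact_Icc (a := (0 : R3)) (b := 1)).exists_bound_of_continuousOn hf.smooth.continuous.continuousOn
  refine ⟨|C| + 1, by positivity, fun x => ?_⟩
  have h1 : f x = f (fun i => Int.fract (x i)) := by
    have h2 := hf.per.int (fun i => ⌊x i⌋) (fun i => Int.fract (x i))
    rw [← h2]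
    congr 1
    funext i
    simp [Int.fract_add_floor]
  have h3 : (fun i => Int.fract (x i)) ∈ Icc (0 : R3) 1 :=
    ⟨fun i => Int.fract_nonneg _, fun i => (Int.fract_lt_one _).le⟩
  have h4 := hC _ h3
  rw [Real.norm_eq_abs] at h4
  rw [h1]
  have := le_abs_self C
  linarith

end Pool.Agent.U162.MU
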