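import Pool.Agent.U162.MU.Steer3

/-!
Steering: small perturbations with high frequencies of arbitrary data lead to prescribed flows
-/

open MeasureTheory Set Filter Topology
open scoped ENNReal NNReal ContDiff

namespace Pool.Agent.U162.MU

open Pool.Agent.H356R3.NS Pool.Agent.U162.TS Pool.Agent.U162.GE Pool.Agent.U162.TS.EL Pool.Agent.U162.TS.VF Pool.Agent.U162.TS.Ph Pool.Agent.U162.PL

lemma heatSq_eq_HN {ν : ℝ} {d : K → C3} (h0 : d 0 = 0) :
    heatSq ν d = HN (4 * Real.pi ^ 2 * ν) d ^ (2 : ℝ) := by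
  have e : ∫⁻ t in Ioi (0 : ℝ), NW (Wa 0) (at' (mF (4 * Real.pi ^ 2 * ν) d) t) ^ (2 : ℝ) = heatSq ν d := by
    unfold heatSq
    refine setLIntegral_congr_fun measurableSet_Ioi fun t ht => ?_
    rw [ENNReal.rpow_two, NW_Wa0]
    congr 1
    refine tsum_congr fun k => ?_
    show ‖mF (4 * Real.pi ^ 2 * ν) d k t‖ₑ = _
    rw [mF_enorm]
    by_cases hk : k = 0
    · rw [if_pos hk, hk, h0]; simp
    · rw [if_neg hk, max_eq_left (le_of_lt ht)]
      rfl
  unfold HN LN
  rw [← ENNReal.rpow_mul, e]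
  norm_num

lemma Ev.exists_pow : ∀ {J : ℕ} {P : (Fin J → ℕ) → Prop}, Ev J P → ∀ E : ℕ,
    ∃ e : Fin J → ℕ, Function.Injective e ∧ (∀ j, E ≤ e j) ∧ P fun j => 2 ^ e j
  | 0, P, h, E => ⟨Fin.elim0, fun a => a.elim0, fun a => a.elim0, by
      have e : (fun j : Fin 0 => 2 ^ (Fin.elim0 j : ℕ)) = (Fin.elim0 : Fin 0 → ℕ) := funext fun j => j.elim0
      have h' : P Fin.elim0 := h
      rwa [← e] at h'⟩
  | J + 1, P, h, E => by
    have h' : ∀ᶠ n in atTop, Ev J fun N => P (Fin.cons n N) := h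
    obtain ⟨N0, hN0⟩ := Filter.eventually_atTop.1 h'
    set e0 := max E N0 with he0
    have h1 : N0 ≤ 2 ^ e0 := (le_max_right E N0).trans Nat.lt_two_pow_self.le
    obtain ⟨e, hinj, hge, hP⟩ := Ev.exists_pow (hN0 _ h1) (e0 + 1)
    refine ⟨Fin.cons e0 e, ?_, ?_, ?_⟩
    · rw [Fin.cons_injective_iff]
      refine ⟨?_, hinj⟩
      rintro ⟨j, hj⟩
      have := hge j
      omega
    · intro j
      refine Fin.cases ?_ (fun j => ?_) j
      · rw [Fin.cons_zero]; exact le_max_left _ _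
      · rw [Fin.cons_succ]
        have h2 := hge j
        have h3 : E ≤ e0 := le_max_left _ _
        omega
    · have e1 : (fun j => 2 ^ (Fin.cons e0 e : Fin (J + 1) → ℕ) j) = (Fin.cons (2 ^ e0) fun j => 2 ^ e j : Fin (J + 1) → ℕ) := by
        funext j
        refine Fin.cases ?_ (fun j => ?_) j
        · rw [Fin.cons_zero, Fin.cons_zero]
        · rw [Fin.cons_succ, Fin.cons_succ]
      rw [e1]; exact hP

lemma dosc_sh (ν : ℝ) (γ : R3 → ℝ) (m : K) (ξ : R3) (r : ℝ) (N : ℕ) (κ : K) :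
    dosc (fun x => sh ν (r * γ x) m ξ 0) N κ = r • dosc (fun x => sh ν (γ x) m ξ 0) N κ := by
  have h1 : H356R3.NS.fc (fun x => sh ν (r * γ x) m ξ 0 ((N : ℝ) • x)) κ
      = (r : ℂ) • H356R3.NS.fc (fun x => sh ν (γ x) m ξ 0 ((N : ℝ) • x)) κ := by
    funext i
    rw [Pi.smul_apply, smul_eq_mul]
    unfold H356R3.NS.fc
    rw [← integral_const_mul]
    refine integral_congr_ae (Filter.Eventually.of_forall fun x => ?_)
    simp only
    rw [sh_zero_eq, sh_zero_eq]
    push_cast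
    ring
  unfold dosc
  by_cases hκ : κ = 0
  · rw [if_pos hκ, if_pos hκ]; simp
  · rw [if_neg hκ, if_neg hκ, h1, pr_csmul]
    funext i
    simp only [Pi.smul_apply, Complex.real_smul, smul_eq_mul]
    ring

lemma mixs_dosc {J : ℕ} (a : R3 → R3) (V : Fin J → R3 → R3 → R3) (N : Fin J → ℕ) {κ : K} (hκ : κ ≠ 0) (i : Fin 3) :
    mixs a V N κ i = H356R3.NS.fc a κ i + (∑ j, dosc (V j) (N j) κ) i := by
  unfold mixs
  congr 1
  rw [Finset.sum_apply]
  refine Finset.sum_congr rfl fun j _ => ?_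
  unfold dosc
  rw [if_neg hκ, leray_eq, Pi.smul_apply, Complex.real_smul]
  push_cast
  rfl

/-- Steering -/
theorem steering {ν : ℝ} (hν : 0 < ν) {u₀ g : R3 → R3} (hu₀ : Field u₀) (hg : Field g) {v : ℝ → R3 → R3}
    {p : ℝ → R3 → ℝ} (hv : AdmissiblePeriodic ν g v p) {s : ℝ} (hs : 2 < s) {ε : ℝ} (hε : 0 < ε) (K0 : ℕ) :
    ∃ b : R3 → R3, Field b ∧ (∀ k : Fq, ∑ i, k i ^ 2 ≤ (K0 : ℤ) → H356R3.NS.fc b k = H356R3.NS.fc u₀ k) ∧
      critNorm s (fun k i => H356R3.NS.fc b k i - H356R3.NS.fc u₀ k i) ≤ ENNReal.ofReal ε ∧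
      ∃ δ : ℝ, 0 < δ ∧ ∀ u₁ : R3 → R3, Field u₁ →
        heatSq ν (fun k i => H356R3.NS.fc u₁ k i - H356R3.NS.fc b k i) ≤ ENNReal.ofReal δ →
        ∃ u q, AdmissiblePeriodic ν u₁ u q ∧ (∀ t, ε ≤ t → ∀ x i, |u t x i - v t x i| ≤ ε) ∧ CloseAfter ε u v := by
  have hc : 0 < 4 * Real.pi ^ 2 * ν := by positivity
  have hh : Dta fun k => H356R3.NS.fc g k + (-1 : ℝ) • H356R3.NS.fc u₀ k := dta_add hg.dta (dta_smul hu₀.dta (-1))
  obtain ⟨γ, m, hγ, hm, hmo, heff⟩ := shear_effect hν hh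
  have hP : ∀ q, Profile (fun x => sh ν (γ q x) (m q) (dr q) 0) := fun q => sh_profile ν (hγ q) (hm q) (hmo q)
  have hC : ∑ q, CV (fun x => sh ν (γ q x) (m q) (dr q) 0) ≠ ⊤ := by
    rw [ENNReal.sum_ne_top]
    exact fun q _ => CV_fin (hP q)
  obtain ⟨n, hn, hn2⟩ := ex_scales hC hs hε
  have hnp : (0 : ℝ) < n := by exact_mod_cast hn
  set r := 1 / Real.sqrt n with hr
  have hr0 : 0 ≤ r := by positivity
  set V : Fin (n * (3 * 3)) → R3 → R3 → R3 := fun j x => sh ν (r * γ (qj n j) x) (m (qj n j)) (dr (qj n j)) 0 with hVd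
  set W : Fin (n * (3 * 3)) → R3 → ℝ → R3 → R3 := fun j x => sh ν (r * γ (qj n j) x) (m (qj n j)) (dr (qj n j)) with hWd
  have hV : ∀ j, Profile (V j) := fun j => sh_profile ν (sp_const_mul (hγ _) r) (hm _) (hmo _)
  have hW : ∀ j x, AdmissiblePeriodic ν (V j x) (W j x) (fun _ _ => 0) := fun j x => sh_adm ν _ (hmo _)
  obtain ⟨δ0, hδ0, hall⟩ := multi_given hν (Q := fun _ _ _ _ => 0) hV hW hg hv hε
  have hpush : ∀ l i, H356R3.NS.fc g l i = H356R3.NS.fc u₀ l i + ∑ j, push (W j) l i := by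
    intro l i
    have h1 := sum_qj n fun q => push (fun x => sh ν (r * γ q x) (m q) (dr q)) l i
    have h2 : ∑ j, push (W j) l i = ∑ j, (fun q => push (fun x => sh ν (r * γ q x) (m q) (dr q)) l i) (qj n j) := rfl
    rw [h2, h1, heff, nsmul_eq_mul]
    have h3 : (n : ℂ) * (((r ^ 2 : ℝ) : ℂ) * (H356R3.NS.fc g l + (-1 : ℝ) • H356R3.NS.fc u₀ l) i)
        = (((n : ℝ) * r ^ 2 : ℝ) : ℂ) * (H356R3.NS.fc g l + (-1 : ℝ) • H356R3.NS.fc u₀ l) i := by
      push_cast; ring
    have h4 : (n : ℝ) * r ^ 2 = 1 := by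
      rw [hr, div_pow, Real.sq_sqrt hnp.le]; field_simp
    rw [h3, h4]
    simp
  have hEv := hall hu₀ hpush
  -- the scales
  set ρ0 := Real.sqrt δ0 with hρ0
  have hρ0p : 0 < ρ0 := Real.sqrt_pos.2 hδ0
  set sq2 := Real.sqrt (1 / (2 * (4 * Real.pi ^ 2 * ν))) with hsq2
  have hsq2p : 0 < sq2 := Real.sqrt_pos.2 (by positivity)
  set R := Real.sqrt K0 with hR
  have hR0 : 0 ≤ R := Real.sqrt_nonneg _
  have hA : ∑ j, CV (V j) ≠ ⊤ := by
    rw [ENNReal.sum_ne_top]
    exact fun j _ => CV_fin (hV j)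
  set A := (∑ j, CV (V j)).toReal with hAd
  have hA0 : 0 ≤ A := ENNReal.toReal_nonneg
  obtain ⟨E, hE⟩ := pow_unbounded_of_one_lt (sq2 * R * A / (ρ0 / 2)) (one_lt_two : (1 : ℝ) < 2)
  obtain ⟨e, hinj, hge, hgood⟩ := hEv.exists_pow E
  -- the data
  set D : K → C3 := fun κ => ∑ j, dosc (V j) (2 ^ e j) κ with hD
  have hDd : Dta D := by
    have h1 := dta_sum Finset.univ (f := fun j => dosc (V j) (2 ^ e j)) fun j => dta_smul (proj_dta fun i => osc_sp (hV j) _ i) _
    have e1 : (fun l i => ∑ j, dosc (V j) (2 ^ e j) l i) = D := by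
      funext l i
      rw [hD]; simp only [Finset.sum_apply]
    rw [← e1]; exact h1
  set c : K → ℝ := fun κ => if ∑ i, κ i ^ 2 ≤ (K0 : ℤ) then 0 else 1 with hcd
  have hcs : ∀ k, c (-k) = c k := by intro k; simp [hcd]
  have hcb : ∀ k, |c k| ≤ 1 := by intro k; simp only [hcd]; split_ifs <;> simp
  have hβ : Dta fun κ => H356R3.NS.fc u₀ κ + c κ • D κ := dta_add hu₀.dta (dta_mul hDd hcs hcb)
  have hfb := fld_fc hβ
  have hfb' : ∀ κ, H356R3.NS.fc (fld fun κ => H356R3.NS.fc u₀ κ + c κ • D κ) κ = H356R3.NS.fc u₀ κ + c κ • D κ :=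
    fun κ => funext fun i => hfb κ i
  refine ⟨fld fun κ => H356R3.NS.fc u₀ κ + c κ • D κ, fld_field hβ, fun k hk => ?_, ?_, (ρ0 / 2) ^ 2, by positivity, fun u₁ hu₁ hcl => ?_⟩
  · rw [hfb']
    simp only [hcd]
    rw [if_pos hk]; simp
  · have e1 : (fun k i => H356R3.NS.fc (fld fun κ => H356R3.NS.fc u₀ κ + c κ • D κ) k i - H356R3.NS.fc u₀ k i) = fun k => c k • D k := by
      funext k i
      rw [hfb']
      simp
    rw [e1]
    have h1 : critNorm s (fun k => c k • D k) ≤ critNorm s D := by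
      refine crit_mono (fun k => ?_) (by linarith)
      rw [enorm_smul]
      calc ‖c k‖ₑ * ‖D k‖ₑ ≤ 1 * ‖D k‖ₑ := by
            gcongr
            rw [← ofReal_norm, Real.norm_eq_abs, ← ENNReal.ofReal_one]
            exact ENNReal.ofReal_le_ofReal (hcb k)
        _ = _ := one_mul _
    refine h1.trans (le_trans (le_of_eq ?_) ((crit_super hP (by linarith : 1 < s) hr0 hinj).trans hn2))
    congr 1
    funext κ
    rw [hD]
    exact Finset.sum_congr rfl fun j _ => dosc_sh ν (γ (qj n j)) (m (qj n j)) (dr (qj n j)) r (2 ^ e j) κ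
  · -- the low modes
    set L : K → C3 := fun κ => if ∑ i, κ i ^ 2 ≤ (K0 : ℤ) then D κ else 0 with hL
    have hL0 : L 0 = 0 := by
      simp only [hL]
      split_ifs
      · exact hDd.mean
      · rfl
    have hLN : HN (4 * Real.pi ^ 2 * ν) L ≤ ENNReal.ofReal (ρ0 / 2) := by
      refine (HN_le hc hL0).trans ?_
      have h1 : eN L ≤ ∑ j, ENNReal.ofReal (R / (2 ^ e j : ℕ)) * CV (V j) := by
        refine le_trans ?_ (Finset.sum_le_sum fun j _ => low_dosc (hV j) (N := 2 ^ e j) (by positivity) hR0)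
        rw [← Summable.tsum_finsetSum fun _ _ => ENNReal.summable]
        unfold eN
        refine ENNReal.tsum_le_tsum fun κ => ?_
        simp only [hL]
        split_ifs with h2 h3 h3
        · rw [← Finset.sum_mul]
          exact mul_le_mul' (enorm_sum_le _ _) le_rfl
        · exfalso
          apply h3
          rw [hR]
          apply Real.le_sqrt_of_sq_le
          rw [H356R3.NS.nk_sq]
          unfold H356R3.NS.sq
          exact_mod_cast h2
        · simp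
        · simp
      have h2 : ∑ j, ENNReal.ofReal (R / (2 ^ e j : ℕ)) * CV (V j) ≤ ENNReal.ofReal (R / 2 ^ E * A) := by
        rw [ENNReal.ofReal_mul (by positivity), hAd, ENNReal.ofReal_toReal hA, Finset.mul_sum]
        refine Finset.sum_le_sum fun j _ => mul_le_mul' (ENNReal.ofReal_le_ofReal ?_) le_rfl
        push_cast
        have : (2 : ℝ) ^ E ≤ 2 ^ e j := pow_le_pow_right₀ (by norm_num) (hge j)
        exact div_le_div_of_nonneg_left hR0 (by positivity) this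
      refine (mul_le_mul' le_rfl (h1.trans h2)).trans ?_
      rw [← ENNReal.ofReal_mul hsq2p.le]
      apply ENNReal.ofReal_le_ofReal
      rw [div_lt_iff₀ (by positivity)] at hE
      have h2E : (0 : ℝ) < 2 ^ E := by positivity
      have : sq2 * (R / 2 ^ E * A) = sq2 * R * A / 2 ^ E := by ring
      rw [this, div_le_iff₀ h2E]
      linarith
    -- the difference of the data
    set d1 : K → C3 := fun k i => H356R3.NS.fc u₁ k i - H356R3.NS.fc (fld fun κ => H356R3.NS.fc u₀ κ + c κ • D κ) k i with hd1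
    have hd10 : d1 0 = 0 := by
      funext i
      simp only [hd1]
      rw [hfb', hu₁.dta.mean, hu₀.dta.mean, hDd.mean]
      simp
    have hN1 : HN (4 * Real.pi ^ 2 * ν) d1 ≤ ENNReal.ofReal (ρ0 / 2) := by
      have h1 : HN (4 * Real.pi ^ 2 * ν) d1 ^ (2 : ℝ) ≤ ENNReal.ofReal (ρ0 / 2) ^ (2 : ℝ) := by
        rw [← heatSq_eq_HN hd10, ENNReal.ofReal_rpow_of_nonneg (by positivity) (by norm_num)]
        refine hcl.trans (le_of_eq ?_)
        norm_num
      exact (ENNReal.rpow_le_rpow_iff (by norm_num)).1 h1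
    have hN2 : HN (4 * Real.pi ^ 2 * ν) (d1 - L) ≤ ENNReal.ofReal ρ0 := by
      rw [sub_eq_add_neg]
      refine (HN_add _ _ _).trans ?_
      rw [HN_neg]
      refine (add_le_add hN1 hLN).trans (le_of_eq ?_)
      rw [← ENNReal.ofReal_add (by positivity) (by positivity)]
      congr 1; ring
    have hfin : heatSq ν (fun k i => H356R3.NS.fc u₁ k i - mixs u₀ V (fun j => 2 ^ e j) k i) ≤ ENNReal.ofReal δ0 := by
      have h1 : heatSq ν (fun k i => H356R3.NS.fc u₁ k i - mixs u₀ V (fun j => 2 ^ e j) k i) = heatSq ν (d1 - L) := by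
        refine heatSq_congr fun k hk => ?_
        funext i
        rw [mixs_dosc u₀ V _ hk]
        simp only [hd1, hL, Pi.sub_apply]
        rw [hfb']
        simp only [hcd]
        by_cases h2 : ∑ i, k i ^ 2 ≤ (K0 : ℤ)
        · rw [if_pos h2, if_pos h2]
          simp only [zero_smul, add_zero]
          ring
        · rw [if_neg h2, if_neg h2]
          simp only [one_smul, Pi.add_apply, Pi.zero_apply]
          ring
      rw [h1, heatSq_eq_HN (by rw [Pi.sub_apply, hd10, hL0, sub_zero])]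
      refine (ENNReal.rpow_le_rpow hN2 (by norm_num)).trans (le_of_eq ?_)
      rw [ENNReal.ofReal_rpow_of_nonneg hρ0p.le (by norm_num), Real.rpow_two, hρ0, Real.sq_sqrt hδ0.le]
    obtain ⟨u, q, h1, h2, h3, -⟩ := hgood u₁ hu₁ hfin
    exact ⟨u, q, h1, h2, h3⟩

end Pool.Agent.U162.MU
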