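import Pool.Agent.U162.MU.Nash

/-!
Fields as effects of shear profiles
-/

open MeasureTheory Set Filter Topology
open scoped ENNReal NNReal ContDiff

namespace Pool.Agent.U162.MU

open Pool.Agent.H356R3.NS Pool.Agent.U162.TS Pool.Agent.U162.GE Pool.Agent.U162.TS.EL Pool.Agent.U162.TS.VF Pool.Agent.U162.PL

/-- the direction as a real vector -/
def dr (q : Fin 3 × Fin 3) : R3 := fun i => (dir q i : ℝ)

lemma pr_sum {ι : Type*} (s : Finset ι) (κ : K) (v : ι → C3) : pr κ (∑ j ∈ s, v j) = ∑ j ∈ s, pr κ (v j) := by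
  rw [← prL_apply, map_sum]
  rfl

lemma leray_of_dt {κ : K} {v : C3} (h : dt κ v = 0) : pr κ v = v := by
  funext i
  unfold pr
  rw [h]; simp

/-- the effect of a family of shear profiles -/
theorem shear_effect {ν : ℝ} (hν : 0 < ν) {h : K → C3} (hh : Dta h) :
    ∃ (γ : Fin 3 × Fin 3 → R3 → ℝ) (m : Fin 3 × Fin 3 → K), (∀ q, H459R3.NS.SP (γ q)) ∧ (∀ q, m q ≠ 0) ∧
      (∀ q, ∑ j, (m q j : ℝ) * dr q j = 0) ∧
      ∀ (r : ℝ) l i, ∑ q, push (fun x => sh ν (r * γ q x) (m q) (dr q)) l i = (r ^ 2 : ℝ) * h l i := by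
  obtain ⟨f, hf, hrep⟩ := nash hh
  choose m hm hmo using fun q : Fin 3 × Fin 3 => ex_orth (dir q)
  choose M hM0 hM using fun q => sp_bdd (hf q)
  have hpos : ∀ q x, 0 < (M q + f q x) * (16 * Real.pi ^ 2 * ν * H356R3.NS.sq (m q)) := by
    intro q x
    have h1 := hM q x
    have h2 := abs_lt.1 h1
    have h3 := sq_pos' (hm q)
    have h4 : 0 < M q + f q x := by linarith
    positivity
  have hsm : ∀ q, H459R3.NS.SP fun x => Real.sqrt ((M q + f q x) * (16 * Real.pi ^ 2 * ν * H356R3.NS.sq (m q))) := by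
    intro q
    refine ⟨?_, fun j x => ?_⟩
    · exact ((contDiff_const.add (hf q).smooth).mul contDiff_const).sqrt fun x => (hpos q x).ne'
    · show Real.sqrt ((M q + f q (x + Pi.single j 1)) * _) = _
      rw [(hf q).per j x]
  refine ⟨fun q x => Real.sqrt ((M q + f q x) * (16 * Real.pi ^ 2 * ν * H356R3.NS.sq (m q))), m, hsm, hm, hmo, fun r l i => ?_⟩
  -- the stresses
  have hst : ∀ q j p, stress (fun x => sh ν (r * Real.sqrt ((M q + f q x) * (16 * Real.pi ^ 2 * ν * H356R3.NS.sq (m q)))) (m q) (dr q)) j p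
      = fun x => (r ^ 2 * ((dir q j : ℝ) * (dir q p : ℝ))) * (M q + f q x) := by
    intro q j p
    funext x
    rw [sh_stress hν (fun x => r * Real.sqrt ((M q + f q x) * (16 * Real.pi ^ 2 * ν * H356R3.NS.sq (m q)))) (hm q)]
    rw [mul_pow, Real.sq_sqrt (hpos q x).le]
    have h3 := sq_pos' (hm q)
    unfold dr
    field_simp
  by_cases hl : l = 0
  · subst hl
    rw [hh.mean]
    have : ∀ q, push (fun x => sh ν (r * Real.sqrt ((M q + f q x) * (16 * Real.pi ^ 2 * ν * H356R3.NS.sq (m q)))) (m q) (dr q)) 0 i = 0 :=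
      fun q => push_zero _ i
    simp only [this]
    simp
  have hfr : ∀ q j p, H459R3.NS.fr (stress (fun x => sh ν (r * Real.sqrt ((M q + f q x) * (16 * Real.pi ^ 2 * ν * H356R3.NS.sq (m q)))) (m q) (dr q)) j p) l
      = (r ^ 2 * ((dir q j : ℝ) * (dir q p : ℝ)) : ℝ) * H459R3.NS.fr (f q) l := by
    intro q j p
    rw [hst, fr_const_mul, fr_add' (sp_const _) (hf q), fr_const hl, zero_add]
  have hpush : ∀ q, push (fun x => sh ν (r * Real.sqrt ((M q + f q x) * (16 * Real.pi ^ 2 * ν * H356R3.NS.sq (m q)))) (m q) (dr q)) l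
      = (r ^ 2 : ℂ) • (-(2 * Real.pi * Complex.I)) • pr l (fun p => ∑ j, (l j : ℂ) * (H459R3.NS.fr (f q) l * ((dir q j : ℂ) * (dir q p : ℂ)))) := by
    intro q
    funext i
    rw [push_fr, leray_eq]
    have e : (fun p => ∑ j, (l j : ℂ) * H459R3.NS.fr (stress (fun x => sh ν (r * Real.sqrt ((M q + f q x) * (16 * Real.pi ^ 2 * ν * H356R3.NS.sq (m q)))) (m q) (dr q)) j p) l)
        = (r ^ 2 : ℂ) • (fun p => ∑ j, (l j : ℂ) * (H459R3.NS.fr (f q) l * ((dir q j : ℂ) * (dir q p : ℂ))) : C3) := by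
      funext p
      rw [Pi.smul_apply, smul_eq_mul, Finset.mul_sum]
      refine Finset.sum_congr rfl fun j _ => ?_
      rw [hfr]
      push_cast
      ring
    rw [e, pr_csmul]
    simp only [Pi.smul_apply, smul_eq_mul]
    ring
  have hsum : ∑ q, push (fun x => sh ν (r * Real.sqrt ((M q + f q x) * (16 * Real.pi ^ 2 * ν * H356R3.NS.sq (m q)))) (m q) (dr q)) l
      = (r ^ 2 : ℂ) • h l := by
    simp only [hpush]
    rw [← Finset.smul_sum, ← Finset.smul_sum, ← pr_sum]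
    have e : ∑ q, (fun p => ∑ j, (l j : ℂ) * (H459R3.NS.fr (f q) l * ((dir q j : ℂ) * (dir q p : ℂ))) : C3)
        = fun p => ∑ j, (l j : ℂ) * ∑ q, H459R3.NS.fr (f q) l * ((dir q j : ℂ) * (dir q p : ℂ)) := by
      funext p
      rw [Finset.sum_apply, Finset.sum_comm]
      refine Finset.sum_congr rfl fun j _ => ?_
      rw [Finset.mul_sum]
    rw [e, ← pr_csmul]
    have e2 : (-(2 * Real.pi * Complex.I) : ℂ) • (fun p => ∑ j, (l j : ℂ) * ∑ q, H459R3.NS.fr (f q) l * ((dir q j : ℂ) * (dir q p : ℂ)) : C3) = h l := by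
      funext p
      exact hrep l p
    rw [e2, leray_of_dt (hh.div l)]
  have := congrFun hsum i
  rw [Finset.sum_apply] at this
  rw [this]
  simp

end Pool.Agent.U162.MU
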