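import Pool.Agent.U162.MU.Steer1

/-!
The size of oscillating fields in the critical norms
-/

open MeasureTheory Set Filter Topology
open scoped ENNReal NNReal ContDiff

namespace Pool.Agent.U162.MU

open Pool.Agent.H356R3.NS Pool.Agent.U162.TS Pool.Agent.U162.GE Pool.Agent.U162.TS.EL Pool.Agent.U162.TS.VF Pool.Agent.U162.PL

/-- the coefficients of the divergence free part of `N V(x, N x)` -/
noncomputable def dosc (V : R3 → R3 → R3) (N : ℕ) (κ : K) : C3 :=
  (N : ℝ) • (if κ = 0 then 0 else pr κ (H356R3.NS.fc (fun x => V x ((N : ℝ) • x)) κ))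

/-- the constant of a profile -/
noncomputable def CV (V : R3 → R3 → R3) : ℝ≥0∞ := ∑' P : K × K, ENNReal.ofReal (16 * (1 + nk P.1) ^ 2) * ‖bV V P‖ₑ

lemma CV_fin {V : R3 → R3 → R3} (hV : Profile V) : CV V ≠ ⊤ := by
  have hs := (hV.summ 2).mul_left (16 * 9)
  have e : ∀ P : K × K, ENNReal.ofReal (16 * (1 + nk P.1) ^ 2) * ‖bV V P‖ₑ
      ≤ ENNReal.ofReal ((16 * 9) * ((1 + (H459R3.NS.N P.1 : ℝ)) ^ 2 * ‖bV V P‖)) := by
    intro P
    rw [← ofReal_norm, ← ENNReal.ofReal_mul (by positivity)]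
    apply ENNReal.ofReal_le_ofReal
    have h1 := nk_le_N P.1
    have h0 := nk_nonneg P.1
    have h2 : (1 + nk P.1) ^ 2 ≤ 9 * (1 + (H459R3.NS.N P.1 : ℝ)) ^ 2 := by
      have : 1 + nk P.1 ≤ 3 * (1 + (H459R3.NS.N P.1 : ℝ)) := by linarith
      calc (1 + nk P.1) ^ 2 ≤ (3 * (1 + (H459R3.NS.N P.1 : ℝ))) ^ 2 := pow_le_pow_left₀ (by positivity) this 2
        _ = _ := by ring
    calc 16 * (1 + nk P.1) ^ 2 * ‖bV V P‖ ≤ 16 * (9 * (1 + (H459R3.NS.N P.1 : ℝ)) ^ 2) * ‖bV V P‖ := by gcongr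
      _ = _ := by ring
  refine ne_top_of_le_ne_top ?_ (ENNReal.tsum_le_tsum e)
  rw [← ENNReal.ofReal_tsum_of_nonneg (fun P => by positivity) hs]
  exact ENNReal.ofReal_ne_top

lemma dosc_le {V : R3 → R3 → R3} (hV : Profile V) (N : ℕ) (κ : K) :
    ‖dosc V N κ‖ₑ ≤ ∑' k : K, if κ = 0 then 0 else ENNReal.ofReal (4 * N) * ‖bV V (ph2 N κ k)‖ₑ := by
  unfold dosc
  by_cases hκ : κ = 0
  · rw [if_pos hκ]; simp
  rw [if_neg hκ, osc_fc hV]
  simp only [if_neg hκ]
  rw [ENNReal.tsum_mul_left]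
  calc ‖(N : ℝ) • pr κ (∑' k, bV V (ph2 N κ k))‖ₑ
      ≤ ENNReal.ofReal (4 * N) * ‖∑' k, bV V (ph2 N κ k)‖ₑ := by
        rw [← ofReal_norm, ← ofReal_norm, norm_smul, Real.norm_of_nonneg (Nat.cast_nonneg N),
          ← ENNReal.ofReal_mul (by positivity)]
        apply ENNReal.ofReal_le_ofReal
        calc (N : ℝ) * ‖pr κ (∑' k, bV V (ph2 N κ k))‖ ≤ N * (4 * ‖∑' k, bV V (ph2 N κ k)‖) :=
              mul_le_mul_of_nonneg_left (leray_norm _ _) (Nat.cast_nonneg N)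
          _ = _ := by ring
    _ ≤ _ := mul_le_mul' le_rfl enorm_tsum_le_tsum_enorm

lemma bV_k0 {V : R3 → R3 → R3} (hV : Profile V) {P : K × K} (h : P.2 = 0) : bV V P = 0 := hV.pg.mean P h

lemma dsum (N : ℕ) (g : K × K → ℝ≥0∞) : ∑' κ : K, ∑' k : K, g (ph2 N κ k) = ∑' P, g P := by
  rw [ENNReal.tsum_comm]
  have e3 : ∀ k : K, ∑' κ : K, g (ph2 N κ k) = ∑' κ : K, g (κ, k) := by
    intro k
    exact (Equiv.subRight ((N : ℤ) • k)).tsum_eq fun κ => g (κ, k)
  simp only [e3]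
  rw [ENNReal.tsum_comm]
  exact (ENNReal.tsum_prod (f := fun x y => g (x, y))).symm

/-- the weights -/
noncomputable def wt (e J : ℕ) : ℝ := (1 / 2) ^ ((e - J) + (J - e))

lemma wt_pos (e J : ℕ) : 0 < wt e J := by unfold wt; positivity

/-- the dyadic sums of an oscillating field -/
lemma shell_dosc {V : R3 → R3 → R3} (hV : Profile V) (e J : ℕ) :
    shellSum (dosc V (2 ^ e)) J / 2 ^ J ≤ ENNReal.ofReal (wt e J) * CV V := by
  have h2J : (0 : ℝ) < 2 ^ J := by positivity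
  have hterm : ∀ κ : K, (if (4 : ℤ) ^ J ≤ ∑ i, κ i ^ 2 ∧ ∑ i, κ i ^ 2 < (4 : ℤ) ^ (J + 1) then ‖dosc V (2 ^ e) κ‖ₑ else 0) * ENNReal.ofReal (1 / 2 ^ J)
      ≤ ∑' k : K, ENNReal.ofReal (wt e J) * (ENNReal.ofReal (16 * (1 + nk (ph2 (2 ^ e) κ k).1) ^ 2) * ‖bV V (ph2 (2 ^ e) κ k)‖ₑ) := by
    intro κ
    split_ifs with hκ
    swap
    · simp
    have hκ0 : κ ≠ 0 := by
      rintro rfl
      have h1 := hκ.1
      simp at h1
      have : (0 : ℤ) < 4 ^ J := by positivity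
      linarith
    refine (mul_le_mul' (dosc_le hV _ κ) le_rfl).trans ?_
    rw [← ENNReal.tsum_mul_right]
    refine ENNReal.tsum_le_tsum fun k => ?_
    rw [if_neg hκ0]
    by_cases hk : k = 0
    · rw [bV_k0 hV (P := ph2 (2 ^ e) κ k) hk]; simp
    have hb := norm_nonneg (bV V (ph2 (2 ^ e) κ k))
    have hn := nk_nonneg (ph2 (2 ^ e) κ k).1
    rw [← ofReal_norm, ← ENNReal.ofReal_mul (by positivity), ← ENNReal.ofReal_mul (by positivity),
      ← ENNReal.ofReal_mul (by positivity), ← ENNReal.ofReal_mul (wt_pos e J).le]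
    apply ENNReal.ofReal_le_ofReal
    set n1 := nk (ph2 (2 ^ e) κ k).1 with hn1
    have key : 4 * ((2 ^ e : ℕ) : ℝ) * (1 / 2 ^ J) ≤ wt e J * (16 * (1 + n1) ^ 2) := by
      push_cast
      rcases le_total e J with h | h
      · have e1 : (2 : ℝ) ^ e * (1 / 2 ^ J) = wt e J := by
          unfold wt
          rw [Nat.sub_eq_zero_of_le h, zero_add, one_div, one_div, inv_pow]
          have : (2 : ℝ) ^ J = 2 ^ (J - e) * 2 ^ e := by rw [← pow_add, Nat.sub_add_cancel h]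
          rw [this]
          field_simp
        have h3 : (1 : ℝ) ≤ (1 + n1) ^ 2 := by nlinarith
        have h4 := wt_pos e J
        calc 4 * (2 : ℝ) ^ e * (1 / 2 ^ J) = 4 * (2 ^ e * (1 / 2 ^ J)) := by ring
          _ = 4 * wt e J := by rw [e1]
          _ ≤ wt e J * (16 * (1 + n1) ^ 2) := by nlinarith
      · have e1 : (2 : ℝ) ^ e * (1 / 2 ^ J) = 2 ^ (e - J) := by
          have : (2 : ℝ) ^ e = 2 ^ (e - J) * 2 ^ J := by rw [← pow_add, Nat.sub_add_cancel h]
          rw [this]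
          field_simp
        have e2 : wt e J = 1 / 2 ^ (e - J) := by
          unfold wt
          rw [Nat.sub_eq_zero_of_le h, add_zero, one_div_pow]
        have h3 : (2 : ℝ) ^ (e - J) ≤ 2 * (1 + n1) := by
          have h4 := N_div_le (N := 2 ^ e) hκ0 hk
          have hnk := nk_pos hκ0
          rw [div_le_iff₀ hnk] at h4
          have h5 : nk κ < 2 ^ (J + 1) := by
            have h6 : nk κ ^ 2 < (2 ^ (J + 1)) ^ 2 := by
              rw [H356R3.NS.nk_sq]
              have h7 : ((∑ i, κ i ^ 2 : ℤ) : ℝ) < ((4 : ℤ) ^ (J + 1) : ℤ) := by exact_mod_cast hκ.2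
              push_cast at h7
              unfold H356R3.NS.sq
              calc _ < (4 : ℝ) ^ (J + 1) := h7
                _ = (2 ^ (J + 1)) ^ 2 := by rw [← pow_mul, mul_comm, pow_mul]; norm_num
            exact lt_of_pow_lt_pow_left₀ 2 (by positivity) h6
          have h8 : ((2 ^ e : ℕ) : ℝ) ≤ (1 + n1) * 2 ^ (J + 1) := by
            refine h4.trans ?_
            exact mul_le_mul_of_nonneg_left h5.le (by positivity)
          push_cast at h8
          have h9 : (2 : ℝ) ^ e = 2 ^ (e - J) * 2 ^ J := by rw [← pow_add, Nat.sub_add_cancel h]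
          rw [h9, pow_succ] at h8
          have h10 : (2 : ℝ) ^ (e - J) * 2 ^ J ≤ (2 * (1 + n1)) * 2 ^ J := by linarith
          exact le_of_mul_le_mul_right h10 h2J
        have h4 : 0 < (2 : ℝ) ^ (e - J) := by positivity
        calc 4 * (2 : ℝ) ^ e * (1 / 2 ^ J) = 4 * (2 ^ e * (1 / 2 ^ J)) := by ring
          _ = 4 * 2 ^ (e - J) := by rw [e1]
          _ ≤ wt e J * (16 * (1 + n1) ^ 2) := by
              rw [e2, div_mul_eq_mul_div, le_div_iff₀ h4, one_mul]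
              nlinarith
    calc 4 * ((2 ^ e : ℕ) : ℝ) * ‖bV V (ph2 (2 ^ e) κ k)‖ * (1 / 2 ^ J)
        = (4 * ((2 ^ e : ℕ) : ℝ) * (1 / 2 ^ J)) * ‖bV V (ph2 (2 ^ e) κ k)‖ := by ring
      _ ≤ (wt e J * (16 * (1 + n1) ^ 2)) * ‖bV V (ph2 (2 ^ e) κ k)‖ := mul_le_mul_of_nonneg_right key hb
      _ = _ := by ring
  have hdiv : shellSum (dosc V (2 ^ e)) J / 2 ^ J = shellSum (dosc V (2 ^ e)) J * ENNReal.ofReal (1 / 2 ^ J) := by
    rw [div_eq_mul_inv, one_div, ENNReal.ofReal_inv_of_pos h2J, ENNReal.ofReal_pow (by norm_num)]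
    norm_num
  rw [hdiv]
  unfold shellSum
  rw [← ENNReal.tsum_mul_right]
  refine (ENNReal.tsum_le_tsum hterm).trans ?_
  simp only [ENNReal.tsum_mul_left]
  refine mul_le_mul' le_rfl (le_of_eq ?_)
  exact dsum (2 ^ e) fun P => ENNReal.ofReal (16 * (1 + nk P.1) ^ 2) * ‖bV V P‖ₑ

/-- the low modes of an oscillating field -/
lemma low_dosc {V : R3 → R3 → R3} (hV : Profile V) {N : ℕ} (hN : 0 < N) {R : ℝ} (hR : 0 ≤ R) :
    ∑' κ : K, (if nk κ ≤ R then ‖dosc V N κ‖ₑ * ENNReal.ofReal (1 / nk κ) else 0) ≤ ENNReal.ofReal (R / N) * CV V := by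
  have hNp : (0 : ℝ) < N := by exact_mod_cast hN
  have hterm : ∀ κ : K, (if nk κ ≤ R then ‖dosc V N κ‖ₑ * ENNReal.ofReal (1 / nk κ) else 0)
      ≤ ∑' k : K, ENNReal.ofReal (R / N) * (ENNReal.ofReal (16 * (1 + nk (ph2 N κ k).1) ^ 2) * ‖bV V (ph2 N κ k)‖ₑ) := by
    intro κ
    split_ifs with hκ
    swap
    · simp
    by_cases hκ0 : κ = 0
    · subst hκ0
      rw [nk_zero]; simp
    refine (mul_le_mul' (dosc_le hV _ κ) le_rfl).trans ?_
    rw [← ENNReal.tsum_mul_right]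
    refine ENNReal.tsum_le_tsum fun k => ?_
    rw [if_neg hκ0]
    by_cases hk : k = 0
    · rw [bV_k0 hV (P := ph2 N κ k) hk]; simp
    have hb := norm_nonneg (bV V (ph2 N κ k))
    have hn := nk_nonneg (ph2 N κ k).1
    rw [← ofReal_norm, ← ENNReal.ofReal_mul (by positivity), ← ENNReal.ofReal_mul (by positivity),
      ← ENNReal.ofReal_mul (by positivity), ← ENNReal.ofReal_mul (by positivity)]
    apply ENNReal.ofReal_le_ofReal
    set n1 := nk (ph2 N κ k).1 with hn1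
    have h4 : (N : ℝ) / nk κ ≤ 1 + n1 := N_div_le (N := N) hκ0 hk
    have hnk := nk_pos hκ0
    have h5 : (N : ℝ) ≤ R * (1 + n1) := by
      have := h4
      rw [div_le_iff₀ hnk] at this
      nlinarith
    have h6 : 1 + n1 ≤ R / N * (1 + n1) ^ 2 := by
      rw [div_mul_eq_mul_div, le_div_iff₀ hNp]
      nlinarith
    have key : 4 * (N : ℝ) * (1 / nk κ) ≤ R / N * (16 * (1 + n1) ^ 2) := by
      calc 4 * (N : ℝ) * (1 / nk κ) = 4 * (N / nk κ) := by ring
        _ ≤ 4 * (1 + n1) := by linarith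
        _ ≤ 16 * (1 + n1) := by linarith
        _ ≤ 16 * (R / N * (1 + n1) ^ 2) := by linarith
        _ = _ := by ring
    calc 4 * (N : ℝ) * ‖bV V (ph2 N κ k)‖ * (1 / nk κ)
        = (4 * (N : ℝ) * (1 / nk κ)) * ‖bV V (ph2 N κ k)‖ := by ring
      _ ≤ (R / N * (16 * (1 + n1) ^ 2)) * ‖bV V (ph2 N κ k)‖ := mul_le_mul_of_nonneg_right key hb
      _ = _ := by ring
  refine (ENNReal.tsum_le_tsum hterm).trans ?_
  simp only [ENNReal.tsum_mul_left]
  refine mul_le_mul' le_rfl (le_of_eq ?_)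
  exact dsum N fun P => ENNReal.ofReal (16 * (1 + nk P.1) ^ 2) * ‖bV V P‖ₑ

/-! ### sums of weights -/

lemma tsum_half : ∑' n : ℕ, ENNReal.ofReal ((1 / 2 : ℝ) ^ n) = 2 := by
  rw [← ENNReal.ofReal_tsum_of_nonneg (fun n => by positivity) summable_geometric_two, tsum_geometric_two]
  norm_num

lemma wt_sum (J : ℕ) : ∑' e : ℕ, ENNReal.ofReal (wt e J) ≤ 4 := by
  have h1 : ∀ e, ENNReal.ofReal (wt e J) ≤ (if J ≤ e then ENNReal.ofReal ((1 / 2 : ℝ) ^ (e - J)) else 0)
      + if e < J then ENNReal.ofReal ((1 / 2 : ℝ) ^ (J - e)) else 0 := by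
    intro e
    rcases le_or_gt J e with h | h
    · rw [if_pos h, if_neg (not_lt.2 h), add_zero]
      unfold wt
      rw [Nat.sub_eq_zero_of_le h, add_zero]
    · rw [if_neg (not_le.2 h), if_pos h, zero_add]
      unfold wt
      rw [Nat.sub_eq_zero_of_le h.le, zero_add]
  refine (ENNReal.tsum_le_tsum h1).trans ?_
  rw [ENNReal.tsum_add]
  have h2 : ∑' e : ℕ, (if J ≤ e then ENNReal.ofReal ((1 / 2 : ℝ) ^ (e - J)) else 0) ≤ 2 := by
    have hinj : Function.Injective fun n : ℕ => J + n := fun a b h => by simpa using h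
    rw [← hinj.tsum_eq (f := fun e => if J ≤ e then ENNReal.ofReal ((1 / 2 : ℝ) ^ (e - J)) else 0)]
    · have : ∀ n, (if J ≤ J + n then ENNReal.ofReal ((1 / 2 : ℝ) ^ (J + n - J)) else 0) = ENNReal.ofReal ((1 / 2 : ℝ) ^ n) := by
        intro n
        rw [if_pos (Nat.le_add_right J n), Nat.add_sub_cancel_left]
      simp only [this]
      exact tsum_half.le
    · intro e he
      rw [Function.mem_support] at he
      have : J ≤ e := by
        by_contra h
        exact he (if_neg h)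
      exact ⟨e - J, by show J + (e - J) = e; omega⟩
  have h3 : ∑' e : ℕ, (if e < J then ENNReal.ofReal ((1 / 2 : ℝ) ^ (J - e)) else 0) ≤ 2 := by
    rw [tsum_eq_sum (s := Finset.range J) (fun e he => if_neg (by simpa using he))]
    have h4 : ∑ e ∈ Finset.range J, (if e < J then ENNReal.ofReal ((1 / 2 : ℝ) ^ (J - e)) else 0)
        = ∑ n ∈ (Finset.range J).image (fun e => J - e), ENNReal.ofReal ((1 / 2 : ℝ) ^ n) := by
      rw [Finset.sum_image (fun a ha b hb h => by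
        have h1 := Finset.mem_range.1 ha
        have h2 := Finset.mem_range.1 hb
        have h3 : J - a = J - b := h
        omega)]
      exact Finset.sum_congr rfl fun e he => if_pos (Finset.mem_range.1 he)
    rw [h4]
    exact (ENNReal.sum_le_tsum _).trans tsum_half.le
  calc _ ≤ (2 : ℝ≥0∞) + 2 := add_le_add h2 h3
    _ = 4 := by norm_num

lemma wt_symm (e J : ℕ) : wt e J = wt J e := by unfold wt; rw [add_comm]

lemma wt_fin {n : ℕ} {e : Fin n → ℕ} (he : Function.Injective e) (J : ℕ) :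
    ∑ j, ENNReal.ofReal (wt (e j) J) ≤ 4 := by
  refine le_trans ?_ (wt_sum J)
  rw [← tsum_fintype (L := SummationFilter.unconditional _)]
  exact ENNReal.tsum_comp_le_tsum_of_injective he fun e => ENNReal.ofReal (wt e J)

end Pool.Agent.U162.MU
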