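import Pool.Agent.U162.MU.Steer2

/-!
Superpositions of many small oscillating fields at different scales
-/

open MeasureTheory Set Filter Topology
open scoped ENNReal NNReal ContDiff

namespace Pool.Agent.U162.MU

open Pool.Agent.H356R3.NS Pool.Agent.U162.TS Pool.Agent.U162.GE Pool.Agent.U162.TS.EL Pool.Agent.U162.TS.VF Pool.Agent.U162.PL

/-- the direction of a scale -/
def qj (n : ℕ) (j : Fin (n * (3 * 3))) : Fin 3 × Fin 3 := finProdFinEquiv.symm (finProdFinEquiv.symm j).2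

lemma sum_qj {M : Type*} [AddCommMonoid M] (n : ℕ) (F : Fin 3 × Fin 3 → M) :
    ∑ j, F (qj n j) = n • ∑ q, F q := by
  have h1 : ∑ j : Fin (n * (3 * 3)), F (qj n j) = ∑ p : Fin n × Fin (3 * 3), F (finProdFinEquiv.symm p.2) :=
    Equiv.sum_comp (finProdFinEquiv.symm : Fin (n * (3 * 3)) ≃ Fin n × Fin (3 * 3)) fun p => F (finProdFinEquiv.symm p.2)
  rw [h1, Fintype.sum_prod_type]
  simp only [Finset.sum_const, Finset.card_univ, Fintype.card_fin]
  have h2 : ∑ x : Fin (3 * 3), F (finProdFinEquiv.symm x) = ∑ q, F q :=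
    Equiv.sum_comp (finProdFinEquiv.symm : Fin (3 * 3) ≃ Fin 3 × Fin 3) F
  rw [h2]

lemma shell_mono {a b : K → C3} (h : ∀ k, ‖a k‖ₑ ≤ ‖b k‖ₑ) (J : ℕ) : shellSum a J ≤ shellSum b J := by
  unfold shellSum
  refine ENNReal.tsum_le_tsum fun k => ?_
  split_ifs
  · exact h k
  · exact le_rfl

lemma crit_mono {a b : K → C3} (h : ∀ k, ‖a k‖ₑ ≤ ‖b k‖ₑ) {s : ℝ} (hs : 0 ≤ s) : critNorm s a ≤ critNorm s b := by
  unfold critNorm
  refine ENNReal.rpow_le_rpow (ENNReal.tsum_le_tsum fun J => ENNReal.rpow_le_rpow ?_ hs) (by positivity)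
  exact ENNReal.div_le_div_right (shell_mono h J) _

lemma shell_sum {ι : Type*} (s : Finset ι) (a : ι → K → C3) (J : ℕ) :
    shellSum (fun k => ∑ j ∈ s, a j k) J ≤ ∑ j ∈ s, shellSum (a j) J := by
  unfold shellSum
  rw [← Summable.tsum_finsetSum fun _ _ => ENNReal.summable]
  refine ENNReal.tsum_le_tsum fun k => ?_
  split_ifs
  · exact enorm_sum_le _ _
  · simp

lemma shell_smul {r : ℝ} (hr : 0 ≤ r) (a : K → C3) (J : ℕ) : shellSum (fun k => r • a k) J = ENNReal.ofReal r * shellSum a J := by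
  unfold shellSum
  rw [← ENNReal.tsum_mul_left]
  refine tsum_congr fun k => ?_
  split_ifs
  · rw [enorm_smul, ← ofReal_norm, Real.norm_of_nonneg hr]
  · simp

/-- the critical norm of a superposition -/
lemma crit_super {P : Fin 3 × Fin 3 → R3 → R3 → R3} (hP : ∀ q, Profile (P q)) {s : ℝ} (hs : 1 < s) {r : ℝ} (hr : 0 ≤ r)
    {n : ℕ} {e : Fin (n * (3 * 3)) → ℕ} (he : Function.Injective e) :
    critNorm s (fun κ => ∑ j, r • dosc (P (qj n j)) (2 ^ e j) κ)
      ≤ (ENNReal.ofReal (9 * n)) ^ (1 / s) * (ENNReal.ofReal (4 * r) * ∑ q, CV (P q)) := by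
  set C := ∑ q, CV (P q) with hC
  set B := ENNReal.ofReal (4 * r) * C with hB
  have hs0 : 0 < s := by linarith
  have hCq : ∀ q, CV (P q) ≤ C := fun q => Finset.single_le_sum (f := fun q => CV (P q)) (fun _ _ => bot_le) (Finset.mem_univ q)
  have hS : ∀ J, shellSum (fun κ => ∑ j, r • dosc (P (qj n j)) (2 ^ e j) κ) J / 2 ^ J
      ≤ ∑ j, ENNReal.ofReal r * (ENNReal.ofReal (wt (e j) J) * C) := by
    intro J
    have h1 := shell_sum Finset.univ (fun j κ => r • dosc (P (qj n j)) (2 ^ e j) κ) J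
    refine (ENNReal.div_le_div_right h1 _).trans ?_
    rw [div_eq_mul_inv, Finset.sum_mul]
    refine Finset.sum_le_sum fun j _ => ?_
    rw [shell_smul hr, mul_assoc]
    refine mul_le_mul' le_rfl ?_
    have h2 := shell_dosc (hP (qj n j)) (e j) J
    rw [div_eq_mul_inv] at h2
    exact h2.trans (mul_le_mul' le_rfl (hCq _))
  have h4r : ENNReal.ofReal (4 * r) = 4 * ENNReal.ofReal r := by
    rw [ENNReal.ofReal_mul (by norm_num)]; norm_num
  have hsup : ∀ J, shellSum (fun κ => ∑ j, r • dosc (P (qj n j)) (2 ^ e j) κ) J / 2 ^ J ≤ B := by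
    intro J
    refine (hS J).trans ?_
    rw [← Finset.mul_sum, ← Finset.sum_mul, hB, h4r]
    calc ENNReal.ofReal r * ((∑ j, ENNReal.ofReal (wt (e j) J)) * C) ≤ ENNReal.ofReal r * (4 * C) := by
          gcongr
          exact wt_fin he J
      _ = _ := by ring
  have hsum : ∑' J, shellSum (fun κ => ∑ j, r • dosc (P (qj n j)) (2 ^ e j) κ) J / 2 ^ J ≤ ENNReal.ofReal (9 * n) * B := by
    refine (ENNReal.tsum_le_tsum hS).trans ?_
    rw [Summable.tsum_finsetSum fun _ _ => ENNReal.summable]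
    have h1 : ∀ j : Fin (n * (3 * 3)), ∑' J, ENNReal.ofReal r * (ENNReal.ofReal (wt (e j) J) * C) ≤ B := by
      intro j
      rw [ENNReal.tsum_mul_left, ENNReal.tsum_mul_right, hB, h4r]
      have h2 := wt_sum (e j)
      simp only [wt_symm _ (e j)] at h2
      calc ENNReal.ofReal r * ((∑' J, ENNReal.ofReal (wt (e j) J)) * C) ≤ ENNReal.ofReal r * (4 * C) := by gcongr
        _ = _ := by ring
    refine (Finset.sum_le_sum fun j _ => h1 j).trans ?_
    rw [Finset.sum_const, Finset.card_univ, Fintype.card_fin, nsmul_eq_mul]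
    refine mul_le_mul' (le_of_eq ?_) le_rfl
    rw [ENNReal.ofReal_mul (by norm_num), ENNReal.ofReal_natCast]
    push_cast
    norm_num
    ring
  unfold critNorm
  have h5 : ∑' J, (shellSum (fun κ => ∑ j, r • dosc (P (qj n j)) (2 ^ e j) κ) J / 2 ^ J) ^ s
      ≤ ENNReal.ofReal (9 * n) * B ^ s := by
    calc ∑' J, (shellSum (fun κ => ∑ j, r • dosc (P (qj n j)) (2 ^ e j) κ) J / 2 ^ J) ^ s
        ≤ ∑' J, B ^ (s - 1) * (shellSum (fun κ => ∑ j, r • dosc (P (qj n j)) (2 ^ e j) κ) J / 2 ^ J) := by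
          refine ENNReal.tsum_le_tsum fun J => ?_
          set x := shellSum (fun κ => ∑ j, r • dosc (P (qj n j)) (2 ^ e j) κ) J / 2 ^ J with hx
          have h6 : x ^ s = x ^ (s - 1) * x := by
            calc x ^ s = x ^ ((s - 1) + 1) := by rw [sub_add_cancel]
              _ = x ^ (s - 1) * x ^ (1 : ℝ) := ENNReal.rpow_add_of_nonneg _ _ (by linarith) (by norm_num)
              _ = _ := by rw [ENNReal.rpow_one]
          rw [h6]
          exact mul_le_mul' (ENNReal.rpow_le_rpow (hsup J) (by linarith)) le_rfl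
      _ = B ^ (s - 1) * ∑' J, shellSum (fun κ => ∑ j, r • dosc (P (qj n j)) (2 ^ e j) κ) J / 2 ^ J := ENNReal.tsum_mul_left
      _ ≤ B ^ (s - 1) * (ENNReal.ofReal (9 * n) * B) := mul_le_mul' le_rfl hsum
      _ = ENNReal.ofReal (9 * n) * B ^ s := by
          have h6 : B ^ s = B ^ (s - 1) * B := by
            calc B ^ s = B ^ ((s - 1) + 1) := by rw [sub_add_cancel]
              _ = B ^ (s - 1) * B ^ (1 : ℝ) := ENNReal.rpow_add_of_nonneg _ _ (by linarith) (by norm_num)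
              _ = _ := by rw [ENNReal.rpow_one]
          rw [h6]; ring
  refine (ENNReal.rpow_le_rpow h5 (by positivity)).trans (le_of_eq ?_)
  rw [ENNReal.mul_rpow_of_nonneg _ _ (by positivity), ← ENNReal.rpow_mul]
  have : s * (1 / s) = 1 := by field_simp
  rw [this, ENNReal.rpow_one]

/-- the number of scales -/
lemma ex_scales {C : ℝ≥0∞} (hC : C ≠ ⊤) {s : ℝ} (hs : 2 < s) {ε : ℝ} (hε : 0 < ε) :
    ∃ n : ℕ, 0 < n ∧ (ENNReal.ofReal (9 * n)) ^ (1 / s) * (ENNReal.ofReal (4 * (1 / Real.sqrt n)) * C) ≤ ENNReal.ofReal ε := by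
  set C' := C.toReal with hC'
  have hC'0 : 0 ≤ C' := ENNReal.toReal_nonneg
  have hy : 0 < 1 / 2 - 1 / s := by
    have : 1 / s < 1 / 2 := one_div_lt_one_div_of_lt (by norm_num) hs
    linarith
  have hlim : Tendsto (fun n : ℕ => (n : ℝ) ^ (-(1 / 2 - 1 / s))) atTop (𝓝 0) :=
    (tendsto_rpow_neg_atTop hy).comp tendsto_natCast_atTop_atTop
  have hlim2 := hlim.const_mul ((9 : ℝ) ^ (1 / s) * 4 * C')
  rw [mul_zero] at hlim2
  obtain ⟨n, hn1, hn2⟩ := ((hlim2.eventually_lt_const hε).and (Filter.eventually_ge_atTop 1)).exists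
  refine ⟨n, hn2, ?_⟩
  have hn : (0 : ℝ) < n := by exact_mod_cast hn2
  rw [← ENNReal.ofReal_toReal hC, ← hC', ENNReal.ofReal_rpow_of_nonneg (by positivity) (by positivity),
    ← ENNReal.ofReal_mul (by positivity), ← ENNReal.ofReal_mul (by positivity)]
  apply ENNReal.ofReal_le_ofReal
  refine le_trans (le_of_eq ?_) hn1.le
  rw [Real.mul_rpow (by norm_num) hn.le, Real.sqrt_eq_rpow]
  have : (n : ℝ) ^ (-(1 / 2 - 1 / s)) = (n : ℝ) ^ (1 / s) * (1 / (n : ℝ) ^ (1 / 2 : ℝ)) := by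
    rw [neg_sub, Real.rpow_sub hn]
    ring
  rw [this]
  ring

end Pool.Agent.U162.MU
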