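import Pool.Agent.U162.MU.Cost4

/-!
Steering, with the cost in the norm of `FB^{-1}_{1,2}`
-/

open MeasureTheory Set Filter Topology
open scoped ENNReal NNReal ContDiff

namespace Pool.Agent.U162.MU

open Pool.Agent.H356R3.NS Pool.Agent.U162.TS Pool.Agent.U162.GE Pool.Agent.U162.TS.EL Pool.Agent.U162.TS.VF Pool.Agent.U162.TS.Ph Pool.Agent.U162.PL

lemma Ev.exists_gap : ∀ {J : ℕ} {P : (Fin J → ℕ) → Prop}, Ev J P → ∀ E G : ℕ,
    ∃ e : Fin J → ℕ, (∀ i j, i < j → e i + G ≤ e j) ∧ (∀ j, E ≤ e j) ∧ P fun j => 2 ^ e j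
  | 0, P, h, E, G => ⟨Fin.elim0, fun a => a.elim0, fun a => a.elim0, by
      have e : (fun j : Fin 0 => 2 ^ (Fin.elim0 j : ℕ)) = (Fin.elim0 : Fin 0 → ℕ) := funext fun j => j.elim0
      have h' : P Fin.elim0 := h
      rwa [← e] at h'⟩
  | J + 1, P, h, E, G => by
    have h' : ∀ᶠ n in atTop, Ev J fun N => P (Fin.cons n N) := h
    obtain ⟨N0, hN0⟩ := Filter.eventually_atTop.1 h'
    set e0 := max E N0 with he0
    have h1 : N0 ≤ 2 ^ e0 := (le_max_right E N0).trans Nat.lt_two_pow_self.le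
    obtain ⟨e, hgap, hge, hP⟩ := Ev.exists_gap (hN0 _ h1) (e0 + G) G
    refine ⟨Fin.cons e0 e, ?_, ?_, ?_⟩
    · intro i j hij
      revert hij
      refine Fin.cases (fun hij => ?_) (fun j hij => ?_) j
      · exact absurd hij (Fin.not_lt_zero i)
      · rw [Fin.cons_succ]
        revert hij
        refine Fin.cases (fun _ => ?_) (fun i hij => ?_) i
        · rw [Fin.cons_zero]; exact hge j
        · rw [Fin.cons_succ]
          exact hgap i j (Fin.succ_lt_succ_iff.1 hij)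
    · intro j
      refine Fin.cases ?_ (fun j => ?_) j
      · rw [Fin.cons_zero]; exact le_max_left _ _
      · rw [Fin.cons_succ]
        have h2 := hge j
        have h3 : E ≤ e0 := le_max_left _ _
        omega
    · have e1 : (fun j => 2 ^ (Fin.cons e0 e : Fin (J + 1) → ℕ) j) = (Fin.cons (2 ^ e0) fun j => 2 ^ e j : Fin (J + 1) → ℕ) := by
        funext j
        refine Fin.cases ?_ (fun j => ?_) j
        · rw [Fin.cons_zero, Fin.cons_zero]
        · rw [Fin.cons_succ, Fin.cons_succ]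
      rw [e1]; exact hP

lemma leiLin_fin {h : K → C3} (hh : Dta h) : leiLin h ≠ ⊤ := by
  rw [leiLin_eq]
  refine ne_top_of_le_ne_top (b := ENNReal.ofReal (∑' k, ‖h k‖)) ENNReal.ofReal_ne_top ?_
  rw [ENNReal.ofReal_tsum_of_nonneg (fun _ => norm_nonneg _) hh.sum]
  refine ENNReal.tsum_le_tsum fun k => ?_
  by_cases hk : k = 0
  · subst hk; rw [hh.mean]; simp
  · have h1 := one_le_nk hk
    rw [← ofReal_norm]
    calc ENNReal.ofReal (1 / nk k) * ENNReal.ofReal ‖h k‖ ≤ 1 * ENNReal.ofReal ‖h k‖ := by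
          gcongr
          rw [← ENNReal.ofReal_one]
          apply ENNReal.ofReal_le_ofReal
          rw [div_le_one (by positivity)]; exact h1
      _ = _ := one_mul _

/-- Steering, with the cost -/
theorem steering3 {ν : ℝ} (hν : 0 < ν) {u₀ g : R3 → R3} (hu₀ : Field u₀) (hg : Field g) {v : ℝ → R3 → R3}
    {p : ℝ → R3 → ℝ} (hv : AdmissiblePeriodic ν g v p) {s : ℝ} (hs : 2 < s) {ε : ℝ} (hε : 0 < ε) (K0 : ℕ) :
    ∃ b : R3 → R3, Field b ∧ (∀ k : Fq, ∑ i, k i ^ 2 ≤ (K0 : ℤ) → H356R3.NS.fc b k = H356R3.NS.fc u₀ k) ∧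
      critNorm s (fun k i => H356R3.NS.fc b k i - H356R3.NS.fc u₀ k i) ≤ ENNReal.ofReal ε ∧
      critNorm 2 (fun k i => H356R3.NS.fc b k i - H356R3.NS.fc u₀ k i) ^ 2
        ≤ ENNReal.ofReal (1000 * ν * (leiLin fun k i => H356R3.NS.fc g k i - H356R3.NS.fc u₀ k i).toReal + ε) ∧
      ∃ δ : ℝ, 0 < δ ∧ ∀ u₁ : R3 → R3, Field u₁ →
        heatSq ν (fun k i => H356R3.NS.fc u₁ k i - H356R3.NS.fc b k i) ≤ ENNReal.ofReal δ →
        ∃ u q, AdmissiblePeriodic ν u₁ u q ∧ (∀ t, ε ≤ t → ∀ x i, |u t x i - v t x i| ≤ ε) ∧ CloseAfter ε u v := by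
  have hc : 0 < 4 * Real.pi ^ 2 * ν := by positivity
  have hh : Dta fun k => H356R3.NS.fc g k + (-1 : ℝ) • H356R3.NS.fc u₀ k := dta_add hg.dta (dta_smul hu₀.dta (-1))
  set Lh := leiLin fun k i => H356R3.NS.fc g k i - H356R3.NS.fc u₀ k i with hLh
  have hLe : leiLin (fun k => H356R3.NS.fc g k + (-1 : ℝ) • H356R3.NS.fc u₀ k) = Lh := by
    rw [hLh]
    congr 1
    funext k i
    simp
    ring
  have hLt : Lh ≠ ⊤ := by
    rw [← hLe]; exact leiLin_fin hh
  set η0 := ε / (2 * 1000 * ν) with hη0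
  have hη0p : 0 < η0 := by positivity
  set μ := Lh.toReal + η0 with hμ
  have hμp : 0 < μ := by have := ENNReal.toReal_nonneg (a := Lh); positivity
  have hLμ : leiLin (fun k => H356R3.NS.fc g k + (-1 : ℝ) • H356R3.NS.fc u₀ k) ≤ ENNReal.ofReal μ := by
    rw [hLe, ← ENNReal.ofReal_toReal hLt]
    exact ENNReal.ofReal_le_ofReal (by rw [hμ]; linarith)
  obtain ⟨γ, hγ, hAγ, heff⟩ := shear_effect3 hν hh hμp hLμ
  have hm : ∀ q, m3 q ≠ 0 := m3_ne
  have hmo : ∀ q, ∑ j, (m3 q j : ℝ) * dr3 q j = 0 := m3_dr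
  have hP : ∀ q, Profile (fun x => sh ν (γ q x) (m3 q) (dr3 q) 0) := fun q => sh_profile ν (hγ q) (hm q) (hmo q)
  have hC : ∑ q, CV (fun x => sh ν (γ q x) (m3 q) (dr3 q) 0) ≠ ⊤ := by
    rw [ENNReal.sum_ne_top]
    exact fun q _ => CV_fin (hP q)
  obtain ⟨n, hn, hn2⟩ := ex_scales hC hs hε
  have hnp : (0 : ℝ) < n := by exact_mod_cast hn
  set r := 1 / Real.sqrt n with hr
  have hr0 : 0 ≤ r := by positivity
  set V : Fin (n * (3 * 3)) → R3 → R3 → R3 := fun j x => sh ν (r * γ (qj n j) x) (m3 (qj n j)) (dr3 (qj n j)) 0 with hVd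
  set W : Fin (n * (3 * 3)) → R3 → ℝ → R3 → R3 := fun j x => sh ν (r * γ (qj n j) x) (m3 (qj n j)) (dr3 (qj n j)) with hWd
  have hV : ∀ j, Profile (V j) := fun j => sh_profile ν (sp_const_mul (hγ _) r) (hm _) (hmo _)
  have hW : ∀ j x, AdmissiblePeriodic ν (V j x) (W j x) (fun _ _ => 0) := fun j x => sh_adm ν _ (hmo _)
  obtain ⟨δ0, hδ0, hall⟩ := multi_given hν (Q := fun _ _ _ _ => 0) hV hW hg hv hε
  have hpush : ∀ l i, H356R3.NS.fc g l i = H356R3.NS.fc u₀ l i + ∑ j, push (W j) l i := by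
    intro l i
    have h1 := sum_qj n fun q => push (fun x => sh ν (r * γ q x) (m3 q) (dr3 q)) l i
    have h2 : ∑ j, push (W j) l i = ∑ j, (fun q => push (fun x => sh ν (r * γ q x) (m3 q) (dr3 q)) l i) (qj n j) := rfl
    rw [h2, h1, heff, nsmul_eq_mul]
    have h3 : (n : ℂ) * (((r ^ 2 : ℝ) : ℂ) * (H356R3.NS.fc g l + (-1 : ℝ) • H356R3.NS.fc u₀ l) i)
        = (((n : ℝ) * r ^ 2 : ℝ) : ℂ) * (H356R3.NS.fc g l + (-1 : ℝ) • H356R3.NS.fc u₀ l) i := by
      push_cast; ring
    have h4 : (n : ℝ) * r ^ 2 = 1 := by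
      rw [hr, div_pow, Real.sq_sqrt hnp.le]; field_simp
    rw [h3, h4]
    simp
  have hEv := hall hu₀ hpush
  -- the scales
  set ρ0 := Real.sqrt δ0 with hρ0
  have hρ0p : 0 < ρ0 := Real.sqrt_pos.2 hδ0
  set sq2 := Real.sqrt (1 / (2 * (4 * Real.pi ^ 2 * ν))) with hsq2
  have hsq2p : 0 < sq2 := Real.sqrt_pos.2 (by positivity)
  set R := Real.sqrt K0 with hR
  have hR0 : 0 ≤ R := Real.sqrt_nonneg _
  have hA : ∑ j, CV (V j) ≠ ⊤ := by
    rw [ENNReal.sum_ne_top]
    exact fun j _ => CV_fin (hV j)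
  set A := (∑ j, CV (V j)).toReal with hAd
  have hA0 : 0 ≤ A := ENNReal.toReal_nonneg
  obtain ⟨E1, hE1⟩ := pow_unbounded_of_one_lt (sq2 * R * A / (ρ0 / 2)) (one_lt_two : (1 : ℝ) < 2)
  -- the parameters of the cost
  set B0 := 1 / 4 * Real.sqrt (816 * Real.pi * (ν * μ)) with hB0
  have hB00 : 0 ≤ B0 := by positivity
  set η := min 1 (ε / (42 * (B0 + 1))) with hη
  have hηp : 0 < η := lt_min one_pos (by positivity)
  set C' := (∑ q, CV (fun x => sh ν (γ q x) (m3 q) (dr3 q) 0)).toReal with hC'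
  have hC'0 : 0 ≤ C' := ENNReal.toReal_nonneg
  obtain ⟨E2, hE2⟩ := pow_unbounded_of_one_lt (20 * C' / η) (one_lt_two : (1 : ℝ) < 2)
  obtain ⟨G0, hG0⟩ := pow_unbounded_of_one_lt (4 * C' / η) (one_lt_two : (1 : ℝ) < 2)
  set E := max E1 E2 with hEd
  have hE : sq2 * R * A / (ρ0 / 2) < 2 ^ E :=
    hE1.trans_le (pow_le_pow_right₀ (by norm_num) (le_max_left _ _))
  obtain ⟨e, hgap, hge, hgood⟩ := hEv.exists_gap E (2 * (G0 + 1))
  have hinj : Function.Injective e := by
    intro i j hij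
    by_contra hne
    rcases lt_or_gt_of_ne hne with h | h
    · have := hgap i j h; omega
    · have := hgap j i h; omega
  have hgap2 : ∀ i j, i ≠ j → 2 * (G0 + 1) ≤ (e i - e j) + (e j - e i) := by
    intro i j hne
    rcases lt_or_gt_of_ne hne with h | h
    · have := hgap i j h; omega
    · have := hgap j i h; omega
  -- the data
  set D : K → C3 := fun κ => ∑ j, dosc (V j) (2 ^ e j) κ with hD
  have hDd : Dta D := by
    have h1 := dta_sum Finset.univ (f := fun j => dosc (V j) (2 ^ e j)) fun j => dta_smul (proj_dta fun i => osc_sp (hV j) _ i) _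
    have e1 : (fun l i => ∑ j, dosc (V j) (2 ^ e j) l i) = D := by
      funext l i
      rw [hD]; simp only [Finset.sum_apply]
    rw [← e1]; exact h1
  set c : K → ℝ := fun κ => if ∑ i, κ i ^ 2 ≤ (K0 : ℤ) then 0 else 1 with hcd
  have hcs : ∀ k, c (-k) = c k := by intro k; simp [hcd]
  have hcb : ∀ k, |c k| ≤ 1 := by intro k; simp only [hcd]; split_ifs <;> simp
  have hβ : Dta fun κ => H356R3.NS.fc u₀ κ + c κ • D κ := dta_add hu₀.dta (dta_mul hDd hcs hcb)
  have hfb := fld_fc hβ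
  have hfb' : ∀ κ, H356R3.NS.fc (fld fun κ => H356R3.NS.fc u₀ κ + c κ • D κ) κ = H356R3.NS.fc u₀ κ + c κ • D κ :=
    fun κ => funext fun i => hfb κ i
  have e1 : (fun k i => H356R3.NS.fc (fld fun κ => H356R3.NS.fc u₀ κ + c κ • D κ) k i - H356R3.NS.fc u₀ k i) = fun k => c k • D k := by
    funext k i
    rw [hfb']
    simp
  have hcm : ∀ s' : ℝ, 0 ≤ s' → critNorm s' (fun k => c k • D k) ≤ critNorm s' D := by
    intro s' hs'
    refine crit_mono (fun k => ?_) hs'
    rw [enorm_smul]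
    calc ‖c k‖ₑ * ‖D k‖ₑ ≤ 1 * ‖D k‖ₑ := by
          gcongr
          rw [← ofReal_norm, Real.norm_eq_abs, ← ENNReal.ofReal_one]
          exact ENNReal.ofReal_le_ofReal (hcb k)
      _ = _ := one_mul _
  have hDe : D = fun κ => ∑ j, r • dosc (fun x => sh ν (γ (qj n j) x) (m3 (qj n j)) (dr3 (qj n j)) 0) (2 ^ e j) κ := by
    funext κ
    rw [hD]
    exact Finset.sum_congr rfl fun j _ => dosc_sh ν (γ (qj n j)) (m3 (qj n j)) (dr3 (qj n j)) r (2 ^ e j) κ
  refine ⟨fld fun κ => H356R3.NS.fc u₀ κ + c κ • D κ, fld_field hβ, fun k hk => ?_, ?_, ?_, (ρ0 / 2) ^ 2, by positivity, fun u₁ hu₁ hcl => ?_⟩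
  · rw [hfb']
    simp only [hcd]
    rw [if_pos hk]; simp
  · rw [e1]
    refine (hcm s (by linarith)).trans (le_trans (le_of_eq ?_) ((crit_super hP (by linarith : 1 < s) hr0 hinj).trans hn2))
    rw [hDe]
  · -- the cost
    rw [e1]
    have h1 : critNorm 2 (fun k => c k • D k) ^ 2 ≤ critNorm 2 D ^ 2 := by
      gcongr
      exact hcm 2 (by norm_num)
    refine h1.trans ?_
    set b : Fin 3 × Fin 3 → ℝ := fun q => (if q.1 = q.2 then 0 else B0) + η with hbd
    have hb0 : ∀ q, 0 ≤ b q := by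
      intro q
      simp only [hbd]
      split_ifs <;> positivity
    have hbB : ∀ q, b q ≤ B0 + η := by
      intro q
      simp only [hbd]
      split_ifs
      · linarith
      · exact le_rfl
    have hbS : ∑ q, b q ≤ 6 * B0 + 9 * η := by
      simp only [hbd]
      rw [Fintype.sum_prod_type]
      simp only [Fin.sum_univ_three]
      simp
      linarith
    have hB : ∀ j, ∑' J, shellSum (dosc (fun x => sh ν (γ (qj n j) x) (m3 (qj n j)) (dr3 (qj n j)) 0) (2 ^ e j)) J / 2 ^ J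
        ≤ ENNReal.ofReal (b (qj n j)) := by
      intro j
      set q := qj n j with hq
      have h2 := shells_dosc (hP q) (fun P hb => supp_sh ν (γ q) (nk_m3 q) (dr3 q) P hb) (e j)
      set X : ℝ := if q.1 = q.2 then 0 else 1 with hX
      have hX0 : 0 ≤ X := by rw [hX]; split_ifs <;> norm_num
      have h3 := main_sh3 ν (γ q) (nk_m3 q) (ξ := dr3 q) hX0 (dr3_le q)
      have h4 : ENNReal.ofReal (1 / 4) * (∑' P : K × K, ‖bV (fun x => sh ν (γ q x) (m3 q) (dr3 q) 0) P‖ₑ)
          ≤ ENNReal.ofReal (if q.1 = q.2 then 0 else B0) := by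
        refine (mul_le_mul' le_rfl (h3.trans (mul_le_mul' le_rfl (hAγ q)))).trans (le_of_eq ?_)
        rw [← ENNReal.ofReal_mul hX0, ← ENNReal.ofReal_mul (by norm_num)]
        congr 1
        rw [hX, hB0]
        split_ifs <;> ring
      have h5 : ENNReal.ofReal (20 / (2 ^ e j : ℕ)) * CV (fun x => sh ν (γ q x) (m3 q) (dr3 q) 0) ≤ ENNReal.ofReal η := by
        calc ENNReal.ofReal (20 / (2 ^ e j : ℕ)) * CV (fun x => sh ν (γ q x) (m3 q) (dr3 q) 0)
            ≤ ENNReal.ofReal (20 / 2 ^ E2) * ENNReal.ofReal C' := by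
              refine mul_le_mul' (ENNReal.ofReal_le_ofReal ?_) ?_
              · push_cast
                have : (2 : ℝ) ^ E2 ≤ 2 ^ e j := pow_le_pow_right₀ (by norm_num) ((le_max_right E1 E2).trans (hge j))
                exact div_le_div_of_nonneg_left (by norm_num) (by positivity) this
              · rw [hC', ENNReal.ofReal_toReal hC]
                exact Finset.single_le_sum (f := fun q => CV (fun x => sh ν (γ q x) (m3 q) (dr3 q) 0)) (fun _ _ => bot_le) (Finset.mem_univ q)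
          _ ≤ _ := by
              rw [← ENNReal.ofReal_mul (by positivity)]
              apply ENNReal.ofReal_le_ofReal
              rw [div_lt_iff₀ hηp] at hE2
              have h2E : (0 : ℝ) < 2 ^ E2 := by positivity
              rw [div_mul_eq_mul_div, div_le_iff₀ h2E]
              linarith
      refine h2.trans ((add_le_add h4 h5).trans (le_of_eq ?_))
      rw [← ENNReal.ofReal_add (by split_ifs <;> positivity) hηp.le]
    have hηG : ENNReal.ofReal (4 * (1 / 2) ^ (G0 + 1)) * ∑ q, CV (fun x => sh ν (γ q x) (m3 q) (dr3 q) 0) ≤ ENNReal.ofReal η := by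
      rw [← ENNReal.ofReal_toReal hC, ← hC', ← ENNReal.ofReal_mul (by positivity)]
      apply ENNReal.ofReal_le_ofReal
      rw [div_lt_iff₀ hηp] at hG0
      have h2G : (0 : ℝ) < 2 ^ G0 := by positivity
      have e2 : 4 * (1 / 2 : ℝ) ^ (G0 + 1) * C' = 2 * C' / 2 ^ G0 := by
        rw [pow_succ, one_div_pow]; field_simp; norm_num
      rw [e2, div_le_iff₀ h2G]
      nlinarith
    have hmain := crit2_super3 hP hr0 hinj hgap2 hb0 (by positivity : 0 ≤ B0 + η) hbB hbS hB hηp.le hηG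
    rw [hDe]
    refine hmain.trans (ENNReal.ofReal_le_ofReal ?_)
    have hnr : (n : ℝ) * r ^ 2 = 1 := by
      rw [hr, div_pow, Real.sq_sqrt hnp.le]; field_simp
    rw [hnr]
    have hB2 : B0 ^ 2 = 51 * Real.pi * (ν * μ) := by
      rw [hB0, mul_pow, Real.sq_sqrt (by positivity)]; ring
    have hpi := Real.pi_lt_d2
    have h6 : 6 * B0 ^ 2 ≤ 1000 * (ν * μ) := by
      rw [hB2]
      have : 0 < ν * μ := by positivity
      nlinarith
    have h7 : 1000 * (ν * μ) = 1000 * ν * Lh.toReal + ε / 2 := by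
      rw [hμ, hη0]; field_simp
    have h8 : η * (42 * (B0 + 1)) ≤ ε := by
      have h := min_le_right 1 (ε / (42 * (B0 + 1)))
      rw [← hη] at h
      have hB1 : 0 < 42 * (B0 + 1) := by positivity
      rwa [le_div_iff₀ hB1] at h
    have h9 : η ≤ 1 := min_le_left _ _
    have h11 : η ^ 2 ≤ η := by nlinarith
    have h10 : 1 * ((B0 + η + η) * (6 * B0 + 9 * η)) = 6 * B0 ^ 2 + 21 * B0 * η + 18 * η ^ 2 := by ring
    rw [h10]
    have h12 : 21 * B0 * η + 18 * η ^ 2 ≤ ε / 2 := by nlinarith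
    linarith
  · -- the low modes
    set L : K → C3 := fun κ => if ∑ i, κ i ^ 2 ≤ (K0 : ℤ) then D κ else 0 with hL
    have hL0 : L 0 = 0 := by
      simp only [hL]
      split_ifs
      · exact hDd.mean
      · rfl
    have hLN : HN (4 * Real.pi ^ 2 * ν) L ≤ ENNReal.ofReal (ρ0 / 2) := by
      refine (HN_le hc hL0).trans ?_
      have h1 : eN L ≤ ∑ j, ENNReal.ofReal (R / (2 ^ e j : ℕ)) * CV (V j) := by
        refine le_trans ?_ (Finset.sum_le_sum fun j _ => low_dosc (hV j) (N := 2 ^ e j) (by positivity) hR0)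
        rw [← Summable.tsum_finsetSum fun _ _ => ENNReal.summable]
        unfold eN
        refine ENNReal.tsum_le_tsum fun κ => ?_
        simp only [hL]
        split_ifs with h2 h3 h3
        · rw [← Finset.sum_mul]
          exact mul_le_mul' (enorm_sum_le _ _) le_rfl
        · exfalso
          apply h3
          rw [hR]
          apply Real.le_sqrt_of_sq_le
          rw [H356R3.NS.nk_sq]
          unfold H356R3.NS.sq
          exact_mod_cast h2
        · simp
        · simp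
      have h2 : ∑ j, ENNReal.ofReal (R / (2 ^ e j : ℕ)) * CV (V j) ≤ ENNReal.ofReal (R / 2 ^ E * A) := by
        rw [ENNReal.ofReal_mul (by positivity), hAd, ENNReal.ofReal_toReal hA, Finset.mul_sum]
        refine Finset.sum_le_sum fun j _ => mul_le_mul' (ENNReal.ofReal_le_ofReal ?_) le_rfl
        push_cast
        have : (2 : ℝ) ^ E ≤ 2 ^ e j := pow_le_pow_right₀ (by norm_num) (hge j)
        exact div_le_div_of_nonneg_left hR0 (by positivity) this
      refine (mul_le_mul' le_rfl (h1.trans h2)).trans ?_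
      rw [← ENNReal.ofReal_mul hsq2p.le]
      apply ENNReal.ofReal_le_ofReal
      rw [div_lt_iff₀ (by positivity)] at hE
      have h2E : (0 : ℝ) < 2 ^ E := by positivity
      have : sq2 * (R / 2 ^ E * A) = sq2 * R * A / 2 ^ E := by ring
      rw [this, div_le_iff₀ h2E]
      linarith
    -- the difference of the data
    set d1 : K → C3 := fun k i => H356R3.NS.fc u₁ k i - H356R3.NS.fc (fld fun κ => H356R3.NS.fc u₀ κ + c κ • D κ) k i with hd1
    have hd10 : d1 0 = 0 := by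
      funext i
      simp only [hd1]
      rw [hfb', hu₁.dta.mean, hu₀.dta.mean, hDd.mean]
      simp
    have hN1 : HN (4 * Real.pi ^ 2 * ν) d1 ≤ ENNReal.ofReal (ρ0 / 2) := by
      have h1 : HN (4 * Real.pi ^ 2 * ν) d1 ^ (2 : ℝ) ≤ ENNReal.ofReal (ρ0 / 2) ^ (2 : ℝ) := by
        rw [← heatSq_eq_HN hd10, ENNReal.ofReal_rpow_of_nonneg (by positivity) (by norm_num)]
        refine hcl.trans (le_of_eq ?_)
        norm_num
      exact (ENNReal.rpow_le_rpow_iff (by norm_num)).1 h1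
    have hN2 : HN (4 * Real.pi ^ 2 * ν) (d1 - L) ≤ ENNReal.ofReal ρ0 := by
      rw [sub_eq_add_neg]
      refine (HN_add _ _ _).trans ?_
      rw [HN_neg]
      refine (add_le_add hN1 hLN).trans (le_of_eq ?_)
      rw [← ENNReal.ofReal_add (by positivity) (by positivity)]
      congr 1; ring
    have hfin : heatSq ν (fun k i => H356R3.NS.fc u₁ k i - mixs u₀ V (fun j => 2 ^ e j) k i) ≤ ENNReal.ofReal δ0 := by
      have h1 : heatSq ν (fun k i => H356R3.NS.fc u₁ k i - mixs u₀ V (fun j => 2 ^ e j) k i) = heatSq ν (d1 - L) := by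
        refine heatSq_congr fun k hk => ?_
        funext i
        rw [mixs_dosc u₀ V _ hk]
        simp only [hd1, hL, Pi.sub_apply]
        rw [hfb']
        simp only [hcd]
        by_cases h2 : ∑ i, k i ^ 2 ≤ (K0 : ℤ)
        · rw [if_pos h2, if_pos h2]
          simp only [zero_smul, add_zero]
          ring
        · rw [if_neg h2, if_neg h2]
          simp only [one_smul, Pi.add_apply, Pi.zero_apply]
          ring
      rw [h1, heatSq_eq_HN (by rw [Pi.sub_apply, hd10, hL0, sub_zero])]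
      refine (ENNReal.rpow_le_rpow hN2 (by norm_num)).trans (le_of_eq ?_)
      rw [ENNReal.ofReal_rpow_of_nonneg hρ0p.le (by norm_num), Real.rpow_two, hρ0, Real.sq_sqrt hδ0.le]
    obtain ⟨u, q, h1, h2, h3, -⟩ := hgood u₁ hu₁ hfin
    exact ⟨u, q, h1, h2, h3⟩

end Pool.Agent.U162.MU
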