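import Pool.Agent.U162.MU.Ph
import Pool.Agent.U162.MU.Defs

/-!
Triangle inequalities for the distances
-/

open MeasureTheory Set Filter Topology
open scoped ENNReal NNReal ContDiff

namespace Pool.Agent.U162.MU

open Pool.Agent.H356R3.NS Pool.Agent.U162.TS Pool.Agent.U162.GE Pool.Agent.U162.TS.EL Pool.Agent.U162.PL

lemma sq_four (a b : ℝ≥0∞) : (a + b) ^ 2 ≤ 4 * a ^ 2 + 4 * b ^ 2 := by
  rcases le_total a b with h | h
  · calc (a + b) ^ 2 ≤ (b + b) ^ 2 := by gcongr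
      _ = 4 * b ^ 2 := by ring
      _ ≤ _ := le_add_self
  · calc (a + b) ^ 2 ≤ (a + a) ^ 2 := by gcongr
      _ = 4 * a ^ 2 := by ring
      _ ≤ _ := le_self_add

lemma sup_meas {f : ℝ → R3 → R3} (hf : ∀ x, ContinuousOn (fun t => f t x) (Ici 0)) :
    Measurable fun t : ℝ => ⨆ x, ‖f (max t 0) x‖ₑ := by
  apply LowerSemicontinuous.measurable
  apply lowerSemicontinuous_iSup
  intro x
  have h1 : Continuous fun t : ℝ => f (max t 0) x := by
    have := (hf x).comp_continuous (f := fun t : ℝ => max t 0) (continuous_id.max continuous_const) fun t => le_max_right t 0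
    exact this
  exact h1.enorm.lowerSemicontinuous

lemma tri {S : Set ℝ} (hSm : MeasurableSet S) (hS : S ⊆ Ici 0) {A B C : ℝ → R3 → R3}
    (hA : ∀ x, ContinuousOn (fun t => A t x) (Ici 0)) (hC : ∀ t ∈ S, ∀ x, C t x = A t x + B t x)
    {ε : ℝ} (hε : 0 ≤ ε) (h1 : ∫⁻ t in S, (⨆ x, ‖A t x‖ₑ) ^ 2 ≤ ENNReal.ofReal (ε / 8))
    (h2 : ∫⁻ t in S, (⨆ x, ‖B t x‖ₑ) ^ 2 ≤ ENNReal.ofReal (ε / 8)) :
    ∫⁻ t in S, (⨆ x, ‖C t x‖ₑ) ^ 2 ≤ ENNReal.ofReal ε := by
  have hm := sup_meas hA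
  have e : ∫⁻ t in S, (⨆ x, ‖A t x‖ₑ) ^ 2 = ∫⁻ t in S, (⨆ x, ‖A (max t 0) x‖ₑ) ^ 2 := by
    refine setLIntegral_congr_fun hSm fun t ht => ?_
    have : max t 0 = t := max_eq_left (hS ht)
    simp only [this]
  calc ∫⁻ t in S, (⨆ x, ‖C t x‖ₑ) ^ 2 ≤ ∫⁻ t in S, (4 * (⨆ x, ‖A (max t 0) x‖ₑ) ^ 2 + 4 * (⨆ x, ‖B t x‖ₑ) ^ 2) := by
        refine setLIntegral_mono' hSm fun t ht => ?_
        have e1 : max t 0 = t := max_eq_left (hS ht)
        simp only [e1]
        refine le_trans ?_ (sq_four _ _)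
        gcongr
        refine iSup_le fun x => ?_
        rw [hC t ht x]
        refine (enorm_add_le _ _).trans (add_le_add (le_iSup (fun x => ‖A t x‖ₑ) x) (le_iSup (fun x => ‖B t x‖ₑ) x))
    _ = (∫⁻ t in S, 4 * (⨆ x, ‖A (max t 0) x‖ₑ) ^ 2) + ∫⁻ t in S, 4 * (⨆ x, ‖B t x‖ₑ) ^ 2 := by
        rw [lintegral_add_left]
        exact (hm.pow_const 2).const_mul 4
    _ = 4 * (∫⁻ t in S, (⨆ x, ‖A (max t 0) x‖ₑ) ^ 2) + 4 * ∫⁻ t in S, (⨆ x, ‖B t x‖ₑ) ^ 2 := by
        rw [lintegral_const_mul _ (hm.pow_const 2), lintegral_const_mul' _ _ (by norm_num)]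
    _ ≤ 4 * ENNReal.ofReal (ε / 8) + 4 * ENNReal.ofReal (ε / 8) := by
        rw [← e]; gcongr
    _ = ENNReal.ofReal ε := by
        rw [show (4 : ℝ≥0∞) = ENNReal.ofReal 4 by norm_num, ← ENNReal.ofReal_mul (by norm_num),
          ← ENNReal.ofReal_add (by positivity) (by positivity)]
        congr 1; ring

lemma adm_cont {ν : ℝ} {g : R3 → R3} {u : ℝ → R3 → R3} {p : ℝ → R3 → ℝ} (h : AdmissiblePeriodic ν g u p) (x : R3) :
    ContinuousOn (fun t => u t x) (Ici 0) := by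
  have h1 := h.smooth_u.continuousOn
  have h2 : ContinuousOn (fun t : ℝ => ((t, x) : ℝ × R3)) (Ici 0) := (continuous_id.prodMk continuous_const).continuousOn
  exact h1.comp h2 fun t ht => ⟨ht, mem_univ _⟩

lemma heatSq_congr {ν : ℝ} {d d' : Fq → Fin 3 → ℂ} (h : ∀ k, k ≠ 0 → d k = d' k) : heatSq ν d = heatSq ν d' := by
  unfold heatSq
  refine lintegral_congr fun t => ?_
  congr 1
  refine tsum_congr fun k => ?_
  by_cases hk : k = 0
  · rw [if_pos hk, if_pos hk]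
  · rw [if_neg hk, if_neg hk, h k hk]

lemma heatSq_zero (ν : ℝ) : heatSq ν (fun _ => 0) = 0 := by
  unfold heatSq
  simp

lemma push_eq_zero (l : Fq) : push (fun _ _ _ => (0 : R3)) l = 0 := by
  have h : ∀ j m x, stress (fun _ _ _ => (0 : R3)) j m x = 0 := by
    intro j m x
    unfold stress
    simp
  funext i
  unfold push leray
  simp [h]

lemma field_zero : Field (fun _ => (0 : R3)) where
  smooth := contDiff_const
  periodic := fun _ _ => rfl
  divFree := fun x => by simp [H356R3.NS.pd]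
  mean := fun i => by simp

lemma profile_zero : Profile (fun _ _ => (0 : R3)) where
  smooth := contDiff_const
  periodic := fun _ _ _ => rfl
  field := fun _ => field_zero

lemma adm_zero (ν : ℝ) : AdmissiblePeriodic ν (fun _ => (0 : R3)) (fun _ _ => 0) (fun _ _ => 0) where
  smooth_u := contDiffOn_const
  smooth_p := contDiffOn_const
  periodic_u := fun _ _ _ _ => rfl
  periodic_p := fun _ _ _ _ => rfl
  momentum := fun t ht x i => by
    have h : ∀ j, H356R3.NS.pd j (fun _ : R3 => (0 : ℝ)) = fun _ => 0 := fun j => by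
      funext y; simp [H356R3.NS.pd]
    simp only [Pi.zero_apply, h]
    simp
  divFree := fun _ _ x => by simp [H356R3.NS.pd]
  initial := rfl

lemma mix_zero (a : R3 → R3) (N : ℕ) (k : Fq) (i : Fin 3) : mix a (fun _ _ => 0) N k i = fc a k i := by
  unfold mix leray
  have : fc (fun _ : R3 => (0 : R3)) k = 0 := by
    funext j; unfold fc; simp
  simp only [this]
  simp

end Pool.Agent.U162.MU
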