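import Pool.Agent.U162.MU.Ut

/-!
The two-scale theorem for all smooth data near the two-scale data
-/

open MeasureTheory Set Filter Topology
open scoped ENNReal NNReal ContDiff

namespace Pool.Agent.U162.GE

open Pool.Agent.H356R3.NS Pool.Agent.U162.TS Pool.Agent.U162.TS.EL Pool.Agent.U162.PL

/-- the two-scale theorem on the Fourier side for all smooth data near the two-scale data -/
theorem two_scale_alu {ν c : ℝ} (hν : 0 < ν) (hc : 0 < c) (hcν : c = 4 * Real.pi ^ 2 * ν) {D1 D2 : ℝ}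
    (hD1 : 0 ≤ D1) (hD2 : 0 ≤ D2) {ε : ℝ} (hε : 0 < ε) :
    ∃ ρ : ℝ, 0 < ρ ∧ ∀ {X : Fam} (_hX : FlowC c X), LN (fun t => NW (Wa 0) (at' X t)) ≤ ENNReal.ofReal D1 →
    ∀ {w : K × K → ℝ → C3} {σ : ℝ} (_hw : CellFlow c w σ), LN (fun s => ∑' P, ‖w P s‖ₑ) ≤ ENNReal.ofReal D2 →
    ∀ {V0 : K → C3} (_hV0 : ∑' k, ‖V0 k‖ₑ ≠ ⊤)
    (_hws : ∑' P : K × K, ENNReal.ofReal (1 + nk P.1) * ‖w P 0‖ₑ ≠ ⊤)
    (_hg : ∀ k, X k 0 = V0 k + Kick w k) {δ : ℝ} (_hδ : 0 < δ), ∃ F : Finset (K × K),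
      LN (fun s => ∑' P : K × K, if P ∈ F then 0 else ‖w P s‖ₑ) ≤ ENNReal.ofReal ε ∧
    ∃ N0 : ℕ, ∀ N : ℕ, N0 ≤ N → ∀ (V : K → C3) (hV : Dta V),
      HN c (V - DN V0 (fun P => w P 0) N) ≤ ENNReal.ofReal ρ →
      ∃ z : EE, Phi hc z = hE hc V hV.sum ∧
      LNd δ (XX c z - X) ≤ ENNReal.ofReal ε ∧
      LN (fun t => NW (Wa 0) (at' (XX c z - X - FM N F (zφ w N)) t)) ≤ ENNReal.ofReal ε ∧
      LN (fun t => NW (Wa 0) (at' (XX c z) t)) ≤ ENNReal.ofReal (D1 + D2 + ε) := by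
  obtain ⟨ρ, hρ, hall⟩ := two_scale_uni hc hD1 hD2 (half_pos hε)
  refine ⟨ρ / 2, half_pos hρ, fun {X} hX hL1 {w} {σ} hw hL2 {V0} hV0 hws hg {δ} hδ => ?_⟩
  obtain ⟨F, hF, N0, hN0⟩ := hall hX hL1 hw hL2 hV0 hws hg hδ
  refine ⟨F, hF.trans (ENNReal.ofReal_le_ofReal (by linarith)), max N0 1, fun N hN V hV hρV => ?_⟩
  have hN1 := (le_max_left _ _).trans hN
  have hN2 := (le_max_right _ _).trans hN
  -- the truncations of the data
  have hsq : 0 < Real.sqrt (1 / (2 * c)) := Real.sqrt_pos.2 (by positivity)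
  have hVt : ∑' k, ‖V k‖ₑ ≠ ⊤ := by
    have e : ∑' k, ‖V k‖ₑ = ENNReal.ofReal (∑' k, ‖V k‖) := by
      rw [ENNReal.ofReal_tsum_of_nonneg (fun _ => norm_nonneg _) hV.sum]
      simp
    rw [e]; exact ENNReal.ofReal_ne_top
  obtain ⟨S0, hS0⟩ := tail0 hVt (ENNReal.ofReal_pos.2 (by positivity : 0 < ρ / (2 * Real.sqrt (1 / (2 * c)))))
  obtain ⟨n0, hn0⟩ := Filter.eventually_atTop.1 (box_tendsto.eventually_ge_atTop S0)
  have htr : ∀ n, n0 ≤ n → HN c (res (box n) V - DN V0 (fun P => w P 0) N) ≤ ENNReal.ofReal ρ := by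
    intro n hn
    refine (HN_tri c _ V _).trans ?_
    have h1 : HN c (res (box n) V - V) ≤ ENNReal.ofReal (ρ / 2) := by
      have hz : (res (box n) V - V) 0 = 0 := by
        rw [Pi.sub_apply, (res_dta hV fun _ => box_neg).mean, hV.mean, sub_zero]
      refine (HN_le hc hz).trans ?_
      have h2 : eN (res (box n) V - V) ≤ ENNReal.ofReal (ρ / (2 * Real.sqrt (1 / (2 * c)))) := by
        refine le_trans ?_ (hS0 (box n) (hn0 n hn))
        unfold eN
        refine ENNReal.tsum_le_tsum fun k => ?_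
        rw [Pi.sub_apply]
        by_cases hk : k ∈ box n
        · rw [if_pos hk]
          unfold res
          rw [if_pos hk, sub_self]; simp
        · rw [if_neg hk]
          unfold res
          rw [if_neg hk, zero_sub, enorm_neg]
          by_cases hk0 : k = 0
          · subst hk0; rw [nk_zero]; simp
          · refine (mul_le_mul' le_rfl (?_ : ENNReal.ofReal (1 / nk k) ≤ 1)).trans (by rw [mul_one])
            rw [← ENNReal.ofReal_one]
            apply ENNReal.ofReal_le_ofReal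
            have := one_le_nk hk0
            rw [div_le_one (by positivity)]; exact this
      refine (mul_le_mul' le_rfl h2).trans (le_of_eq ?_)
      rw [← ENNReal.ofReal_mul hsq.le]
      congr 1
      field_simp
    refine (add_le_add h1 hρV).trans (le_of_eq ?_)
    rw [← ENNReal.ofReal_add (by positivity) (by positivity)]
    congr 1; ring
  have hex : ∀ n, n0 ≤ n → ∃ z : EE, Phi hc z = hE hc (res (box n) V) (res_dta hV fun _ => box_neg).sum ∧
      LNd δ (XX c z - X) ≤ ENNReal.ofReal (ε / 2) ∧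
      LN (fun t => NW (Wa 0) (at' (XX c z - X - FM N F (zφ w N)) t)) ≤ ENNReal.ofReal (ε / 2) ∧
      LN (fun t => NW (Wa 0) (at' (XX c z) t)) ≤ ENNReal.ofReal (D1 + D2 + ε / 2) := by
    intro n hn
    have hd := res_dta hV (F := box n) fun _ => box_neg
    obtain ⟨a, u, ha, hS, h1, h2, h3⟩ := hN0 N hN1 (res (box n) V) ⟨box n, fun k hk => by unfold res; rw [if_neg hk]⟩
      (fun k i => hd.real k i) hd.mean (htr n hn)
    obtain ⟨z, hz1, hz2⟩ := mem_of_Sol hν hc hcν ha hd hS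
    refine ⟨z, hz1, ?_, ?_, ?_⟩
    · rw [hz2]; exact h1
    · rw [hz2]; exact h2
    · rw [hz2]; exact h3
  choose! zn hzn1 hzn2 hzn3 hzn4 using hex
  have hcX : CF X := hX.cf
  have hcF : CF (FM N F (zφ w N)) := FM_cf hw.cw F N
  set M := ((LN (fun t => NW (Wa 0) (at' X t))) + LN (fun t => NW (Wa 0) (at' (FM N F (zφ w N)) t))
    + ENNReal.ofReal (ε / 2)).toReal with hM
  have hMtop : (LN (fun t => NW (Wa 0) (at' X t))) + LN (fun t => NW (Wa 0) (at' (FM N F (zφ w N)) t))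
    + ENNReal.ofReal (ε / 2) ≠ ⊤ := ENNReal.add_ne_top.2 ⟨ENNReal.add_ne_top.2 ⟨hX.l2, FM_fin hw F hN2⟩, ENNReal.ofReal_ne_top⟩
  have hMn : ∀ n, n0 ≤ n → LN (fun t => NW (Wa 0) (at' (XX c (zn n)) t)) ≤ ENNReal.ofReal M := by
    intro n hn
    rw [hM, ENNReal.ofReal_toReal hMtop]
    have e : XX c (zn n) = X + (FM N F (zφ w N) + (XX c (zn n) - X - FM N F (zφ w N))) := by abel
    have c2 : CF (XX c (zn n) - X - FM N F (zφ w N)) := fun k => ((XX_cf (zn n) k).sub (hcX k)).sub (hcF k)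
    rw [add_assoc]
    calc LN (fun t => NW (Wa 0) (at' (XX c (zn n)) t))
        = LN (fun t => NW (Wa 0) (at' (X + (FM N F (zφ w N) + (XX c (zn n) - X - FM N F (zφ w N)))) t)) := by rw [← e]
      _ ≤ LN (fun t => NW (Wa 0) (at' X t) + (NW (Wa 0) (at' (FM N F (zφ w N)) t)
            + NW (Wa 0) (at' (XX c (zn n) - X - FM N F (zφ w N)) t))) :=
          LN_mono fun t _ => (NW_add_le _ _ _).trans (add_le_add le_rfl (NW_add_le _ _ _))
      _ ≤ _ := (LN_add_le (NW_meas _ hcX) ((NW_meas _ hcF).add (NW_meas _ c2))).trans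
          (add_le_add le_rfl ((LN_add_le (NW_meas _ hcF) (NW_meas _ c2)).trans (add_le_add le_rfl (hzn3 n hn))))
  obtain ⟨z, hz1, hz2⟩ := lim_sol hc hV ENNReal.toReal_nonneg hzn1 hMn
  have hsq2 : 0 ≤ Real.sqrt (1 / (2 * (c / 2))) := Real.sqrt_nonneg _
  have hev : ∀ᶠ n in atTop, ‖z - zn n‖ ≤ ε / (2 * (Real.sqrt (1 / (2 * (c / 2))) + 1)) := by
    have h1 := (Metric.tendsto_atTop.1 hz2) (ε / (2 * (Real.sqrt (1 / (2 * (c / 2))) + 1))) (by positivity)
    obtain ⟨n1, hn1⟩ := h1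
    filter_upwards [Filter.eventually_ge_atTop n1] with n hn
    have := hn1 n hn
    rw [dist_comm, dist_eq_norm] at this
    exact this.le
  obtain ⟨n, hn1, hn2⟩ := (hev.and (Filter.eventually_ge_atTop n0)).exists
  have hcl : LN (fun t => NW (Wa 0) (at' (XX c z - XX c (zn n)) t)) ≤ ENNReal.ofReal (ε / 2) := by
    refine (XX_close hc z (zn n)).trans (ENNReal.ofReal_le_ofReal ?_)
    rw [le_div_iff₀ (by positivity)] at hn1
    have := norm_nonneg (z - zn n)
    nlinarith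
  have hc1 : CF (XX c z - XX c (zn n)) := fun k => (XX_cf z k).sub (XX_cf (zn n) k)
  have hhalf : ENNReal.ofReal (ε / 2) + ENNReal.ofReal (ε / 2) = ENNReal.ofReal ε := by
    rw [← ENNReal.ofReal_add (by positivity) (by positivity)]
    congr 1; ring
  refine ⟨z, hz1, ?_, ?_, ?_⟩
  · have e : XX c z - X = (XX c z - XX c (zn n)) + (XX c (zn n) - X) := by abel
    rw [e, ← hhalf]
    exact (LNd_add hc1 fun k => (XX_cf (zn n) k).sub (hcX k)).trans (add_le_add ((LNd_le_LN _ _).trans hcl) (hzn2 n hn2))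
  · have e : XX c z - X - FM N F (zφ w N) = (XX c z - XX c (zn n)) + (XX c (zn n) - X - FM N F (zφ w N)) := by abel
    have c2 : CF (XX c (zn n) - X - FM N F (zφ w N)) := fun k => ((XX_cf (zn n) k).sub (hcX k)).sub (hcF k)
    rw [e, ← hhalf]
    exact ((LN_mono fun t _ => NW_add_le _ _ _).trans (LN_add_le (NW_meas _ hc1) (NW_meas _ c2))).trans
      (add_le_add hcl (hzn3 n hn2))
  · have e : XX c z = (XX c z - XX c (zn n)) + XX c (zn n) := by abel
    have c2 : CF (XX c (zn n)) := fun k => XX_cf (zn n) k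
    calc LN (fun t => NW (Wa 0) (at' (XX c z) t)) = LN (fun t => NW (Wa 0) (at' ((XX c z - XX c (zn n)) + XX c (zn n)) t)) := by rw [← e]
      _ ≤ LN (fun t => NW (Wa 0) (at' (XX c z - XX c (zn n)) t) + NW (Wa 0) (at' (XX c (zn n)) t)) :=
          LN_mono fun t _ => NW_add_le _ _ _
      _ ≤ LN (fun t => NW (Wa 0) (at' (XX c z - XX c (zn n)) t)) + LN (fun t => NW (Wa 0) (at' (XX c (zn n)) t)) :=
          LN_add_le (NW_meas _ hc1) (NW_meas _ c2)
      _ ≤ ENNReal.ofReal (ε / 2) + ENNReal.ofReal (D1 + D2 + ε / 2) := add_le_add hcl (hzn4 n hn2)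
      _ ≤ _ := by
          rw [← ENNReal.ofReal_add (by positivity) (by positivity)]
          exact ENNReal.ofReal_le_ofReal (by linarith)

end Pool.Agent.U162.GE
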