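import Pool.Agent.U162.MU.Steer

/-!
The Wiener algebra norm of square roots
-/

open MeasureTheory Set Filter Topology
open scoped ENNReal NNReal ContDiff

namespace Pool.Agent.U162.MU

open Pool.Agent.H356R3.NS Pool.Agent.U162.TS Pool.Agent.U162.GE Pool.Agent.U162.TS.EL Pool.Agent.U162.TS.VF Pool.Agent.U162.PL

/-- the Wiener norm -/
noncomputable def An1 (f : R3 → ℝ) : ℝ≥0∞ := ∑' l, ‖H459R3.NS.fr f l‖ₑ

lemma An1_mul {f g : R3 → ℝ} (hf : H459R3.NS.SP f) (hg : H459R3.NS.SP g) :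
    An1 (fun x => f x * g x) ≤ An1 f * An1 g := by
  unfold An1
  calc ∑' k, ‖H459R3.NS.fr (fun x => f x * g x) k‖ₑ
      ≤ ∑' k, ∑' q, ‖H459R3.NS.fr g q‖ₑ * ‖H459R3.NS.fr f (k - q)‖ₑ := by
        refine ENNReal.tsum_le_tsum fun k => ?_
        rw [← (Pool.Agent.Q63.Win.fr_mul hf hg k).tsum_eq]
        refine enorm_tsum_le_tsum_enorm.trans (le_of_eq ?_)
        refine tsum_congr fun q => ?_
        rw [enorm_mul, mul_comm]
    _ = (∑' k, ‖H459R3.NS.fr g k‖ₑ) * ∑' k, ‖H459R3.NS.fr f k‖ₑ :=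
        conv_fg (fun q => ‖H459R3.NS.fr g q‖ₑ) (fun q => ‖H459R3.NS.fr f q‖ₑ)
    _ = _ := mul_comm _ _

lemma An1_add {f g : R3 → ℝ} (hf : H459R3.NS.SP f) (hg : H459R3.NS.SP g) :
    An1 (fun x => f x + g x) ≤ An1 f + An1 g := by
  unfold An1
  rw [← ENNReal.tsum_add]
  refine ENNReal.tsum_le_tsum fun k => ?_
  rw [fr_add' hf hg]
  exact enorm_add_le _ _

lemma An1_const_mul (f : R3 → ℝ) (c : ℝ) : An1 (fun x => c * f x) = ENNReal.ofReal |c| * An1 f := by
  unfold An1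
  rw [← ENNReal.tsum_mul_left]
  refine tsum_congr fun k => ?_
  rw [fr_const_mul, enorm_mul, ← ofReal_norm (c : ℂ), Complex.norm_real, Real.norm_eq_abs]

lemma An1_const (c : ℝ) : An1 (fun _ => c) = ENNReal.ofReal |c| := by
  unfold An1
  rw [tsum_eq_single (0 : K) fun l hl => by rw [fr_const hl]; simp]
  have : H459R3.NS.fr (fun _ : R3 => c) 0 = c := by
    unfold H459R3.NS.fr H459R3.NS.fc
    rw [integral_mul_const, H459R3.NS.integral_ee, if_pos neg_zero, one_mul]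
  rw [this, ← ofReal_norm (c : ℂ), Complex.norm_real, Real.norm_eq_abs]

lemma An1_sup {f : R3 → ℝ} (hf : H459R3.NS.SP f) (x : R3) : ENNReal.ofReal |f x| ≤ An1 f := by
  have h1 := H459R3.NS.S_fr hf x
  have h2 : ENNReal.ofReal |f x| = ‖((f x : ℝ) : ℂ)‖ₑ := by
    rw [← ofReal_norm, Complex.norm_real, Real.norm_eq_abs]
  rw [h2, ← h1]
  unfold H459R3.NS.S An1
  refine enorm_tsum_le_tsum_enorm.trans (ENNReal.tsum_le_tsum fun k => ?_)
  rw [enorm_mul, ← ofReal_norm (H459R3.NS.ee k x), H459R3.NS.norm_ee]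
  simp

lemma An1_bd {f : R3 → ℝ} (hf : H459R3.NS.SP f) {M : ℝ} (hM : 0 ≤ M) (h : An1 f ≤ ENNReal.ofReal M) (x : R3) :
    |f x| ≤ M := (ENNReal.ofReal_le_ofReal_iff hM).1 ((An1_sup hf x).trans h)

lemma fr_close {f g : R3 → ℝ} (hf : H459R3.NS.SP f) (hg : H459R3.NS.SP g) {M : ℝ} (h : ∀ x, |f x - g x| ≤ M) (l : K) :
    ‖H459R3.NS.fr f l - H459R3.NS.fr g l‖ ≤ M := by
  have e : H459R3.NS.fr f l - H459R3.NS.fr g l = H459R3.NS.fr (fun x => f x + (-1) * g x) l := by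
    rw [fr_add' hf (sp_const_mul hg (-1)), fr_const_mul]; push_cast; ring
  rw [e]
  unfold H459R3.NS.fr H459R3.NS.fc
  refine norm_int_cube fun x _ => ?_
  rw [norm_mul, H459R3.NS.norm_ee, one_mul, Complex.norm_real, Real.norm_eq_abs]
  have := h x
  show |f x + -1 * g x| ≤ M
  rwa [show f x + -1 * g x = f x - g x by ring]

/-- the iteration for the square root -/
noncomputable def yi (f : R3 → ℝ) : ℕ → R3 → ℝ
  | 0 => fun _ => 0
  | n + 1 => fun x => 1 / 2 * (f x + (-1) * (yi f n x * yi f n x))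

lemma yi_sp {f : R3 → ℝ} (hf : H459R3.NS.SP f) : ∀ n, H459R3.NS.SP (yi f n)
  | 0 => sp_const 0
  | n + 1 => sp_const_mul (hf.add (sp_const_mul ((yi_sp hf n).mul (yi_sp hf n)) (-1))) (1 / 2)

lemma yi_An {f : R3 → ℝ} (hf : H459R3.NS.SP f) (h : An1 f ≤ ENNReal.ofReal (3 / 4)) : ∀ n, An1 (yi f n) ≤ ENNReal.ofReal (1 / 2)
  | 0 => by
    show An1 (fun _ => 0) ≤ _
    rw [An1_const]; simp
  | n + 1 => by
    have ih := yi_An hf h n
    show An1 (fun x => 1 / 2 * (f x + (-1) * (yi f n x * yi f n x))) ≤ _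
    rw [An1_const_mul]
    have h4 : An1 (fun x => (-1) * (yi f n x * yi f n x)) ≤ ENNReal.ofReal (1 / 4) := by
      rw [An1_const_mul]
      calc ENNReal.ofReal |(-1 : ℝ)| * An1 (fun x => yi f n x * yi f n x) ≤ 1 * (ENNReal.ofReal (1 / 2) * ENNReal.ofReal (1 / 2)) := by
            refine mul_le_mul' (by simp) ((An1_mul (yi_sp hf n) (yi_sp hf n)).trans (mul_le_mul' ih ih))
        _ = ENNReal.ofReal (1 / 4) := by
            rw [one_mul, ← ENNReal.ofReal_mul (by norm_num)]; norm_num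
    refine (mul_le_mul' le_rfl ((An1_add hf (sp_const_mul ((yi_sp hf n).mul (yi_sp hf n)) (-1))).trans
      (add_le_add h h4))).trans ?_
    rw [← ENNReal.ofReal_add (by norm_num) (by norm_num), ← ENNReal.ofReal_mul (by positivity)]
    apply ENNReal.ofReal_le_ofReal
    rw [abs_of_pos (by norm_num)]; norm_num

lemma sqrt_eq_it {t : ℝ} (ht : |t| ≤ 3 / 4) : |Real.sqrt (1 + t) - 1| ≤ 1 / 2 ∧
    Real.sqrt (1 + t) - 1 = 1 / 2 * (t + (-1) * ((Real.sqrt (1 + t) - 1) * (Real.sqrt (1 + t) - 1))) := by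
  have h1 := abs_le.1 ht
  have h2 : Real.sqrt (1 + t) ^ 2 = 1 + t := Real.sq_sqrt (by linarith [h1.1])
  have h3 := Real.sqrt_nonneg (1 + t)
  refine ⟨?_, by nlinarith⟩
  rw [abs_le]
  constructor
  · nlinarith
  · nlinarith

lemma yi_lim {f : R3 → ℝ} (hf : H459R3.NS.SP f) (h : An1 f ≤ ENNReal.ofReal (3 / 4)) (n : ℕ) (x : R3) :
    |yi f n x - (Real.sqrt (1 + f x) - 1)| ≤ (1 / 2) ^ n := by
  have hfx := An1_bd hf (by norm_num) h x
  obtain ⟨h1, h2⟩ := sqrt_eq_it hfx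
  set s := Real.sqrt (1 + f x) - 1 with hs
  induction n with
  | zero =>
    show |(0 : ℝ) - s| ≤ _
    rw [zero_sub, abs_neg, pow_zero]; linarith
  | succ n ih =>
    have h3 := An1_bd (yi_sp hf n) (by norm_num) (yi_An hf h n) x
    show |1 / 2 * (f x + (-1) * (yi f n x * yi f n x)) - s| ≤ _
    have e : 1 / 2 * (f x + (-1) * (yi f n x * yi f n x)) - s = -(1 / 2) * (yi f n x - s) * (yi f n x + s) := by
      rw [show (1 / 2 * (f x + (-1) * (yi f n x * yi f n x)) - s)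
        = 1 / 2 * (f x + (-1) * (yi f n x * yi f n x)) - 1 / 2 * (f x + (-1) * (s * s)) by rw [← h2]]
      ring
    rw [e, abs_mul, abs_mul]
    have h4 : |yi f n x + s| ≤ 1 := (abs_add_le _ _).trans (by linarith)
    have h5 : |(-(1 / 2) : ℝ)| = 1 / 2 := by rw [abs_neg, abs_of_pos]; norm_num
    rw [h5, pow_succ]
    calc 1 / 2 * |yi f n x - s| * |yi f n x + s| ≤ 1 / 2 * (1 / 2) ^ n * 1 := by gcongr
      _ = _ := by ring

lemma sqrt_sp {f : R3 → ℝ} (hf : H459R3.NS.SP f) (h : An1 f ≤ ENNReal.ofReal (3 / 4)) :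
    H459R3.NS.SP fun x => Real.sqrt (1 + f x) - 1 := by
  refine ⟨?_, fun j x => ?_⟩
  · refine ((contDiff_const.add hf.smooth).sqrt fun x => ?_).sub contDiff_const
    have := abs_le.1 (An1_bd hf (by norm_num) h x)
    have h1 : (0 : ℝ) < 1 + f x := by linarith [this.1]
    exact h1.ne'
  · show Real.sqrt (1 + f (x + Pi.single j 1)) - 1 = _
    rw [hf.per j x]

/-- the Wiener norm of the square root -/
theorem sqrt_wiener {f : R3 → ℝ} (hf : H459R3.NS.SP f) (h : An1 f ≤ ENNReal.ofReal (3 / 4)) :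
    An1 (fun x => Real.sqrt (1 + f x)) ≤ ENNReal.ofReal (3 / 2) := by
  have hsp := sqrt_sp hf h
  have h1 : An1 (fun x => Real.sqrt (1 + f x) - 1) ≤ ENNReal.ofReal (1 / 2) := by
    unfold An1
    rw [ENNReal.tsum_eq_iSup_sum]
    refine iSup_le fun F => ?_
    have hlim : Tendsto (fun n => ∑ l ∈ F, ‖H459R3.NS.fr (yi f n) l‖ₑ) atTop
        (𝓝 (∑ l ∈ F, ‖H459R3.NS.fr (fun x => Real.sqrt (1 + f x) - 1) l‖ₑ)) := by
      refine tendsto_finsetSum _ fun l _ => ?_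
      have h2 : Tendsto (fun n => H459R3.NS.fr (yi f n) l) atTop (𝓝 (H459R3.NS.fr (fun x => Real.sqrt (1 + f x) - 1) l)) := by
        rw [tendsto_iff_norm_sub_tendsto_zero]
        refine squeeze_zero (fun _ => norm_nonneg _) (fun n => fr_close (yi_sp hf n) hsp (fun x => yi_lim hf h n x) l) ?_
        exact tendsto_pow_atTop_nhds_zero_of_lt_one (by norm_num) (by norm_num)
      exact (continuous_enorm.tendsto _).comp h2
    refine le_of_tendsto hlim (Filter.Eventually.of_forall fun n => ?_)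
    exact (ENNReal.sum_le_tsum F).trans (yi_An hf h n)
  have e : (fun x => Real.sqrt (1 + f x)) = fun x => 1 + (Real.sqrt (1 + f x) - 1) := by
    funext x; ring
  rw [e]
  refine (An1_add (sp_const 1) hsp).trans ?_
  rw [An1_const]
  refine (add_le_add le_rfl h1).trans (le_of_eq ?_)
  rw [← ENNReal.ofReal_add (by positivity) (by norm_num)]
  norm_num

end Pool.Agent.U162.MU
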